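import Pool.Agent.LQL.Stmts

/-!
# Thin step (MP_61eda3_an), module LQL_ALG: separation of the factor `w 0`
-/

set_option autoImplicit false

namespace LQL

open Set Filter Topology Lq

namespace ALG

theorem sep (q al lam κ η W0 D0 H0 C0 C1 C2 N be : ℝ) (hq : q = 1 - al)
    (hl : lam = be + η - al) (hlam : 0 < lam) (hκ : κ * lam = q * lam - al ^ 2)
    (h : η * W0 * N ^ 2 ≤ (1 - be - η) * D0 ^ 2 - W0 * H0) :
    W0 ^ 2 * (κ * C1 ^ 2 - C0 * C2) + η * W0 * C0 ^ 2 * N ^ 2 ≤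
      q * (D0 * C0 + W0 * C1) ^ 2 - W0 * C0 * (H0 * C0 + 2 * D0 * C1 + W0 * C2) := by
  have h1 : 0 ≤ C0 ^ 2 * ((1 - be - η) * D0 ^ 2 - W0 * H0 - η * W0 * N ^ 2) :=
    mul_nonneg (sq_nonneg _) (by linarith)
  have h2 : 0 ≤ (lam * (C0 * D0) - al * (W0 * C1)) ^ 2 / lam := by positivity
  have h3 : (lam * (C0 * D0) - al * (W0 * C1)) ^ 2 / lam =
      lam * (C0 * D0) ^ 2 - 2 * al * (C0 * D0) * (W0 * C1) + (q - κ) * (W0 * C1) ^ 2 := by
    have e : (q - κ) = al ^ 2 / lam := by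
      field_simp
      linarith
    rw [e]
    field_simp
    ring
  rw [h3] at h2
  subst hq
  subst hl
  linear_combination h1 + h2

end ALG

/-- module LQL_ALG -/
theorem t_ALG : Stmt_ALG := by
  intro be η hbe hη
  have h1 : (0 : ℝ) < 1 + be := by linarith
  set q : ℝ := 1 / (1 + be) with hq
  set al : ℝ := be / (1 + be) with hal
  have hqa : q = 1 - al := by
    rw [hq, hal]
    field_simp
    ring
  have hlam0 : be + η - al = be ^ 2 / (1 + be) + η := by
    rw [hal]
    field_simp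
    ring
  have hlam : 0 < be + η - al := by
    rw [hlam0]
    positivity
  have hk : q * (be + η - al) - al ^ 2 = η / (1 + be) := by
    rw [hlam0, hq, hal]
    field_simp
    ring
  refine ⟨(q * (be + η - al) - al ^ 2) / (be + η - al), ?_, ?_⟩
  · rw [hk]
    positivity
  · intro W0 D0 H0 C0 C1 C2 N h
    exact ALG.sep q al (be + η - al) _ η W0 D0 H0 C0 C1 C2 N be hqa rfl hlam
      (div_mul_cancel₀ _ hlam.ne') h

end LQL
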