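import Pool.Agent.LQL.Stmts

/-!
# BA: the barriers
-/

set_option autoImplicit false

namespace LQL

open Set Filter Topology Lq

namespace BA

theorem far {r B B' ε z W0 W1 R0 : ℝ} (hr : 0 < r) (hB : 0 < B) (hB' : 0 < B')
    (h0 : 0 < ε) (h1 : ε ≤ 1) (h2 : ε * (8 * B + 16 * B') < r) (hz : |z| = 2) (hW : r ≤ W0)
    (hW1 : |W1| ≤ B) (hR : |R0| ≤ B' * z ^ 2) : u0 ε z W0 W1 R0 < 0 := by
  have hc := cos_of_abs_two hz
  have hz2 : z ^ 2 = 4 := by rw [← sq_abs, hz]; norm_num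
  have s1 := mul_sin_le z
  have s0 := mul_sin_nonneg hz.le
  rw [hz2] at s1 hR
  have a1 := abs_le.mp hW1
  have a2 := abs_le.mp hR
  unfold u0
  have e1 : Real.cos z * W0 ≤ -(r / 4) := by nlinarith
  have e2 : -(z * Real.sin z / 2 * W1) ≤ 2 * B := by nlinarith
  have e3 : ε * -(z * Real.sin z / 2 * W1) ≤ ε * (2 * B) := mul_le_mul_of_nonneg_left e2 h0.le
  have e4 : ε ^ 2 * R0 ≤ ε * (4 * B') := by
    have : ε ^ 2 * R0 ≤ ε ^ 2 * (B' * 4) := mul_le_mul_of_nonneg_left a2.2 (sq_nonneg _)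
    nlinarith [mul_pos h0 hB']
  nlinarith

theorem near {c1 B' ε z W0 W1 R0 : ℝ} (hc1 : 0 < c1) (hB' : 0 < B') (h0 : 0 < ε)
    (h2 : ε * (8 * B') < c1) (hz : |z| ≤ 2) (hW : Real.cos z * W0 ≤ 0)
    (hW1 : c1 ≤ W1) (hR : |R0| ≤ B' * z ^ 2) :
    u0 ε z W0 W1 R0 ≤ -(ε * z ^ 2 * (c1 / 8 - ε * B')) := by
  have s0 := mul_sin_ge hz
  have a2 := abs_le.mp hR
  unfold u0
  have hz2 : 0 ≤ z ^ 2 := sq_nonneg z
  have e2 : z ^ 2 / 8 * c1 ≤ z * Real.sin z / 2 * W1 := by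
    have : z ^ 2 / 8 ≤ z * Real.sin z / 2 := by linarith
    exact mul_le_mul this hW1 hc1.le (by linarith)
  have e3 : ε * (z ^ 2 / 8 * c1) ≤ ε * (z * Real.sin z / 2 * W1) :=
    mul_le_mul_of_nonneg_left e2 h0.le
  have e4 : ε ^ 2 * R0 ≤ ε ^ 2 * (B' * z ^ 2) := mul_le_mul_of_nonneg_left a2.2 (sq_nonneg _)
  nlinarith

end BA

open BA

theorem t_BA : Stmt_BA := by
  intro hUF hRB hWB hKW J w K be hy
  obtain ⟨m, rfl⟩ : ∃ m, J = m + 1 := ⟨J - 1, by have := hy.J1; omega⟩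
  obtain ⟨r, c, M, c1, hr, hc, hM, hc1, hk⟩ := hKW (m + 1) w K be hy
  obtain ⟨B, hB, hb⟩ := hWB w K hy.sm hy.cp 1
  obtain ⟨B', hB', hb'⟩ := hRB m w K hy.sm hy.cp
  refine ⟨min 1 (min (r / (8 * B + 16 * B')) (c1 / (8 * B'))), by positivity, ?_⟩
  intro ε h0 hε
  have h1 : ε ≤ 1 := (lt_of_lt_of_le hε (min_le_left _ _)).le
  have h2 : ε * (8 * B + 16 * B') < r := by
    have := lt_of_lt_of_le hε ((min_le_right _ _).trans (min_le_left _ _))
    rwa [lt_div_iff₀ (by positivity)] at this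
  have h3 : ε * (8 * B') < c1 := by
    have := lt_of_lt_of_le hε ((min_le_right _ _).trans (min_le_right _ _))
    rwa [lt_div_iff₀ (by positivity)] at this
  have hu : ∀ x z, uu (m + 1) w ε (x, z) = u0 ε z (w 0 x) (w 1 x) (RR m w ε (x, z)) :=
    fun x z => (hUF m w hy.sm ε (x, z) 0).1
  constructor
  · intro x hx z hz
    rw [hu]
    have hR := (hb' ε h0.le h1 x hx z hz.le 0).1
    rcases le_or_gt r (w 0 x) with h | h
    · exact far hr hB hB' h0 h1 h2 hz h (hb 1 le_rfl x hx).1 hR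
    · have hW : Real.cos z * w 0 x ≤ 0 := by
        have := cos_of_abs_two hz
        have h4 := hy.nn x hx
        nlinarith
      have h5 := near hc1 hB' h0 h3 hz.le hW (hk x hx h).1 hR
      have hz2 : z ^ 2 = 4 := by rw [← sq_abs, hz]; norm_num
      rw [hz2] at h5
      have h6 : 0 < ε * 4 * (c1 / 8 - ε * B') := by
        have : 0 < c1 / 8 - ε * B' := by linarith
        positivity
      linarith
  · intro x hx hx0 z hz
    rw [hu]
    have hR := (hb' ε h0.le h1 x hx z hz 0).1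
    have hW : Real.cos z * w 0 x ≤ 0 := by rw [hx0]; simp
    have h5 := near hc1 hB' h0 h3 hz hW (hk x hx (by rw [hx0]; exact hr)).1 hR
    have h6 : 0 ≤ ε * z ^ 2 * (c1 / 8 - ε * B') := by
      have : 0 < c1 / 8 - ε * B' := by linarith
      positivity
    linarith

end LQL
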