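import Pool.Agent.LQL.Stmts

/-!
# The thin step: CB, bounds of the coefficient functions
-/

set_option autoImplicit false

namespace LQL

open Set Filter Topology Lq

namespace CB

/-- one function -/
theorem one {f : ℝ → ℝ} (hf : ContDiff ℝ (⊤ : ℕ∞) f) (h0 : f 0 = 0) (h1 : deriv f 0 = 0) :
    ∃ B : ℝ, 0 < B ∧ ∀ τ : ℝ, |τ| ≤ 2 →
      |f τ| ≤ B * τ ^ 2 ∧ |deriv f τ| ≤ B * |τ| ∧ |deriv (deriv f) τ| ≤ B := by
  have hs1 : ContDiff ℝ (⊤ : ℕ∞) (deriv f) := by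
    have h2 : ContDiff ℝ (((⊤ : ℕ∞) : WithTop ℕ∞) + 1) f := by simpa using hf
    exact (contDiff_succ_iff_deriv.1 h2).2.2
  have hs2 : ContDiff ℝ (⊤ : ℕ∞) (deriv (deriv f)) := by
    have h2 : ContDiff ℝ (((⊤ : ℕ∞) : WithTop ℕ∞) + 1) (deriv f) := by simpa using hs1
    exact (contDiff_succ_iff_deriv.1 h2).2.2
  have hd0 : Differentiable ℝ f := sm_diff hf
  have hd1 : Differentiable ℝ (deriv f) := sm_diff hs1
  obtain ⟨C, hC⟩ := (isCompact_Icc (a := (-2 : ℝ)) (b := 2)).exists_bound_of_continuousOn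
    (f := deriv (deriv f)) hs2.continuous.continuousOn
  have hC2 : ∀ τ ∈ Icc (-2 : ℝ) 2, ‖deriv (deriv f) τ‖ ≤ max C 1 := fun τ hτ =>
    le_trans (hC τ hτ) (le_max_left _ _)
  have hB0 : (0 : ℝ) < max C 1 := lt_of_lt_of_le one_pos (le_max_right _ _)
  have h0m : (0 : ℝ) ∈ Icc (-2 : ℝ) 2 := ⟨by norm_num, by norm_num⟩
  have key1 : ∀ τ : ℝ, |τ| ≤ 2 → |deriv f τ| ≤ max C 1 * |τ| := by
    intro τ hτ
    have hm : τ ∈ Icc (-2 : ℝ) 2 := abs_le.1 hτ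
    have h3 := Convex.norm_image_sub_le_of_norm_deriv_le (f := deriv f) (C := max C 1)
      (s := Icc (-2 : ℝ) 2) (x := 0) (y := τ) (fun x _ => hd1 x) hC2 (convex_Icc _ _) h0m hm
    rw [h1, sub_zero, sub_zero, Real.norm_eq_abs, Real.norm_eq_abs] at h3
    exact h3
  refine ⟨max C 1, hB0, fun τ hτ => ⟨?_, key1 τ hτ, ?_⟩⟩
  · have hm : τ ∈ Icc (-|τ|) |τ| := abs_le.1 le_rfl
    have h0m' : (0 : ℝ) ∈ Icc (-|τ|) |τ| := ⟨by have := abs_nonneg τ; linarith, abs_nonneg τ⟩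
    have hb : ∀ σ ∈ Icc (-|τ|) |τ|, ‖deriv f σ‖ ≤ max C 1 * |τ| := by
      intro σ hσ
      have h4 : |σ| ≤ |τ| := abs_le.2 hσ
      have h5 := key1 σ (le_trans h4 hτ)
      rw [Real.norm_eq_abs]
      exact le_trans h5 (mul_le_mul_of_nonneg_left h4 hB0.le)
    have h3 := Convex.norm_image_sub_le_of_norm_deriv_le (f := f) (C := max C 1 * |τ|)
      (s := Icc (-|τ|) |τ|) (x := 0) (y := τ) (fun x _ => hd0 x) hb (convex_Icc _ _) h0m' hm
    rw [h0, sub_zero, sub_zero, Real.norm_eq_abs, Real.norm_eq_abs] at h3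
    calc |f τ| ≤ max C 1 * |τ| * |τ| := h3
      _ = max C 1 * (|τ| ^ 2) := by ring
      _ = max C 1 * τ ^ 2 := by rw [sq_abs]
  · have hm : τ ∈ Icc (-2 : ℝ) 2 := abs_le.1 hτ
    have := hC2 τ hm
    rwa [Real.norm_eq_abs] at this

end CB

theorem t_CB : Stmt_CB := by
  intro hZ J
  have hone : ∀ j : ℕ, ∃ B : ℝ, 0 < B ∧ ∀ τ : ℝ, |τ| ≤ 2 →
      |cz (j + 1) τ| ≤ B * τ ^ 2 ∧ |deriv (cz (j + 1)) τ| ≤ B * |τ| ∧
        |deriv (deriv (cz (j + 1))) τ| ≤ B := fun j =>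
    CB.one (hZ.sm (j + 1)) (hZ.z0 j) (hZ.z1 j)
  induction J with
  | zero =>
    obtain ⟨B, hB, h⟩ := hone 0
    refine ⟨B, hB, fun j hj τ hτ => ?_⟩
    have hj0 : j = 0 := Nat.le_zero.1 hj
    subst hj0
    exact h τ hτ
  | succ J ih =>
    obtain ⟨B1, hB1, h1⟩ := ih
    obtain ⟨B2, hB2, h2⟩ := hone (J + 1)
    refine ⟨max B1 B2, lt_of_lt_of_le hB1 (le_max_left _ _), fun j hj τ hτ => ?_⟩
    rcases Nat.lt_or_ge j (J + 1) with hlt | hge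
    · obtain ⟨ha, hb, hc⟩ := h1 j (Nat.lt_succ_iff.1 hlt) τ hτ
      refine ⟨le_trans ha ?_, le_trans hb ?_, le_trans hc (le_max_left _ _)⟩
      · exact mul_le_mul_of_nonneg_right (le_max_left _ _) (sq_nonneg _)
      · exact mul_le_mul_of_nonneg_right (le_max_left _ _) (abs_nonneg _)
    · have hj' : j = J + 1 := le_antisymm hj hge
      subst hj'
      obtain ⟨ha, hb, hc⟩ := h2 τ hτ
      refine ⟨le_trans ha ?_, le_trans hb ?_, le_trans hc (le_max_right _ _)⟩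
      · exact mul_le_mul_of_nonneg_right (le_max_right _ _) (sq_nonneg _)
      · exact mul_le_mul_of_nonneg_right (le_max_right _ _) (abs_nonneg _)

end LQL
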