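import Pool.Agent.LQL.Stmts

/-!
# FI: the theorem of the thin step from the parts
-/

set_option autoImplicit false

namespace LQL

open Set Filter Topology Lq

/-- FI -/
theorem t_FI : Stmt_FI := by
  intro hW hR hA J w K be hJ hsm hcp hb0 hb1 hnn hcl hB hC hgr
  have hy : Hy J w K be := ⟨hJ, hsm, hcp, hb0, hb1, hnn, hcl, hB, hC, hgr⟩
  obtain ⟨r, e1, hr, he1, h1⟩ := hW J w K be hy
  obtain ⟨e2, he2, h2⟩ := hR J w K be hy r hr
  obtain ⟨e3, he3, h3⟩ := hA J w K be hy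
  refine ⟨min e1 (min e2 e3), lt_min he1 (lt_min he2 he3), fun ε h0 hε => ?_⟩
  have a1 : ε < e1 := lt_of_lt_of_le hε (min_le_left _ _)
  have a2 : ε < e2 := lt_of_lt_of_le hε ((min_le_right _ _).trans (min_le_left _ _))
  have a3 : ε < e3 := lt_of_lt_of_le hε ((min_le_right _ _).trans (min_le_right _ _))
  refine ⟨?_, ?_, ?_⟩
  · intro x hx z hz hw hu V
    rcases lt_or_ge (w 0 x) r with h | h
    · exact h1 ε h0 a1 x hx z hz hw h hu V
    · exact h2 ε h0 a2 x hx z hz h hu V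
  · intro x hx
    exact ⟨(h3 ε h0 a3).1 x hx 2 (by norm_num), (h3 ε h0 a3).1 x hx (-2) (by norm_num)⟩
  · exact (h3 ε h0 a3).2

end LQL
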