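import Pool.Agent.LQL.Stmts

/-!
# MP_61eda3_an, module LQL_FL: Finsler's lemma near a compact zero set
-/

set_option autoImplicit false

namespace LQL

open Set Filter Topology Lq

namespace FL

/-- the nested compact sets -/
def C (w : ℝ × ℝ → ℝ) (K : Set (ℝ × ℝ)) (A b : ℝ × ℝ → ℝ × ℝ → ℝ) (n : ℕ) :
    Set ((ℝ × ℝ) × (ℝ × ℝ)) :=
  {q | q.1 ∈ K ∧ ‖q.2‖ = 1 ∧ w q.1 ≤ 1 / ((n : ℝ) + 1) ∧
    A q.1 q.2 + ((n : ℝ) + 1) * b q.1 q.2 ^ 2 ≤ 1 / ((n : ℝ) + 1)}

theorem C_eq (w : ℝ × ℝ → ℝ) (K : Set (ℝ × ℝ)) (A b : ℝ × ℝ → ℝ × ℝ → ℝ) (n : ℕ) :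
    C w K A b n = (K ×ˢ Metric.sphere (0 : ℝ × ℝ) 1) ∩
      ({q | w q.1 ≤ 1 / ((n : ℝ) + 1)} ∩
        {q | A q.1 q.2 + ((n : ℝ) + 1) * b q.1 q.2 ^ 2 ≤ 1 / ((n : ℝ) + 1)}) := by
  ext q
  simp only [C, mem_setOf_eq, mem_inter_iff, mem_prod, mem_sphere_iff_norm, sub_zero]
  tauto

theorem C_compact (w : ℝ × ℝ → ℝ) (K : Set (ℝ × ℝ)) (A b : ℝ × ℝ → ℝ × ℝ → ℝ)
    (hK : IsCompact K) (hw : Continuous w)
    (hA : Continuous (fun q : (ℝ × ℝ) × (ℝ × ℝ) => A q.1 q.2))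
    (hb : Continuous (fun q : (ℝ × ℝ) × (ℝ × ℝ) => b q.1 q.2)) (n : ℕ) :
    IsCompact (C w K A b n) := by
  rw [C_eq]
  refine (hK.prod (isCompact_sphere _ _)).inter_right ?_
  refine IsClosed.inter ?_ ?_
  · exact isClosed_le (hw.comp continuous_fst) continuous_const
  · exact isClosed_le (hA.add (continuous_const.mul (hb.pow 2))) continuous_const

theorem C_anti (w : ℝ × ℝ → ℝ) (K : Set (ℝ × ℝ)) (A b : ℝ × ℝ → ℝ × ℝ → ℝ) (n : ℕ) :
    C w K A b (n + 1) ⊆ C w K A b n := by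
  rintro q ⟨h1, h2, h3, h4⟩
  have hn : (0 : ℝ) ≤ (n : ℝ) := Nat.cast_nonneg n
  have h5 : 1 / (((n + 1 : ℕ) : ℝ) + 1) ≤ 1 / ((n : ℝ) + 1) := by
    apply one_div_le_one_div_of_le
    · linarith
    · push_cast
      linarith
  refine ⟨h1, h2, h3.trans h5, ?_⟩
  have h6 : 0 ≤ b q.1 q.2 ^ 2 := sq_nonneg _
  have h7 : ((n : ℝ) + 1) * b q.1 q.2 ^ 2 ≤ (((n + 1 : ℕ) : ℝ) + 1) * b q.1 q.2 ^ 2 := by
    apply mul_le_mul_of_nonneg_right _ h6
    push_cast
    linarith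
  linarith

end FL

theorem t_FL : Stmt_FL := by
  intro w K A b hK hw hnn hA hb hhA hhb hyp
  -- some `C n` is empty
  have hex : ∃ n : ℕ, FL.C w K A b n = ∅ := by
    by_contra hcon
    push Not at hcon
    have hne : (⋂ n, FL.C w K A b n).Nonempty := by
      apply IsCompact.nonempty_iInter_of_sequence_nonempty_isCompact_isClosed
      · exact fun n => FL.C_anti w K A b n
      · exact fun n => hcon n
      · exact FL.C_compact w K A b hK hw hA hb 0
      · exact fun n => (FL.C_compact w K A b hK hw hA hb n).isClosed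
    obtain ⟨q, hq⟩ := hne
    rw [mem_iInter] at hq
    have hqK : q.1 ∈ K := (hq 0).1
    have hq1 : ‖q.2‖ = 1 := (hq 0).2.1
    have hlim : Tendsto (fun n : ℕ => 1 / ((n : ℝ) + 1)) atTop (𝓝 0) :=
      tendsto_one_div_add_atTop_nhds_zero_nat
    have hw0 : w q.1 = 0 := by
      apply le_antisymm _ (hnn _ hqK)
      exact ge_of_tendsto' hlim (fun n => (hq n).2.2.1)
    have hA0 : A q.1 q.2 ≤ 0 := by
      apply ge_of_tendsto' hlim
      intro n
      have h1 := (hq n).2.2.2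
      have hn : (0 : ℝ) ≤ (n : ℝ) := Nat.cast_nonneg n
      have h2 : 0 ≤ ((n : ℝ) + 1) * b q.1 q.2 ^ 2 := by positivity
      linarith
    have hb0 : b q.1 q.2 = 0 := by
      have h3 : b q.1 q.2 ^ 2 ≤ 0 := by
        have hlim2 : Tendsto (fun n : ℕ => (1 - A q.1 q.2) * (1 / ((n : ℝ) + 1))) atTop
            (𝓝 ((1 - A q.1 q.2) * 0)) := hlim.const_mul _
        rw [mul_zero] at hlim2
        apply ge_of_tendsto' hlim2
        intro n
        have h1 := (hq n).2.2.2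
        have hn : (0 : ℝ) ≤ (n : ℝ) := Nat.cast_nonneg n
        have hp : (0 : ℝ) < (n : ℝ) + 1 := by linarith
        have h4 : 1 / ((n : ℝ) + 1) ≤ 1 := by
          rw [div_le_one hp]
          linarith
        rw [mul_one_div, le_div_iff₀ hp]
        linarith
      have h4 := sq_nonneg (b q.1 q.2)
      exact pow_eq_zero_iff (two_ne_zero) |>.mp (le_antisymm h3 h4)
    have hv : q.2 ≠ 0 := by
      intro h
      rw [h, norm_zero] at hq1
      exact zero_ne_one hq1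
    have := hyp q.1 hqK hw0 q.2 hv hb0
    linarith
  obtain ⟨n, hn⟩ := hex
  have hn0 : (0 : ℝ) ≤ (n : ℝ) := Nat.cast_nonneg n
  have hp : (0 : ℝ) < (n : ℝ) + 1 := by linarith
  refine ⟨1 / ((n : ℝ) + 1), 1 / ((n : ℝ) + 1), (n : ℝ) + 1, by positivity, by positivity, hp, ?_⟩
  intro x hx hwx v
  by_cases hv : v = 0
  · have h1 : A x v = 0 := by
      have := hhA x v 0
      rw [zero_smul] at this
      rw [hv]
      rw [this]
      ring
    have h2 : b x v = 0 := by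
      have := hhb x v 0
      rw [zero_smul] at this
      rw [hv]
      rw [this]
      ring
    rw [h1, h2, hv, norm_zero]
    simp
  · have hnv : 0 < ‖v‖ := norm_pos_iff.mpr hv
    set u : ℝ × ℝ := ‖v‖⁻¹ • v with hu
    have hun : ‖u‖ = 1 := by
      rw [hu, norm_smul, norm_inv, norm_norm]
      exact inv_mul_cancel₀ hnv.ne'
    have hvu : v = ‖v‖ • u := by
      rw [hu, smul_smul, mul_inv_cancel₀ hnv.ne', one_smul]
    have h1 : 1 / ((n : ℝ) + 1) < A x u + ((n : ℝ) + 1) * b x u ^ 2 := by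
      by_contra hcon
      push Not at hcon
      have : (x, u) ∈ FL.C w K A b n := ⟨hx, hun, hwx.le, hcon⟩
      rw [hn] at this
      exact this
    have h2 : A x v = ‖v‖ ^ 2 * A x u := by
      conv_lhs => rw [hvu]
      rw [hhA]
    have h3 : b x v = ‖v‖ * b x u := by
      conv_lhs => rw [hvu]
      rw [hhb]
    rw [h2, h3]
    have h4 : 0 < ‖v‖ ^ 2 := by positivity
    nlinarith [mul_lt_mul_of_pos_left h1 h4]

end LQL
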