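import Pool.Agent.LQL.Stmts

set_option autoImplicit false

namespace LQL

open Set Filter Topology Lq

namespace JP

theorem line_a {a : ℝ → ℝ} (ha : ContDiff ℝ (⊤ : ℕ∞) a) (τ s t : ℝ) :
    HasDerivAt (fun t : ℝ => a (τ + t * s)) (deriv a (τ + t * s) * s) t := by
  have h1 : HasDerivAt (fun t : ℝ => τ + t * s) s t := by
    have h2 := ((hasDerivAt_id t).mul_const s).const_add τ
    simpa using h2
  exact (sm_diff ha (τ + t * s)).hasDerivAt.comp t h1

theorem sm_deriv {a : ℝ → ℝ} (ha : ContDiff ℝ (⊤ : ℕ∞) a) : ContDiff ℝ (⊤ : ℕ∞) (deriv a) :=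
  (contDiff_infty_iff_deriv.mp ha).2

end JP

open JP in
theorem t_JP : Stmt_JP := by
  intro a g ha hg p V
  have hsm : ContDiff ℝ (⊤ : ℕ∞) (fun q : (ℝ × ℝ) × ℝ => a q.2 * g q.1) :=
    (ha.comp contDiff_snd).mul (hg.comp contDiff_fst)
  have key := d12_of_line hsm (p := p) (V := V)
    (g' := fun t => deriv a (p.2 + t * V.2) * V.2 * g (p.1 + t • V.1) +
      a (p.2 + t * V.2) * d1 g (p.1 + t • V.1) V.1)
    (g'' := (deriv (deriv a) (p.2 + 0 * V.2) * V.2 * V.2 * g (p.1 + (0 : ℝ) • V.1) +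
      deriv a (p.2 + 0 * V.2) * V.2 * d1 g (p.1 + (0 : ℝ) • V.1) V.1) +
      (deriv a (p.2 + 0 * V.2) * V.2 * d1 g (p.1 + (0 : ℝ) • V.1) V.1 +
        a (p.2 + 0 * V.2) * d2 g (p.1 + (0 : ℝ) • V.1) V.1)) ?_ ?_
  · obtain ⟨h1, h2⟩ := key
    refine ⟨?_, ?_⟩
    · rw [h1]
      simp only [zero_mul, add_zero, zero_smul]
    · rw [h2]
      simp only [zero_mul, add_zero, zero_smul]
      ring
  · intro t
    have h1 := line_a ha p.2 V.2 t
    have h2 := line_d1 hg p.1 V.1 t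
    exact h1.mul h2
  · have h1 := (line_a (sm_deriv ha) p.2 V.2 0).mul_const V.2
    have h2 := line_d1 hg p.1 V.1 0
    have h3 := line_a ha p.2 V.2 0
    have h4 := line_d2 hg p.1 V.1 0
    exact (h1.mul h2).add (h3.mul h4)

end LQL
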