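import Pool.Agent.LQL.Stmts

/-!
# JS: directional derivatives of a finite linear combination
-/

set_option autoImplicit false

namespace LQL

open Set Filter Topology Lq

theorem t_JS : Stmt_JS := by
  intro s e f hf p V
  have hs : ContDiff ℝ (⊤ : ℕ∞) (fun q => ∑ j ∈ s, e j * f j q) :=
    ContDiff.sum fun j _ => contDiff_const.mul (hf j)
  have key := d12_of_line hs (p := p) (V := V)
    (g' := fun t => ∑ j ∈ s, e j * d1 (f j) (p + t • V) V)
    (g'' := ∑ j ∈ s, e j * d2 (f j) (p + (0 : ℝ) • V) V)
    (fun t => HasDerivAt.fun_sum fun j _ => (line_d1 (hf j) p V t).const_mul (e j))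
    (HasDerivAt.fun_sum fun j _ => (line_d2 (hf j) p V 0).const_mul (e j))
  simp only [zero_smul, add_zero] at key
  exact key

end LQL
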