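import Pool.Agent.LQL.Stmts

/-!
# KW: constants near the wall
-/

set_option autoImplicit false

namespace LQL

open Set Filter Topology Lq

theorem t_KW : Stmt_KW := by
  intro hWS hFL J w K be hy
  obtain ⟨r1, c, M, hr1, hc, hM, h1⟩ := hFL (w 0) K (fun x v => -d2 (w 0) x v)
    (fun x v => d1 (w 0) x v) hy.cp (hy.sm 0).continuous hy.nn (d2_cont (hy.sm 0)).neg
    (d1_cont (hy.sm 0)) (fun x v t => by rw [d2_smul (hy.sm 0)]; ring)
    (fun x v t => d1_smul (w 0) x v t)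
    (fun x hx h0 v hv hb => by
      have := hWS J w K be hy x hx h0 v hv hb
      linarith)
  obtain ⟨r2, c2, M2, hr2, hc2, hM2, h2⟩ := hFL (w 0) K (fun x v => w 1 x * ‖v‖ ^ 2)
    (fun _ _ => 0) hy.cp (hy.sm 0).continuous hy.nn
    (((hy.sm 1).continuous.comp continuous_fst).mul (continuous_snd.norm.pow 2))
    continuous_const
    (fun x v t => by
      show w 1 x * ‖t • v‖ ^ 2 = t ^ 2 * (w 1 x * ‖v‖ ^ 2)
      rw [norm_smul, mul_pow, Real.norm_eq_abs, sq_abs]
      ring)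
    (fun x v t => by simp)
    (fun x hx h0 v hv _ => mul_pos (hy.gr x hx h0).2 (by positivity))
  refine ⟨min r1 r2, c, M, c2, lt_min hr1 hr2, hc, hM, hc2, ?_⟩
  intro x hx hxr
  refine ⟨?_, fun v => h1 x hx (lt_of_lt_of_le hxr (min_le_left _ _)) v⟩
  have h3 := h2 x hx (lt_of_lt_of_le hxr (min_le_right _ _)) (1, 0)
  have h4 : ‖((1, 0) : ℝ × ℝ)‖ = 1 := by
    simp [Prod.norm_def]
  simp only [h4] at h3
  linarith

end LQL
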