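import Pool.Agent.LQL.Stmts

/-!
# The thin step: QR, the local inequality away from the wall
-/

set_option autoImplicit false

namespace LQL

open Set Filter Topology Lq

namespace QR

theorem norm_sq_le (v : ℝ × ℝ) : ‖v‖ ^ 2 ≤ v.1 ^ 2 + v.2 ^ 2 := by
  rw [Prod.norm_def]
  rcases le_total ‖v.1‖ ‖v.2‖ with h | h
  · rw [max_eq_right h, Real.norm_eq_abs, sq_abs]
    nlinarith [sq_nonneg v.1]
  · rw [max_eq_left h, Real.norm_eq_abs, sq_abs]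
    nlinarith [sq_nonneg v.2]

theorem rem_bounds {b τ N s R0 R1 R2 B : ℝ} (hb : 0 < b) (hB : 4 * b ≤ B) (hτ : |τ| ≤ 2)
    (hN : 0 ≤ N) (h0 : |R0| ≤ b * τ ^ 2) (h1 : |R1| ≤ b * (τ ^ 2 * N + |τ| * |s|))
    (h2 : |R2| ≤ b * (τ ^ 2 * N ^ 2 + |τ| * N * |s| + s ^ 2)) :
    |R0| ≤ B ∧ |R1| ≤ B * (N + |s|) ∧ |R2| ≤ B * (N + |s|) ^ 2 := by
  have hs := abs_nonneg s
  have ht := abs_nonneg τ
  have ht2 : τ ^ 2 ≤ 4 := by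
    rw [← sq_abs]
    nlinarith
  refine ⟨?_, ?_, ?_⟩
  · calc |R0| ≤ b * τ ^ 2 := h0
      _ ≤ b * 4 := mul_le_mul_of_nonneg_left ht2 hb.le
      _ ≤ B := by linarith
  · have h3 : τ ^ 2 * N + |τ| * |s| ≤ 4 * (N + |s|) := by
      have e1 : τ ^ 2 * N ≤ 4 * N := mul_le_mul_of_nonneg_right ht2 hN
      have e2 : |τ| * |s| ≤ 2 * |s| := mul_le_mul_of_nonneg_right hτ hs
      linarith
    calc |R1| ≤ b * (τ ^ 2 * N + |τ| * |s|) := h1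
      _ ≤ b * (4 * (N + |s|)) := mul_le_mul_of_nonneg_left h3 hb.le
      _ = (4 * b) * (N + |s|) := by ring
      _ ≤ B * (N + |s|) := mul_le_mul_of_nonneg_right hB (by positivity)
  · have h3 : τ ^ 2 * N ^ 2 + |τ| * N * |s| + s ^ 2 ≤ 4 * (N + |s|) ^ 2 := by
      have e1 : τ ^ 2 * N ^ 2 ≤ 4 * N ^ 2 := mul_le_mul_of_nonneg_right ht2 (sq_nonneg N)
      have e2 : |τ| * N * |s| ≤ 2 * N * |s| :=
        mul_le_mul_of_nonneg_right (mul_le_mul_of_nonneg_right hτ hN) hs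
      have e3 : s ^ 2 = |s| ^ 2 := (sq_abs s).symm
      have e4 : 0 ≤ N * |s| := mul_nonneg hN hs
      rw [e3]
      nlinarith [sq_nonneg |s|]
    calc |R2| ≤ b * (τ ^ 2 * N ^ 2 + |τ| * N * |s| + s ^ 2) := h2
      _ ≤ b * (4 * (N + |s|) ^ 2) := mul_le_mul_of_nonneg_left h3 hb.le
      _ = (4 * b) * (N + |s|) ^ 2 := by ring
      _ ≤ B * (N + |s|) ^ 2 := mul_le_mul_of_nonneg_right hB (by positivity)

end QR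

open QR in
theorem t_QR : Stmt_QR := by
  intro hUF hRB hWB hALG hQT hRES J w K be H r hr
  obtain ⟨m, rfl⟩ : ∃ m, J = m + 1 := ⟨J - 1, (Nat.sub_add_cancel H.J1).symm⟩
  obtain ⟨c0, hc0, hB⟩ := H.hB
  obtain ⟨c1, hc1, hC⟩ := H.hC
  obtain ⟨B1, hB1, hw⟩ := hWB w K H.sm H.cp 1
  obtain ⟨B2, hB2, hR⟩ := hRB m w K H.sm H.cp
  set B : ℝ := B1 + 4 * B2 with hBdef
  have hBpos : 0 < B := by positivity
  have hBB1 : B1 ≤ B := by linarith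
  have hBB2 : 4 * B2 ≤ B := by linarith
  have hden : 0 < B ^ 2 / r + 1 := by positivity
  set η : ℝ := c0 / (B ^ 2 / r + 1) with hηdef
  have hη : 0 < η := by positivity
  have hηc : η * (B ^ 2 / r) + η = c0 := by
    rw [hηdef]
    field_simp
  obtain ⟨κ, hκ, hAlg⟩ := hALG be η H.b0 hη
  obtain ⟨b, hb, hQ⟩ := hQT r B hr hBpos
  obtain ⟨ε0, hε0, hres⟩ := hRES κ (η / B) (c1 / B ^ 2) b hκ (by positivity) (by positivity) hb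
  obtain ⟨ε1, hε1, hε1le⟩ : ∃ ε1 : ℝ, 0 < ε1 ∧ ε1 ≤ ε0 ∧ ε1 ≤ 1 :=
    ⟨min ε0 1, lt_min hε0 one_pos, min_le_left _ _, min_le_right _ _⟩
  refine ⟨ε1, hε1, ?_⟩
  intro ε hε hεlt x hx z hz hrx hpos V
  have hεε0 : ε ≤ ε0 := by linarith [hε1le.1]
  have hεone : ε ≤ 1 := by linarith [hε1le.2]
  have hN : 0 ≤ ‖V.1‖ := norm_nonneg _
  have hW0 := hw 0 (by norm_num) x hx
  have hW1 := hw 1 le_rfl x hx
  have hW0pos : 0 < w 0 x := lt_of_lt_of_le hr hrx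
  have hW0le : w 0 x ≤ B := le_trans (le_abs_self _) (le_trans hW0.1 hBB1)
  have hD0 : |d1 (w 0) x V.1| ≤ B * ‖V.1‖ :=
    le_trans (hW0.2.1 V.1) (mul_le_mul_of_nonneg_right hBB1 hN)
  have hH0 : |d2 (w 0) x V.1| ≤ B * ‖V.1‖ ^ 2 :=
    le_trans (hW0.2.2 V.1) (mul_le_mul_of_nonneg_right hBB1 (by positivity))
  have hW1' : |w 1 x| ≤ B := le_trans hW1.1 hBB1
  have hD1 : |d1 (w 1) x V.1| ≤ B * (‖V.1‖ + |(0 : ℝ)|) := by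
    rw [abs_zero, add_zero]
    exact le_trans (hW1.2.1 V.1) (mul_le_mul_of_nonneg_right hBB1 hN)
  have hH1 : |d2 (w 1) x V.1| ≤ B * (‖V.1‖ + |(0 : ℝ)|) ^ 2 := by
    rw [abs_zero, add_zero]
    exact le_trans (hW1.2.2 V.1) (mul_le_mul_of_nonneg_right hBB1 (by positivity))
  have hRb := hR ε hε.le hεone x hx z hz V
  obtain ⟨hR0, hR1, hR2⟩ := rem_bounds hB2 hBB2 hz hN hRb.1 hRb.2.1 hRb.2.2
  have hQ' := hQ (w 0 x) (d1 (w 0) x V.1) (d2 (w 0) x V.1) ‖V.1‖ hrx hW0le hN hD0 hH0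
  obtain ⟨V0, V1, V2, eV0, eV1, eV2, bV0, bV1, -, eV⟩ :=
    hQ' 0 (w 1 x) (d1 (w 1) x V.1) (d2 (w 1) x V.1) hW1' hD1 hH1
  obtain ⟨S0, S1, S2, eS0, eS1, eS2, bS0, bS1, bS2, -⟩ :=
    hQ' V.2 (RR m w ε (x, z)) (d1 (RR m w ε) (x, z) V) (d2 (RR m w ε) (x, z) V) hR0 hR1 hR2
  rw [abs_zero, add_zero] at bV1
  have hns := norm_sq_le V.1
  have hCx := hC x hx V.1
  have hBx := hB x hx V.1
  have hN2 : 0 ≤ ‖V.1‖ ^ 2 := by positivity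
  -- the lower bound of `V2`
  have hV2 : c1 / B ^ 2 * ‖V.1‖ ^ 2 ≤ V2 := by
    have e1 : c1 * w 0 x * ‖V.1‖ ^ 2 ≤ w 0 x ^ 3 * V2 := by
      have e2 : c1 * w 0 x * ‖V.1‖ ^ 2 ≤ c1 * w 0 x * (V.1.1 ^ 2 + V.1.2 ^ 2) :=
        mul_le_mul_of_nonneg_left hns (by positivity)
      rw [eV]
      linarith
    have e3 : w 0 x * (c1 * ‖V.1‖ ^ 2) ≤ w 0 x * (w 0 x ^ 2 * V2) := by
      calc w 0 x * (c1 * ‖V.1‖ ^ 2) = c1 * w 0 x * ‖V.1‖ ^ 2 := by ring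
        _ ≤ w 0 x ^ 3 * V2 := e1
        _ = w 0 x * (w 0 x ^ 2 * V2) := by ring
    have e4 : c1 * ‖V.1‖ ^ 2 ≤ w 0 x ^ 2 * V2 := le_of_mul_le_mul_left e3 hW0pos
    have e5 : 0 ≤ w 0 x ^ 2 * V2 := le_trans (by positivity) e4
    have e6 : 0 ≤ V2 := by
      by_contra hneg
      push Not at hneg
      have : w 0 x ^ 2 * V2 < 0 := mul_neg_of_pos_of_neg (by positivity) hneg
      linarith
    have e7 : w 0 x ^ 2 * V2 ≤ B ^ 2 * V2 :=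
      mul_le_mul_of_nonneg_right (pow_le_pow_left₀ hW0pos.le hW0le 2) e6
    have e8 : c1 * ‖V.1‖ ^ 2 ≤ B ^ 2 * V2 := le_trans e4 e7
    have e9 : c1 / B ^ 2 * ‖V.1‖ ^ 2 = c1 * ‖V.1‖ ^ 2 / B ^ 2 := by ring
    rw [e9, div_le_iff₀ (by positivity)]
    linarith
  -- the hypothesis of `ALG`
  have hHyp : η * w 0 x * ‖V.1‖ ^ 2 ≤
      (1 - be - η) * d1 (w 0) x V.1 ^ 2 - w 0 x * d2 (w 0) x V.1 := by
    have e1 : d1 (w 0) x V.1 ^ 2 ≤ B ^ 2 * ‖V.1‖ ^ 2 := by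
      rw [← sq_abs, ← mul_pow]
      exact pow_le_pow_left₀ (abs_nonneg _) hD0 2
    have e2 : B ^ 2 * ‖V.1‖ ^ 2 ≤ B ^ 2 / r * (w 0 x * ‖V.1‖ ^ 2) := by
      have e3 : B ^ 2 * ‖V.1‖ ^ 2 = B ^ 2 / r * (r * ‖V.1‖ ^ 2) := by
        field_simp
      rw [e3]
      exact mul_le_mul_of_nonneg_left (mul_le_mul_of_nonneg_right hrx hN2) (by positivity)
    have e4 : η * d1 (w 0) x V.1 ^ 2 ≤ η * (B ^ 2 / r * (w 0 x * ‖V.1‖ ^ 2)) :=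
      mul_le_mul_of_nonneg_left (le_trans e1 e2) hη.le
    have e5 : c0 * w 0 x * ‖V.1‖ ^ 2 ≤ c0 * w 0 x * (V.1.1 ^ 2 + V.1.2 ^ 2) :=
      mul_le_mul_of_nonneg_left hns (by positivity)
    have e6 : c0 * w 0 x * ‖V.1‖ ^ 2 =
        η * (B ^ 2 / r * (w 0 x * ‖V.1‖ ^ 2)) + η * w 0 x * ‖V.1‖ ^ 2 := by
      rw [← hηc]
      ring
    have e7 : (1 - be - η) * d1 (w 0) x V.1 ^ 2 =
        (1 - be) * d1 (w 0) x V.1 ^ 2 - η * d1 (w 0) x V.1 ^ 2 := by ring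
    rw [e7]
    linarith
  -- the value and the derivatives
  obtain ⟨f0, f1, f2⟩ := hUF m w H.sm ε (x, z) V
  simp only at f0 f1 f2
  rw [eV0, eS0, u0_mul] at f0
  rw [eV0, eV1, eS1, u1_mul] at f1
  rw [eV0, eV1, eV2, eS2, u2_mul] at f2
  rw [f0] at hpos
  have hC0 : 0 < u0 ε z 1 V0 S0 := by
    by_contra hneg
    push Not at hneg
    have : w 0 x * u0 ε z 1 V0 S0 ≤ 0 := mul_nonpos_of_nonneg_of_nonpos hW0pos.le hneg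
    linarith
  have hres' := hres ε z ‖V.1‖ V.2 V0 V1 V2 S0 S1 S2 hε hεε0 hz hN bV0 bV1 hV2 bS0 bS1 bS2 hC0
  have hAlg' := hAlg (w 0 x) (d1 (w 0) x V.1) (d2 (w 0) x V.1) (u0 ε z 1 V0 S0)
    (u1 ε z V.2 1 0 V0 V1 S1) (u2 ε z V.2 1 0 0 V0 V1 V2 S2) ‖V.1‖ hHyp
  rw [f0, f1, f2]
  generalize u0 ε z 1 V0 S0 = C0 at *
  generalize u1 ε z V.2 1 0 V0 V1 S1 = C1 at *
  generalize u2 ε z V.2 1 0 0 V0 V1 V2 S2 = C2 at *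
  have g1 : 0 ≤ w 0 x ^ 2 * (κ * C1 ^ 2 - C0 * C2 + η / B * C0 ^ 2 * ‖V.1‖ ^ 2) :=
    mul_nonneg (by positivity) hres'
  have g2 : w 0 x ^ 2 * (η / B * C0 ^ 2 * ‖V.1‖ ^ 2) ≤ η * w 0 x * C0 ^ 2 * ‖V.1‖ ^ 2 := by
    have g3 : w 0 x ^ 2 * (η / B * C0 ^ 2 * ‖V.1‖ ^ 2) =
        (w 0 x / B) * (η * w 0 x * C0 ^ 2 * ‖V.1‖ ^ 2) := by ring
    have g4 : w 0 x / B ≤ 1 := by
      rw [div_le_one hBpos]
      exact hW0le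
    rw [g3]
    calc (w 0 x / B) * (η * w 0 x * C0 ^ 2 * ‖V.1‖ ^ 2)
        ≤ 1 * (η * w 0 x * C0 ^ 2 * ‖V.1‖ ^ 2) :=
          mul_le_mul_of_nonneg_right g4 (by positivity)
      _ = _ := one_mul _
  have g5 : w 0 x ^ 2 * (κ * C1 ^ 2 - C0 * C2 + η / B * C0 ^ 2 * ‖V.1‖ ^ 2) =
      w 0 x ^ 2 * (κ * C1 ^ 2 - C0 * C2) + w 0 x ^ 2 * (η / B * C0 ^ 2 * ‖V.1‖ ^ 2) := by ring
  have g6 : w 0 x * C0 * (d2 (w 0) x V.1 * C0 + 2 * d1 (w 0) x V.1 * C1 + w 0 x * C2) ≤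
      1 / (1 + be) * (d1 (w 0) x V.1 * C0 + w 0 x * C1) ^ 2 := by linarith
  exact g6

end LQL
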