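import Pool.Agent.LQL.Stmts

/-!
# QT: bounds of a quotient
-/

set_option autoImplicit false

namespace LQL

open Set Filter Topology Lq

namespace QT

/-- dividing a bound by `W0 ≥ r` -/
theorem div_bound {r W X M : ℝ} (hr : 0 < r) (hW : r ≤ W) (hX : |X| ≤ M) :
    |X / W| ≤ M / r := by
  have hW0 : 0 < W := lt_of_lt_of_le hr hW
  have hM : 0 ≤ M := le_trans (abs_nonneg _) hX
  rw [abs_div, abs_of_pos hW0]
  calc |X| / W ≤ M / W := div_le_div_of_nonneg_right hX hW0.le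
    _ ≤ M / r := div_le_div_of_nonneg_left hM hr hW

end QT

theorem t_QT : Stmt_QT := by
  intro r B hr hB
  have hb0 : 0 < B / r := div_pos hB hr
  have hb1 : 0 < (B + B * (B / r)) / r := div_pos (by positivity) hr
  have hb2 : 0 < (B + B * (B / r) + 2 * B * ((B + B * (B / r)) / r)) / r :=
    div_pos (by positivity) hr
  set b0 := B / r with hb0d
  set b1 := (B + B * b0) / r with hb1d
  set b2 := (B + B * b0 + 2 * B * b1) / r with hb2d
  refine ⟨b0 + b1 + b2, by positivity, ?_⟩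
  intro W0 D0 H0 N hW hWB hN hD hH s F0 F1 F2 hF0 hF1 hF2
  have hW0 : 0 < W0 := lt_of_lt_of_le hr hW
  have hW0' : W0 ≠ 0 := hW0.ne'
  set T := N + |s| with hT
  have hs : 0 ≤ |s| := abs_nonneg s
  have hT0 : 0 ≤ T := by rw [hT]; linarith
  have hNT : N ≤ T := by rw [hT]; linarith
  have hNT2 : N ^ 2 ≤ T ^ 2 := pow_le_pow_left₀ hN hNT 2
  -- the first quotient
  have g0 : |F0 / W0| ≤ b0 := QT.div_bound hr hW hF0
  set G0 := F0 / W0 with hG0
  have e0 : F0 = W0 * G0 := by rw [hG0]; field_simp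
  -- the second quotient
  have hDG0 : |D0 * G0| ≤ B * b0 * T := by
    rw [abs_mul]
    calc |D0| * |G0| ≤ (B * N) * b0 := mul_le_mul hD g0 (abs_nonneg _) (by positivity)
      _ = B * b0 * N := by ring
      _ ≤ B * b0 * T := mul_le_mul_of_nonneg_left hNT (by positivity)
  have h1 : |F1 - D0 * G0| ≤ (B + B * b0) * T := by
    calc |F1 - D0 * G0| ≤ |F1| + |D0 * G0| := abs_sub _ _
      _ ≤ B * T + B * b0 * T := add_le_add hF1 hDG0
      _ = (B + B * b0) * T := by ring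
  have g1 : |(F1 - D0 * G0) / W0| ≤ b1 * T := by
    have := QT.div_bound hr hW h1
    calc |(F1 - D0 * G0) / W0| ≤ (B + B * b0) * T / r := this
      _ = b1 * T := by rw [hb1d]; ring
  set G1 := (F1 - D0 * G0) / W0 with hG1
  have e1 : F1 = D0 * G0 + W0 * G1 := by rw [hG1]; field_simp; ring
  -- the third quotient
  have hHG0 : |H0 * G0| ≤ B * b0 * T ^ 2 := by
    rw [abs_mul]
    calc |H0| * |G0| ≤ (B * N ^ 2) * b0 := mul_le_mul hH g0 (abs_nonneg _) (by positivity)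
      _ = B * b0 * N ^ 2 := by ring
      _ ≤ B * b0 * T ^ 2 := mul_le_mul_of_nonneg_left hNT2 (by positivity)
  have hDG1 : |2 * D0 * G1| ≤ 2 * B * b1 * T ^ 2 := by
    rw [abs_mul, abs_mul, abs_two]
    calc 2 * |D0| * |G1| ≤ 2 * (B * N) * (b1 * T) :=
          mul_le_mul (mul_le_mul_of_nonneg_left hD (by norm_num)) g1 (abs_nonneg _)
            (by positivity)
      _ = 2 * B * b1 * T * N := by ring
      _ ≤ 2 * B * b1 * T * T := mul_le_mul_of_nonneg_left hNT (by positivity)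
      _ = 2 * B * b1 * T ^ 2 := by ring
  have h2 : |F2 - H0 * G0 - 2 * D0 * G1| ≤ (B + B * b0 + 2 * B * b1) * T ^ 2 := by
    calc |F2 - H0 * G0 - 2 * D0 * G1| ≤ |F2 - H0 * G0| + |2 * D0 * G1| := abs_sub _ _
      _ ≤ (|F2| + |H0 * G0|) + |2 * D0 * G1| := by
          have := abs_sub F2 (H0 * G0)
          linarith
      _ ≤ (B * T ^ 2 + B * b0 * T ^ 2) + 2 * B * b1 * T ^ 2 :=
          add_le_add (add_le_add hF2 hHG0) hDG1
      _ = (B + B * b0 + 2 * B * b1) * T ^ 2 := by ring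
  have g2 : |(F2 - H0 * G0 - 2 * D0 * G1) / W0| ≤ b2 * T ^ 2 := by
    have := QT.div_bound hr hW h2
    calc |(F2 - H0 * G0 - 2 * D0 * G1) / W0| ≤ (B + B * b0 + 2 * B * b1) * T ^ 2 / r := this
      _ = b2 * T ^ 2 := by rw [hb2d]; ring
  set G2 := (F2 - H0 * G0 - 2 * D0 * G1) / W0 with hG2
  have e2 : F2 = H0 * G0 + 2 * D0 * G1 + W0 * G2 := by rw [hG2]; field_simp; ring
  refine ⟨G0, G1, G2, e0, e1, e2, ?_, ?_, ?_, ?_⟩
  · linarith
  · calc |G1| ≤ b1 * T := g1
      _ ≤ (b0 + b1 + b2) * T := mul_le_mul_of_nonneg_right (by linarith) hT0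
  · calc |G2| ≤ b2 * T ^ 2 := g2
      _ ≤ (b0 + b1 + b2) * T ^ 2 := mul_le_mul_of_nonneg_right (by linarith) (by positivity)
  · rw [e2, e1, e0]
    ring

end LQL
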