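import Pool.Agent.LQL.Stmts

/-!
# The thin step: QW, the local inequality near the wall
-/

set_option autoImplicit false

namespace LQL

open Set Filter Topology Lq

theorem t_QW : Stmt_QW := by
  intro hUF hRB hWB hKW hWAL J w K be H
  obtain ⟨m, rfl⟩ : ∃ m, J = m + 1 := ⟨J - 1, by have := H.J1; omega⟩
  obtain ⟨r1, c, M, c1, hr1, hc, hM, hc1, hK⟩ := hKW (m + 1) w K be H
  obtain ⟨B1, hB1, hR⟩ := hRB m w K H.sm H.cp
  obtain ⟨B2, hB2, hW⟩ := hWB w K H.sm H.cp 1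
  have hb : 0 < max B1 B2 := lt_of_lt_of_le hB1 (le_max_left _ _)
  obtain ⟨r2, ε0, hr2, hε0, hA⟩ := hWAL M c (max B1 B2) c1 hM hc hb hc1
  refine ⟨min r1 r2, min ε0 1, lt_min hr1 hr2, lt_min hε0 one_pos, ?_⟩
  intro ε hε hεl x hx z hz hw0 hwr hu V
  have h1 := hUF m w H.sm ε (x, z) V
  obtain ⟨e0, e1, e2⟩ := h1
  have hbe := H.b0
  have hbe1 := H.b1
  have hne : (1 : ℝ) + be ≠ 0 := by linarith
  have hα : 1 - be / (1 + be) = 1 / (1 + be) := by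
    field_simp
    ring
  have hα0 : 0 ≤ be / (1 + be) := div_nonneg hbe.le (by linarith)
  have hα1 : be / (1 + be) ≤ 1 / 4 := by
    rw [div_le_div_iff₀ (by linarith) (by norm_num)]
    linarith
  obtain ⟨hw1, hd⟩ := hK x hx (lt_of_lt_of_le hwr (min_le_left _ _))
  obtain ⟨q0, q1, q2⟩ := hR ε hε.le (le_trans hεl.le (min_le_right _ _)) x hx z hz V
  have hW1 := hW 1 le_rfl x hx
  have hB1l : B1 ≤ max B1 B2 := le_max_left _ _
  have hB2l : B2 ≤ max B1 B2 := le_max_right _ _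
  have hN : 0 ≤ ‖V.1‖ := norm_nonneg _
  have key := hA ε (be / (1 + be)) z ‖V.1‖ V.2 (w 0 x) (d1 (w 0) x V.1) (d2 (w 0) x V.1) (w 1 x)
    (d1 (w 1) x V.1) (d2 (w 1) x V.1) (RR m w ε (x, z)) (d1 (RR m w ε) (x, z) V)
    (d2 (RR m w ε) (x, z) V) hε (le_trans hεl.le (min_le_left _ _)) hα0 hα1 hz hN hw0
    (lt_of_lt_of_le hwr (min_le_right _ _)) hw1
    (le_trans (le_abs_self _) (le_trans hW1.1 hB2l))
    (le_trans (hW1.2.1 V.1) (mul_le_mul_of_nonneg_right hB2l hN))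
    (le_trans (hW1.2.2 V.1) (mul_le_mul_of_nonneg_right hB2l (sq_nonneg _)))
    (hd V.1)
    (le_trans q0 (mul_le_mul_of_nonneg_right hB1l (sq_nonneg _)))
    (le_trans q1 (mul_le_mul_of_nonneg_right hB1l (by positivity)))
    (le_trans q2 (mul_le_mul_of_nonneg_right hB1l (by positivity)))
    (by
      have h3 := hu
      rw [e0] at h3
      exact h3)
  rw [e0, e1, e2, ← hα]
  have key2 : u0 ε z (w 0 x) (w 1 x) (RR m w ε (x, z)) *
      u2 ε z V.2 (w 0 x) (d1 (w 0) x V.1) (d2 (w 0) x V.1) (w 1 x) (d1 (w 1) x V.1)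
        (d2 (w 1) x V.1) (d2 (RR m w ε) (x, z) V) ≤
      (1 - be / (1 + be)) * u1 ε z V.2 (w 0 x) (d1 (w 0) x V.1) (w 1 x) (d1 (w 1) x V.1)
        (d1 (RR m w ε) (x, z) V) ^ 2 := by linarith
  exact key2

end LQL
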