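import Pool.Agent.LQL.Stmts

set_option autoImplicit false

namespace LQL

open Set Filter Topology Lq

namespace RB

theorem sum_bound (m : ℕ) {ε T : ℝ} (h0 : 0 ≤ ε) (h1 : ε ≤ 1) (t : ℕ → ℝ)
    (ht : ∀ j, j < m → |t j| ≤ T) : |∑ j ∈ Finset.range m, ε ^ j * t j| ≤ (m : ℝ) * T := by
  calc |∑ j ∈ Finset.range m, ε ^ j * t j|
      ≤ ∑ j ∈ Finset.range m, |ε ^ j * t j| := Finset.abs_sum_le_sum_abs _ _
    _ ≤ ∑ _j ∈ Finset.range m, T := by
        apply Finset.sum_le_sum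
        intro j hj
        rw [abs_mul, abs_of_nonneg (pow_nonneg h0 j)]
        have h2 : ε ^ j ≤ 1 := pow_le_one₀ h0 h1
        have h3 : |t j| ≤ T := ht j (Finset.mem_range.1 hj)
        calc ε ^ j * |t j| ≤ 1 * |t j| := mul_le_mul_of_nonneg_right h2 (abs_nonneg _)
          _ = |t j| := one_mul _
          _ ≤ T := h3
    _ = (m : ℝ) * T := by simp

theorem mul_bound {a b A B : ℝ} (ha : |a| ≤ A) (hb : |b| ≤ B) : |a * b| ≤ A * B := by
  rw [abs_mul]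
  exact mul_le_mul ha hb (abs_nonneg _) (le_trans (abs_nonneg _) ha)

end RB

theorem t_RB : Stmt_RB := by
  intro hCB hUJ hWB m w K hw hK
  obtain ⟨C, hC0, hC⟩ := hCB (m + 1)
  obtain ⟨D, hD0, hD⟩ := hWB w K hw hK (m + 2)
  have hm0 : (0 : ℝ) ≤ (m : ℝ) := Nat.cast_nonneg m
  have hCD : 0 < C * D := mul_pos hC0 hD0
  refine ⟨2 * (m : ℝ) * (C * D) + 1, by positivity, ?_⟩
  intro ε hε0 hε1 x hx τ hτ V
  have hcz : ∀ j, j < m → |cz (j + 2) τ| ≤ C * τ ^ 2 ∧ |deriv (cz (j + 2)) τ| ≤ C * |τ| ∧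
      |deriv (deriv (cz (j + 2))) τ| ≤ C := fun j hj => hC (j + 1) (by omega) τ hτ
  have hwj : ∀ j, j < m → |w (j + 2) x| ≤ D ∧ (∀ v, |d1 (w (j + 2)) x v| ≤ D * ‖v‖) ∧
      ∀ v, |d2 (w (j + 2)) x v| ≤ D * ‖v‖ ^ 2 := fun j hj => hD (j + 2) (by omega) x hx
  have ht0 := abs_nonneg τ
  have hs0 := abs_nonneg V.2
  have hn0 := norm_nonneg V.1
  have hts : 0 ≤ τ ^ 2 := sq_nonneg τ
  have hss : |V.2 ^ 2| = V.2 ^ 2 := abs_of_nonneg (sq_nonneg _)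
  obtain ⟨_, _, e1, e2⟩ := hUJ m w hw ε (x, τ) V
  refine ⟨?_, ?_, ?_⟩
  · have h1 : RR m w ε (x, τ) = ∑ j ∈ Finset.range m, ε ^ j * (cz (j + 2) τ * w (j + 2) x) := by
      unfold RR
      apply Finset.sum_congr rfl
      intro j _
      ring
    rw [h1]
    have h2 := RB.sum_bound m hε0 hε1 (fun j => cz (j + 2) τ * w (j + 2) x)
      (T := C * τ ^ 2 * D) (fun j hj => RB.mul_bound (hcz j hj).1 (hwj j hj).1)
    refine le_trans h2 ?_
    have h3 : 0 ≤ (m : ℝ) * (C * D) * τ ^ 2 := by positivity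
    nlinarith
  · rw [e1]
    have h2 := RB.sum_bound m hε0 hε1 (fun j => deriv (cz (j + 2)) τ * V.2 * w (j + 2) x +
      cz (j + 2) τ * d1 (w (j + 2)) x V.1)
      (T := C * |τ| * |V.2| * D + C * τ ^ 2 * (D * ‖V.1‖)) (fun j hj => by
        refine le_trans (abs_add_le _ _) ?_
        exact add_le_add (RB.mul_bound (RB.mul_bound (hcz j hj).2.1 le_rfl) (hwj j hj).1)
          (RB.mul_bound (hcz j hj).1 ((hwj j hj).2.1 _)))
    refine le_trans h2 ?_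
    have h3 : 0 ≤ (m : ℝ) * (C * D) * (τ ^ 2 * ‖V.1‖ + |τ| * |V.2|) := by positivity
    have h4 : 0 ≤ τ ^ 2 * ‖V.1‖ + |τ| * |V.2| := by positivity
    nlinarith
  · rw [e2]
    have h2 := RB.sum_bound m hε0 hε1 (fun j =>
      deriv (deriv (cz (j + 2))) τ * V.2 ^ 2 * w (j + 2) x +
          2 * (deriv (cz (j + 2)) τ * V.2 * d1 (w (j + 2)) x V.1) +
          cz (j + 2) τ * d2 (w (j + 2)) x V.1)
      (T := C * V.2 ^ 2 * D + 2 * (C * |τ| * |V.2| * (D * ‖V.1‖)) +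
        C * τ ^ 2 * (D * ‖V.1‖ ^ 2)) (fun j hj => by
        refine le_trans (abs_add_le _ _) ?_
        refine add_le_add (le_trans (abs_add_le _ _) ?_) 
          (RB.mul_bound (hcz j hj).1 ((hwj j hj).2.2 _))
        refine add_le_add (RB.mul_bound (RB.mul_bound (hcz j hj).2.2 hss.le) (hwj j hj).1) ?_
        refine RB.mul_bound (by norm_num) ?_
        exact RB.mul_bound (RB.mul_bound (hcz j hj).2.1 le_rfl) ((hwj j hj).2.1 _))
    refine le_trans h2 ?_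
    have h5 : 0 ≤ τ ^ 2 * ‖V.1‖ ^ 2 + |τ| * ‖V.1‖ * |V.2| + V.2 ^ 2 := by positivity
    have h6 : 0 ≤ (m : ℝ) * (C * D) * (V.2 ^ 2 + τ ^ 2 * ‖V.1‖ ^ 2) := by positivity
    nlinarith

end LQL
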