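import Pool.Agent.LQL.Stmts

/-!
# LQL_RES: the inequality away from the wall, choice of `ε0`
-/

namespace LQL

open Set Filter Topology Lq

theorem t_RES : Stmt_RES := by
  intro hA hB κ η c b hκ hη hc hb
  set B1 : ℝ := 36 * b ^ 2 / c + 6 * b with hB1
  have hB1pos : 0 < B1 := by positivity
  refine ⟨min (min (min 1 (1 / (12 * b))) (min (η / (16 * b)) (κ / (96 * B1))))
    (min (c / (64 * b)) (c / (32 * (128 * b ^ 2 * B1)))), by positivity, ?_⟩
  intro ε τ N s V0 V1 V2 S0 S1 S2 hε hεle hτ hN hV0 hV1 hV2 hS0 hS1 hS2 hu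
  have h1 : ε ≤ 1 := hεle.trans ((min_le_left _ _).trans ((min_le_left _ _).trans (min_le_left _ _)))
  have h2 : ε ≤ 1 / (12 * b) :=
    hεle.trans ((min_le_left _ _).trans ((min_le_left _ _).trans (min_le_right _ _)))
  have h3 : ε ≤ η / (16 * b) :=
    hεle.trans ((min_le_left _ _).trans ((min_le_right _ _).trans (min_le_left _ _)))
  have h4 : ε ≤ κ / (96 * B1) :=
    hεle.trans ((min_le_left _ _).trans ((min_le_right _ _).trans (min_le_right _ _)))
  have h5 : ε ≤ c / (64 * b) := hεle.trans ((min_le_right _ _).trans (min_le_left _ _))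
  have h6 : ε ≤ c / (32 * (128 * b ^ 2 * B1)) :=
    hεle.trans ((min_le_right _ _).trans (min_le_right _ _))
  rw [le_div_iff₀ (by positivity)] at h2 h3 h4 h5 h6
  have k2 : 12 * b * ε ≤ 1 := by linarith
  rcases le_total |τ| 1 with hτ1 | hτ1
  · exact hA κ η c b ε τ N s V0 V1 V2 S0 S1 S2 hκ.le hη hc hb hε h1 k2 (by linarith) hτ1 hN hV0 hV1
      hV2 hS0 hS1 hS2
  · have k3 : 2 * ε * b + 128 * ε ^ 2 * b ^ 2 * (36 * b ^ 2 / c + 6 * b) ≤ c / 16 := by
      rw [← hB1]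
      have e2 : ε ^ 2 ≤ ε := by nlinarith
      have e3 : 128 * ε ^ 2 * b ^ 2 * B1 ≤ 128 * ε * b ^ 2 * B1 := by gcongr
      linarith
    have k4 : 96 * (36 * b ^ 2 / c + 6 * b) * ε ≤ κ := by
      rw [← hB1]; linarith
    have h := hB κ c b ε τ N s V0 V1 V2 S0 S1 S2 hκ hc hb hε h1 k2 k4 k3 hτ1 hτ hN hV0 hV1
      hV2 hS0 hS1 hS2 hu
    have h' : 0 ≤ η * u0 ε τ 1 V0 S0 ^ 2 * N ^ 2 := by positivity
    linarith

end LQL
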