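import Pool.Agent.LQL.Stmts

set_option autoImplicit false

open Set Filter Topology Lq

namespace LQL

namespace RSA

theorem abs_mul_le {x y A B : ℝ} (hx : |x| ≤ A) (hy : |y| ≤ B) : |x * y| ≤ A * B := by
  rw [abs_mul]
  exact mul_le_mul hx hy (abs_nonneg _) ((abs_nonneg _).trans hx)

theorem u0_ge {b ε τ V0 S0 : ℝ} (hb : 0 < b) (hε : 0 < ε) (hε1 : ε ≤ 1)
    (h12 : 12 * b * ε ≤ 1) (hτ : |τ| ≤ 1) (hV0 : |V0| ≤ b) (hS0 : |S0| ≤ b) :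
    3 / 8 ≤ u0 ε τ 1 V0 S0 := by
  have ha := cos_ge_half hτ
  have hτ2 : |τ| ≤ 2 := by linarith
  have hp0 := mul_sin_nonneg hτ2
  have hp1 : τ * Real.sin τ ≤ 1 := by
    have h1 := mul_sin_le τ
    have h2 : τ ^ 2 ≤ 1 := by
      rw [← sq_abs]
      have := abs_nonneg τ
      nlinarith
    linarith
  have h1 : |τ * Real.sin τ / 2 * V0| ≤ 1 / 2 * b :=
    abs_mul_le (by rw [abs_of_nonneg (by linarith)]; linarith) hV0
  have h2 := (abs_le.mp h1).2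
  have h3 := (abs_le.mp hS0).1
  have h4 : ε * (τ * Real.sin τ / 2 * V0) ≤ ε * (1 / 2 * b) :=
    mul_le_mul_of_nonneg_left h2 hε.le
  have h5 : ε ^ 2 * (-b) ≤ ε ^ 2 * S0 := mul_le_mul_of_nonneg_left h3 (by positivity)
  have h6 : ε ^ 2 * b ≤ ε * b := by
    have : ε ^ 2 ≤ ε := by nlinarith
    exact mul_le_mul_of_nonneg_right this hb.le
  unfold u0
  nlinarith

theorem u2_le {c b ε τ N s V0 V1 V2 S2 : ℝ} (hc : 0 < c) (hb : 0 < b) (hε : 0 < ε) (hε1 : ε ≤ 1)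
    (h12 : 12 * b * ε ≤ 1) (hτ : |τ| ≤ 1) (hN : 0 ≤ N) (hV0 : |V0| ≤ b) (hV1 : |V1| ≤ b * N)
    (hV2 : c * N ^ 2 ≤ V2) (hS2 : |S2| ≤ b * (N + |s|) ^ 2) :
    u2 ε τ s 1 0 0 V0 V1 V2 S2 ≤ 3 * (ε * b * N ^ 2) := by
  have ha := cos_ge_half hτ
  have ha1 := Real.cos_le_one τ
  have hτ2 : |τ| ≤ 2 := by linarith
  have hp0 := mul_sin_nonneg hτ2
  have hp1 : τ * Real.sin τ ≤ 1 := by
    have h1 := mul_sin_le τ
    have h2 : τ ^ 2 ≤ 1 := by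
      rw [← sq_abs]
      have := abs_nonneg τ
      nlinarith
    linarith
  have hV2' : 0 ≤ V2 := le_trans (by positivity) hV2
  have hss : |s| ^ 2 = s ^ 2 := sq_abs s
  have h1 : 0 ≤ τ * Real.sin τ / 2 * V2 := mul_nonneg (by linarith) hV2'
  have h2 : |(Real.sin τ + τ * Real.cos τ) * s * V1| ≤ 2 * |s| * (b * N) := by
    refine abs_mul_le (abs_mul_le ?_ le_rfl) hV1
    have e1 : |Real.sin τ| ≤ 1 := Real.abs_sin_le_one τ
    have e2 : |τ * Real.cos τ| ≤ 1 * 1 := abs_mul_le hτ (Real.abs_cos_le_one τ)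
    have e3 := abs_add_le (Real.sin τ) (τ * Real.cos τ)
    linarith
  have h2' := (abs_le.mp h2).1
  have h2'' : 2 * |s| * (b * N) ≤ b * (s ^ 2 + N ^ 2) := by
    have : 0 ≤ b * (|s| - N) ^ 2 := by positivity
    nlinarith
  have h3 : |(2 * Real.cos τ - τ * Real.sin τ) / 2 * s ^ 2 * V0| ≤ 1 * s ^ 2 * b := by
    refine abs_mul_le (abs_mul_le ?_ ?_) hV0
    · rw [abs_le]
      constructor <;> linarith
    · rw [abs_of_nonneg (sq_nonneg s)]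
  have h3' := (abs_le.mp h3).1
  have h4 : ε ^ 2 * S2 ≤ ε * (2 * b * (N ^ 2 + s ^ 2)) := by
    have e1 : S2 ≤ 2 * b * (N ^ 2 + s ^ 2) := by
      have e2 := (abs_le.mp hS2).2
      have : 0 ≤ b * (|s| - N) ^ 2 := by positivity
      nlinarith
    have e3 : ε ^ 2 * S2 ≤ ε ^ 2 * (2 * b * (N ^ 2 + s ^ 2)) :=
      mul_le_mul_of_nonneg_left e1 (by positivity)
    have e4 : ε ^ 2 ≤ ε := by nlinarith
    have e5 : ε ^ 2 * (2 * b * (N ^ 2 + s ^ 2)) ≤ ε * (2 * b * (N ^ 2 + s ^ 2)) :=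
      mul_le_mul_of_nonneg_right e4 (by positivity)
    exact e3.trans e5
  have h5 : -(ε * (b * (s ^ 2 + N ^ 2) + b * s ^ 2)) ≤ ε * (τ * Real.sin τ / 2 * V2
      + (Real.sin τ + τ * Real.cos τ) * s * V1
      + (2 * Real.cos τ - τ * Real.sin τ) / 2 * s ^ 2 * V0) := by
    rw [← mul_neg]
    refine mul_le_mul_of_nonneg_left ?_ hε.le
    linarith
  have h6 : 1 / 2 * s ^ 2 ≤ Real.cos τ * s ^ 2 := mul_le_mul_of_nonneg_right ha (sq_nonneg s)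
  have h7 : 12 * b * ε * s ^ 2 ≤ 1 * s ^ 2 := mul_le_mul_of_nonneg_right h12 (sq_nonneg s)
  have h8 : 0 ≤ s ^ 2 := sq_nonneg s
  unfold u2
  nlinarith

end RSA

open RSA in
theorem t_RSA : Stmt_RSA := by
  intro κ η c b ε τ N s V0 V1 V2 S0 S1 S2 hκ hη hc hb hε hε1 h12 h16 hτ hN hV0 hV1 hV2 hS0 hS1 hS2
  have h0 := u0_ge hb hε hε1 h12 hτ hV0 hS0
  have h2 := u2_le hc hb hε hε1 h12 hτ hN hV0 hV1 hV2 hS2
  generalize u0 ε τ 1 V0 S0 = U0 at h0 ⊢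
  generalize u2 ε τ s 1 0 0 V0 V1 V2 S2 = U2 at h2 ⊢
  generalize u1 ε τ s 1 0 V0 V1 S1 = U1
  have h3 : 0 ≤ κ * U1 ^ 2 := by positivity
  have h4 : 6 * (b * ε) ≤ η * U0 := by
    have : η * (3 / 8) ≤ η * U0 := mul_le_mul_of_nonneg_left h0 hη.le
    linarith
  have h5 : 6 * (b * ε) * N ^ 2 ≤ η * U0 * N ^ 2 :=
    mul_le_mul_of_nonneg_right h4 (sq_nonneg N)
  have h6 : 0 ≤ b * ε * N ^ 2 := by positivity
  have h7 : 0 ≤ U0 * (η * U0 * N ^ 2 - U2) := mul_nonneg (by linarith) (by linarith)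
  linarith

end LQL
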