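import Pool.Agent.LQL.Stmts

/-!
# The thin step, module RSB
-/

set_option autoImplicit false

namespace LQL

open Set Filter Topology Lq

namespace RSB

/-- lower bound for the first derivative -/
theorem step1 {b ε β p q N s V0 V1 S1 C1 : ℝ} (hb : 0 < b) (he : 0 < ε) (he1 : ε ≤ 1)
    (h12 : 12 * b * ε ≤ 1) (hβ : 1 / 2 ≤ |β|) (hp : |p| ≤ 1) (hq : |q| ≤ 3) (hN : 0 ≤ N)
    (h0 : |V0| ≤ b) (h1 : |V1| ≤ b * N) (hS : |S1| ≤ b * (N + |s|))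
    (hC : C1 = -(β * s) - ε * (p * V1 + q / 2 * s * V0) + ε ^ 2 * S1) :
    s ^ 2 ≤ 32 * C1 ^ 2 + 128 * ε ^ 2 * b ^ 2 * N ^ 2 := by
  have hs := abs_nonneg s
  have e1 : |β * s| ≥ 1 / 2 * |s| := by
    rw [abs_mul]
    exact mul_le_mul_of_nonneg_right hβ hs
  have e2 : |p * V1| ≤ b * N := by
    rw [abs_mul]
    calc |p| * |V1| ≤ 1 * (b * N) := mul_le_mul hp h1 (abs_nonneg _) (by norm_num)
      _ = b * N := one_mul _
  have e3 : |q / 2 * s * V0| ≤ 3 / 2 * |s| * b := by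
    rw [abs_mul, abs_mul, abs_div, abs_of_pos (show (0 : ℝ) < 2 by norm_num)]
    refine mul_le_mul (mul_le_mul_of_nonneg_right (by linarith) hs) h0 (abs_nonneg _) (by positivity)
  have e4 : ε ^ 2 * |S1| ≤ ε * b * (N + |s|) := by
    have h2 : ε ^ 2 ≤ ε := by nlinarith
    calc ε ^ 2 * |S1| ≤ ε * (b * (N + |s|)) := mul_le_mul h2 hS (abs_nonneg _) he.le
      _ = ε * b * (N + |s|) := by ring
  have e5 : |β * s| ≤ |C1| + ε * (|p * V1| + |q / 2 * s * V0|) + ε ^ 2 * |S1| := by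
    have h3 : β * s = -C1 + (-(ε * (p * V1 + q / 2 * s * V0))) + ε ^ 2 * S1 := by
      rw [hC]
      ring
    rw [h3]
    refine (abs_add_le _ _).trans (add_le_add ((abs_add_le _ _).trans (add_le_add ?_ ?_)) ?_)
    · rw [abs_neg]
    · rw [abs_neg, abs_mul, abs_of_pos he]
      exact mul_le_mul_of_nonneg_left (abs_add_le _ _) he.le
    · rw [abs_mul, abs_of_nonneg (sq_nonneg ε)]
  have e6 : ε * (|p * V1| + |q / 2 * s * V0|) ≤ ε * (b * N + 3 / 2 * |s| * b) :=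
    mul_le_mul_of_nonneg_left (add_le_add e2 e3) he.le
  have e7 : ε * b * |s| ≤ 1 / 12 * |s| := mul_le_mul_of_nonneg_right (by linarith) hs
  have e8 : |s| ≤ 4 * |C1| + 8 * (ε * b * N) := by nlinarith
  have hA := abs_nonneg C1
  have hB : 0 ≤ ε * b * N := by positivity
  have e9 : |s| ^ 2 ≤ (4 * |C1| + 8 * (ε * b * N)) ^ 2 := pow_le_pow_left₀ hs e8 2
  rw [sq_abs] at e9
  have e10 : |C1| ^ 2 = C1 ^ 2 := sq_abs C1
  nlinarith [sq_nonneg (4 * |C1| - 8 * (ε * b * N))]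

/-- lower bound for the negative second derivative -/
theorem step2 {c b ε a p q r N s V0 V1 V2 S0 S2 C0 C1 C2 : ℝ} (hc : 0 < c) (hb : 0 < b)
    (he : 0 < ε) (he1 : ε ≤ 1) (h16 : 2 * ε * b + 128 * ε ^ 2 * b ^ 2 * (36 * b ^ 2 / c + 6 * b) ≤
      c / 16) (hp : |p| ≤ 1) (hp8 : 1 / 8 ≤ p) (hq : |q| ≤ 3) (hr : |r| ≤ 2)
    (h0 : |V0| ≤ b) (h1 : |V1| ≤ b * N) (h2 : c * N ^ 2 ≤ V2) (hS0 : |S0| ≤ b)
    (hS2 : |S2| ≤ b * (N + |s|) ^ 2) (hC0p : 0 < C0)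
    (hC0 : C0 = a - ε * (p * V0) + ε ^ 2 * S0)
    (hs2 : s ^ 2 ≤ 32 * C1 ^ 2 + 128 * ε ^ 2 * b ^ 2 * N ^ 2)
    (hC2 : C2 = -(a * s ^ 2) - ε * (p * V2 + q * s * V1 + r * s ^ 2 * V0) + ε ^ 2 * S2) :
    -(32 * (36 * b ^ 2 / c + 6 * b) * ε * C1 ^ 2) ≤ -C2 := by
  have hs := abs_nonneg s
  have hss : |s| ^ 2 = s ^ 2 := sq_abs s
  set B1 := 36 * b ^ 2 / c + 6 * b with hB1
  have hB1p : 0 < B1 := by positivity
  have hee : ε ^ 2 ≤ ε := by nlinarith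
  -- `a ≥ -2 ε b`
  have f1 : |p * V0| ≤ b := by
    rw [abs_mul]
    calc |p| * |V0| ≤ 1 * b := mul_le_mul hp h0 (abs_nonneg _) (by norm_num)
      _ = b := one_mul _
  have ha : -(2 * ε * b) ≤ a := by
    have g1 : -b ≤ p * V0 := (abs_le.1 f1).1
    have g2 : S0 ≤ b := (abs_le.1 hS0).2
    have g3 : ε ^ 2 * S0 ≤ ε ^ 2 * b := mul_le_mul_of_nonneg_left g2 (sq_nonneg ε)
    have g4 : ε ^ 2 * b ≤ ε * b := mul_le_mul_of_nonneg_right hee hb.le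
    have g5 : ε * -b ≤ ε * (p * V0) := mul_le_mul_of_nonneg_left g1 he.le
    nlinarith
  have k1 : -(2 * ε * b) * s ^ 2 ≤ a * s ^ 2 := mul_le_mul_of_nonneg_right ha (sq_nonneg s)
  -- the terms with `ε`
  have k2 : c / 8 * N ^ 2 ≤ p * V2 := by
    have g1 : 1 / 8 * (c * N ^ 2) ≤ p * V2 :=
      mul_le_mul hp8 h2 (by positivity) (by linarith)
    linarith
  have k3 : -(3 * b * (N * |s|)) ≤ q * s * V1 := by
    have g1 : |q * s * V1| ≤ 3 * |s| * (b * N) := by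
      rw [abs_mul, abs_mul]
      exact mul_le_mul (mul_le_mul_of_nonneg_right hq hs) h1 (abs_nonneg _) (by positivity)
    have g2 := (abs_le.1 g1).1
    linarith
  have k4 : -(2 * b * s ^ 2) ≤ r * s ^ 2 * V0 := by
    have g1 : |r * s ^ 2 * V0| ≤ 2 * s ^ 2 * b := by
      rw [abs_mul, abs_mul, abs_of_nonneg (sq_nonneg s)]
      exact mul_le_mul (mul_le_mul_of_nonneg_right hr (sq_nonneg s)) h0 (abs_nonneg _)
        (by positivity)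
    have g2 := (abs_le.1 g1).1
    linarith
  have k5 : 3 * b * (N * |s|) ≤ c / 16 * N ^ 2 + 36 * b ^ 2 / c * s ^ 2 := by
    have g1 : c / 16 * N ^ 2 + 36 * b ^ 2 / c * s ^ 2 - 3 * b * (N * |s|) =
        (c * N - 24 * b * |s|) ^ 2 / (16 * c) := by
      rw [← hss]
      field_simp
      ring
    have g2 : 0 ≤ (c * N - 24 * b * |s|) ^ 2 / (16 * c) := by positivity
    linarith
  have k6 : ε ^ 2 * S2 ≤ ε * (2 * ε * b * N ^ 2 + 2 * b * s ^ 2) := by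
    have g1 : S2 ≤ b * (N + |s|) ^ 2 := (abs_le.1 hS2).2
    have g2 : (N + |s|) ^ 2 ≤ 2 * N ^ 2 + 2 * s ^ 2 := by
      nlinarith [sq_nonneg (N - |s|)]
    have g3 : S2 ≤ b * (2 * N ^ 2 + 2 * s ^ 2) :=
      g1.trans (mul_le_mul_of_nonneg_left g2 hb.le)
    have g4 : ε ^ 2 * S2 ≤ ε ^ 2 * (b * (2 * N ^ 2 + 2 * s ^ 2)) :=
      mul_le_mul_of_nonneg_left g3 (sq_nonneg ε)
    have g5 : ε ^ 2 * (b * (2 * s ^ 2)) ≤ ε * (b * (2 * s ^ 2)) :=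
      mul_le_mul_of_nonneg_right hee (by positivity)
    nlinarith
  have k7 : ε * ((c / 16 - 2 * ε * b) * N ^ 2 - B1 * s ^ 2) ≤ -C2 := by
    have g1 : -C2 = a * s ^ 2 + ε * (p * V2 + q * s * V1 + r * s ^ 2 * V0) - ε ^ 2 * S2 := by
      rw [hC2]
      ring
    have g2 : c / 8 * N ^ 2 - (c / 16 * N ^ 2 + 36 * b ^ 2 / c * s ^ 2) - 2 * b * s ^ 2 ≤
        p * V2 + q * s * V1 + r * s ^ 2 * V0 := by linarith
    have g3 := mul_le_mul_of_nonneg_left g2 he.le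
    have g4 : ε * ((c / 16 - 2 * ε * b) * N ^ 2 - B1 * s ^ 2) =
        -(2 * ε * b) * s ^ 2 + ε * (c / 8 * N ^ 2 - (c / 16 * N ^ 2 + 36 * b ^ 2 / c * s ^ 2) -
          2 * b * s ^ 2) - ε * (2 * ε * b * N ^ 2 + 2 * b * s ^ 2) := by
      rw [hB1]
      ring
    rw [g1, g4]
    linarith
  have k8 : B1 * s ^ 2 ≤ B1 * (32 * C1 ^ 2 + 128 * ε ^ 2 * b ^ 2 * N ^ 2) :=
    mul_le_mul_of_nonneg_left hs2 hB1p.le
  have k9 : 0 ≤ (c / 16 - 2 * ε * b - 128 * ε ^ 2 * b ^ 2 * B1) * N ^ 2 :=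
    mul_nonneg (by linarith) (sq_nonneg N)
  have k10 : -(32 * B1 * C1 ^ 2) ≤ (c / 16 - 2 * ε * b) * N ^ 2 - B1 * s ^ 2 := by
    nlinarith
  have k11 := mul_le_mul_of_nonneg_left k10 he.le
  calc -(32 * B1 * ε * C1 ^ 2) = ε * -(32 * B1 * C1 ^ 2) := by ring
    _ ≤ ε * ((c / 16 - 2 * ε * b) * N ^ 2 - B1 * s ^ 2) := k11
    _ ≤ -C2 := k7

end RSB

/-- RSB -/
theorem t_RSB : Stmt_RSB := by
  intro κ c b ε τ N s V0 V1 V2 S0 S1 S2 hκ hc hb he he1 h12 h96 h16 hτ1 hτ2 hN h0 h1 h2 hS0 hS1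
    hS2 hu
  have hsin : |Real.sin τ| ≤ 1 := Real.abs_sin_le_one τ
  have hcos : |Real.cos τ| ≤ 1 := Real.abs_cos_le_one τ
  have hts : |τ * Real.sin τ| ≤ 2 := by
    rw [abs_mul]
    calc |τ| * |Real.sin τ| ≤ 2 * 1 := mul_le_mul hτ2 hsin (abs_nonneg _) (by norm_num)
      _ = 2 := by norm_num
  have htc : |τ * Real.cos τ| ≤ 2 := by
    rw [abs_mul]
    calc |τ| * |Real.cos τ| ≤ 2 * 1 := mul_le_mul hτ2 hcos (abs_nonneg _) (by norm_num)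
      _ = 2 := by norm_num
  have hβ : 1 / 2 ≤ |Real.sin τ| := abs_sin_ge_half hτ1 hτ2
  have hp : |τ * Real.sin τ / 2| ≤ 1 := by
    rw [abs_div, abs_of_pos (show (0 : ℝ) < 2 by norm_num)]
    linarith
  have hp8 : 1 / 8 ≤ τ * Real.sin τ / 2 := by
    have g1 := mul_sin_ge hτ2
    have g2 : 1 ≤ τ ^ 2 := by
      rw [← sq_abs]
      nlinarith
    linarith
  have hq : |Real.sin τ + τ * Real.cos τ| ≤ 3 := by
    have := abs_add_le (Real.sin τ) (τ * Real.cos τ)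
    linarith
  have hr : |(2 * Real.cos τ - τ * Real.sin τ) / 2| ≤ 2 := by
    have g1 := abs_le.1 hcos
    have g2 := abs_le.1 hts
    rw [abs_le]
    constructor <;> linarith [g1.1, g1.2, g2.1, g2.2]
  set C0 := u0 ε τ 1 V0 S0 with hC0
  set C1 := u1 ε τ s 1 0 V0 V1 S1 with hC1
  set C2 := u2 ε τ s 1 0 0 V0 V1 V2 S2 with hC2
  have e0 : C0 = Real.cos τ - ε * (τ * Real.sin τ / 2 * V0) + ε ^ 2 * S0 := by
    rw [hC0]
    unfold u0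
    ring
  have e1 : C1 = -(Real.sin τ * s) - ε * (τ * Real.sin τ / 2 * V1 +
      (Real.sin τ + τ * Real.cos τ) / 2 * s * V0) + ε ^ 2 * S1 := by
    rw [hC1]
    unfold u1
    ring
  have e2 : C2 = -(Real.cos τ * s ^ 2) - ε * (τ * Real.sin τ / 2 * V2 +
      (Real.sin τ + τ * Real.cos τ) * s * V1 +
      (2 * Real.cos τ - τ * Real.sin τ) / 2 * s ^ 2 * V0) + ε ^ 2 * S2 := by
    rw [hC2]
    unfold u2
    ring
  have s1 := RSB.step1 hb he he1 h12 hβ hp hq hN h0 h1 hS1 e1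
  have s2 := RSB.step2 hc hb he he1 h16 hp hp8 hq hr h0 h1 h2 hS0 hS2 hu e0 s1 e2
  set B1 := 36 * b ^ 2 / c + 6 * b with hB1
  have hB1p : 0 < B1 := by positivity
  have hC3 : C0 ≤ 3 := by
    have f1 : |τ * Real.sin τ / 2 * V0| ≤ b := by
      rw [abs_mul]
      calc |τ * Real.sin τ / 2| * |V0| ≤ 1 * b := mul_le_mul hp h0 (abs_nonneg _) (by norm_num)
        _ = b := one_mul _
    have f2 := (abs_le.1 f1).1
    have f3 := (abs_le.1 hS0).2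
    have f4 : ε ^ 2 * S0 ≤ ε ^ 2 * b := mul_le_mul_of_nonneg_left f3 (sq_nonneg ε)
    have f5 : ε ^ 2 * b ≤ ε * b := mul_le_mul_of_nonneg_right (by nlinarith) hb.le
    have f6 : ε * -b ≤ ε * (τ * Real.sin τ / 2 * V0) := mul_le_mul_of_nonneg_left f2 he.le
    have f7 := (abs_le.1 hcos).2
    rw [e0]
    nlinarith
  have t1 : C0 * -(32 * B1 * ε * C1 ^ 2) ≤ C0 * -C2 := mul_le_mul_of_nonneg_left s2 hu.le
  have t2 : C0 * (32 * B1 * ε * C1 ^ 2) ≤ 3 * (32 * B1 * ε * C1 ^ 2) :=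
    mul_le_mul_of_nonneg_right hC3 (by positivity)
  have t3 : 96 * B1 * ε * C1 ^ 2 ≤ κ * C1 ^ 2 := mul_le_mul_of_nonneg_right h96 (sq_nonneg C1)
  nlinarith

end LQL
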