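import Pool.Agent.LQL.Stmts

/-!
# The thin step, module UF
-/

set_option autoImplicit false

namespace LQL

open Set Filter Topology Lq

namespace UF

theorem c0 (h : Co cz) : cz 0 = Real.cos := funext h.c0

theorem c0' (h : Co cz) (τ : ℝ) : deriv (cz 0) τ = -Real.sin τ := by
  rw [c0 h, Real.deriv_cos]

theorem c0'' (h : Co cz) (τ : ℝ) : deriv (deriv (cz 0)) τ = -Real.cos τ := by
  have e : deriv (cz 0) = fun τ => -Real.sin τ := funext (c0' h)
  rw [e]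
  exact (Real.hasDerivAt_sin τ).neg.deriv

theorem c1 (h : Co cz) : cz 1 = fun τ => -(τ * Real.sin τ / 2) := funext h.c1

theorem c1' (h : Co cz) (τ : ℝ) : deriv (cz 1) τ = -(Real.sin τ + τ * Real.cos τ) / 2 := by
  rw [c1 h]
  have h1 : HasDerivAt (fun τ : ℝ => -(τ * Real.sin τ / 2))
      (-((1 * Real.sin τ + τ * Real.cos τ) / 2)) τ :=
    (((hasDerivAt_id' τ).mul (Real.hasDerivAt_sin τ)).div_const 2).neg
  rw [h1.deriv]
  ring

theorem c1'' (h : Co cz) (τ : ℝ) :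
    deriv (deriv (cz 1)) τ = -(2 * Real.cos τ - τ * Real.sin τ) / 2 := by
  have e : deriv (cz 1) = fun τ => -(Real.sin τ + τ * Real.cos τ) / 2 := funext (c1' h)
  rw [e]
  have h1 : HasDerivAt (fun τ : ℝ => -(Real.sin τ + τ * Real.cos τ) / 2)
      (-(Real.cos τ + (1 * Real.cos τ + τ * -Real.sin τ)) / 2) τ :=
    (((Real.hasDerivAt_sin τ).add
      ((hasDerivAt_id' τ).mul (Real.hasDerivAt_cos τ))).neg).div_const 2
  rw [h1.deriv]
  ring

theorem split (m : ℕ) (f : ℕ → ℝ) :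
    ∑ j ∈ Finset.range (m + 1 + 1), f j = ∑ j ∈ Finset.range m, f (j + 2) + f 1 + f 0 := by
  rw [Finset.sum_range_succ', Finset.sum_range_succ']

end UF

/-- UF -/
theorem t_UF : Stmt_UF := by
  intro hC hU m w hw ε p V
  obtain ⟨u1h, u2h, -, -⟩ := hU (m + 1) w hw ε p V
  obtain ⟨-, -, r1h, r2h⟩ := hU m w hw ε p V
  refine ⟨?_, ?_, ?_⟩
  · have h1 : uu (m + 1) w ε p =
        ∑ j ∈ Finset.range (m + 1 + 1), ε ^ j * cz j p.2 * w j p.1 := rfl
    rw [h1, UF.split, UF.c0 hC, UF.c1 hC]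
    have h2 : ∑ j ∈ Finset.range m, ε ^ (j + 2) * cz (j + 2) p.2 * w (j + 2) p.1 =
        ε ^ 2 * RR m w ε p := by
      unfold RR
      rw [Finset.mul_sum]
      exact Finset.sum_congr rfl fun j _ => by ring
    rw [h2]
    unfold u0
    ring
  · rw [u1h, UF.split, UF.c0' hC, UF.c1' hC, UF.c0 hC, UF.c1 hC, r1h]
    have h2 : ∑ j ∈ Finset.range m, ε ^ (j + 2) * (deriv (cz (j + 2)) p.2 * V.2 * w (j + 2) p.1 +
          cz (j + 2) p.2 * d1 (w (j + 2)) p.1 V.1) =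
        ε ^ 2 * ∑ j ∈ Finset.range m, ε ^ j * (deriv (cz (j + 2)) p.2 * V.2 * w (j + 2) p.1 +
          cz (j + 2) p.2 * d1 (w (j + 2)) p.1 V.1) := by
      rw [Finset.mul_sum]
      exact Finset.sum_congr rfl fun j _ => by ring
    rw [h2]
    unfold u1
    ring
  · rw [u2h, UF.split, UF.c0'' hC, UF.c1'' hC, UF.c0' hC, UF.c1' hC, UF.c0 hC, UF.c1 hC, r2h]
    have h2 : ∑ j ∈ Finset.range m, ε ^ (j + 2) *
          (deriv (deriv (cz (j + 2))) p.2 * V.2 ^ 2 * w (j + 2) p.1 +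
          2 * (deriv (cz (j + 2)) p.2 * V.2 * d1 (w (j + 2)) p.1 V.1) +
          cz (j + 2) p.2 * d2 (w (j + 2)) p.1 V.1) =
        ε ^ 2 * ∑ j ∈ Finset.range m, ε ^ j *
          (deriv (deriv (cz (j + 2))) p.2 * V.2 ^ 2 * w (j + 2) p.1 +
          2 * (deriv (cz (j + 2)) p.2 * V.2 * d1 (w (j + 2)) p.1 V.1) +
          cz (j + 2) p.2 * d2 (w (j + 2)) p.1 V.1) := by
      rw [Finset.mul_sum]
      exact Finset.sum_congr rfl fun j _ => by ring
    rw [h2]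
    unfold u2
    ring

end LQL
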