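import Pool.Agent.LQL.Stmts

set_option autoImplicit false

namespace LQL

open Set Filter Topology Lq

namespace UJ

theorem prod_sm {a : ℝ → ℝ} {g : ℝ × ℝ → ℝ} (ha : ContDiff ℝ (⊤ : ℕ∞) a)
    (hg : ContDiff ℝ (⊤ : ℕ∞) g) :
    ContDiff ℝ (⊤ : ℕ∞) (fun q : (ℝ × ℝ) × ℝ => a q.2 * g q.1) :=
  (ha.comp contDiff_snd).mul (hg.comp contDiff_fst)

theorem gen (hJP : Stmt_JP) (hJS : Stmt_JS) (s : Finset ℕ) (e : ℕ → ℝ) (a : ℕ → ℝ → ℝ)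
    (g : ℕ → ℝ × ℝ → ℝ) (ha : ∀ j, ContDiff ℝ (⊤ : ℕ∞) (a j))
    (hg : ∀ j, ContDiff ℝ (⊤ : ℕ∞) (g j)) (U : (ℝ × ℝ) × ℝ → ℝ)
    (hU : U = fun q => ∑ j ∈ s, e j * (a j q.2 * g j q.1)) (p V : (ℝ × ℝ) × ℝ) :
    d1 U p V = ∑ j ∈ s, e j * (deriv (a j) p.2 * V.2 * g j p.1 + a j p.2 * d1 (g j) p.1 V.1) ∧
    d2 U p V = ∑ j ∈ s, e j * (deriv (deriv (a j)) p.2 * V.2 ^ 2 * g j p.1 +
      2 * (deriv (a j) p.2 * V.2 * d1 (g j) p.1 V.1) + a j p.2 * d2 (g j) p.1 V.1) := by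
  have h := hJS s e (fun j q => a j q.2 * g j q.1) (fun j => prod_sm (ha j) (hg j)) p V
  rw [hU]
  constructor
  · rw [h.1]
    refine Finset.sum_congr rfl fun j _ => ?_
    rw [(hJP (a j) (g j) (ha j) (hg j) p V).1]
  · rw [h.2]
    refine Finset.sum_congr rfl fun j _ => ?_
    rw [(hJP (a j) (g j) (ha j) (hg j) p V).2]

end UJ

theorem t_UJ : Stmt_UJ := by
  intro hCZ hJP hJS m w hw ε p V
  have h1 := UJ.gen hJP hJS (Finset.range (m + 1)) (fun j => ε ^ j) cz w hCZ.sm hw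
    (uu m w ε) (by funext q; unfold uu; refine Finset.sum_congr rfl fun j _ => ?_; ring) p V
  have h2 := UJ.gen hJP hJS (Finset.range m) (fun j => ε ^ j) (fun j => cz (j + 2))
    (fun j => w (j + 2)) (fun j => hCZ.sm (j + 2)) (fun j => hw (j + 2))
    (RR m w ε) (by funext q; unfold RR; refine Finset.sum_congr rfl fun j _ => ?_; ring) p V
  exact ⟨h1.1, h1.2, h2.1, h2.2⟩

end LQL
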