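import Pool.Agent.LQL.Stmts

set_option autoImplicit false

namespace LQL

open Set Filter Topology Lq

namespace WAL

/-- choice of the small constant -/
theorem choice (M c b c1 : ℝ) (hM : 0 < M) (hc : 0 < c) (hb : 0 < b) (hc1 : 0 < c1) :
    ∃ ρ : ℝ, 0 < ρ ∧ b * ρ ≤ c / 4 ∧ 4 * M * b ^ 2 * ρ ^ 2 ≤ c / 4 ∧
      9 * b ^ 2 * ρ ≤ c * c1 / 4 ∧ 16 * M * b ^ 2 * ρ ≤ c1 / 4 := by
  set ρ : ℝ := min 1 (min (c / (4 * b)) (min (c / (16 * M * b ^ 2))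
    (min (c * c1 / (36 * b ^ 2)) (c1 / (64 * M * b ^ 2))))) with hρ
  have h1 : ρ ≤ 1 := min_le_left _ _
  have h2 : ρ ≤ c / (4 * b) := (min_le_right _ _).trans (min_le_left _ _)
  have h3 : ρ ≤ c / (16 * M * b ^ 2) :=
    (min_le_right _ _).trans ((min_le_right _ _).trans (min_le_left _ _))
  have h4 : ρ ≤ c * c1 / (36 * b ^ 2) :=
    (min_le_right _ _).trans ((min_le_right _ _).trans ((min_le_right _ _).trans (min_le_left _ _)))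
  have h5 : ρ ≤ c1 / (64 * M * b ^ 2) :=
    (min_le_right _ _).trans ((min_le_right _ _).trans ((min_le_right _ _).trans
      (min_le_right _ _)))
  have h0 : 0 < ρ := by
    rw [hρ]
    refine lt_min one_pos (lt_min ?_ (lt_min ?_ (lt_min ?_ ?_))) <;> positivity
  refine ⟨ρ, h0, ?_, ?_, ?_, ?_⟩
  · rw [le_div_iff₀ (by positivity)] at h2
    linarith
  · rw [le_div_iff₀ (by positivity)] at h3
    have h6 : ρ ^ 2 ≤ ρ := by nlinarith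
    have h7 : 4 * M * b ^ 2 * ρ ^ 2 ≤ 4 * M * b ^ 2 * ρ :=
      mul_le_mul_of_nonneg_left h6 (by positivity)
    linarith
  · rw [le_div_iff₀ (by positivity)] at h4
    linarith
  · rw [le_div_iff₀ (by positivity)] at h5
    linarith

theorem core {M c N D0 H0 G0 Z1 Z2 ε : ℝ} (hG0 : 0 < G0) (hG0M : 4 * M * G0 ≤ 1)
    (hM : 0 < M)
    (hH : c * N ^ 2 - M * D0 ^ 2 ≤ -H0)
    (hB : 0 ≤ c * N ^ 2 + ε * Z2 - 2 * M * ε ^ 2 * Z1 ^ 2) :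
    0 ≤ 1 / 2 * (D0 - ε * Z1) ^ 2 - G0 * (H0 - ε * Z2) := by
  have h1 : D0 ^ 2 ≤ 2 * (D0 - ε * Z1) ^ 2 + 2 * ε ^ 2 * Z1 ^ 2 := by
    nlinarith [sq_nonneg (D0 - 2 * (ε * Z1))]
  have h2 : c * N ^ 2 + ε * Z2 - 2 * M * ε ^ 2 * Z1 ^ 2 - 2 * M * (D0 - ε * Z1) ^ 2 ≤
      -(H0 - ε * Z2) := by
    nlinarith
  have h3 := mul_le_mul_of_nonneg_left h2 hG0.le
  have h4 := mul_nonneg hG0.le hB
  have h5 : 0 ≤ (1 / 2 - 2 * M * G0) * (D0 - ε * Z1) ^ 2 :=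
    mul_nonneg (by linarith) (sq_nonneg _)
  nlinarith

end WAL

theorem t_WAL : Stmt_WAL := by
  intro hA hB hC M c b c1 hM hc hb hc1
  obtain ⟨ρ, hρ0, hρ1, hρ2, hρ3, hρ4⟩ := WAL.choice M c b c1 hM hc hb hc1
  refine ⟨min (1 / (4 * M)) (c1 * ρ / 16), min (1 / 5) (c1 / (68 * b)), ?_, ?_, ?_⟩
  · exact lt_min (by positivity) (by positivity)
  · exact lt_min (by norm_num) (by positivity)
  intro ε α τ N s W0 D0 H0 W1 D1 H1 R0 R1 R2 hε hε0 hα0 hα1 hτ hN hW0 hW0r hW1 hW1b hD1 hH1 hH0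
    hR0 hR1 hR2 hu
  have he1 : ε ≤ 1 / 5 := hε0.trans (min_le_left _ _)
  have he2 : ε ≤ c1 / (68 * b) := hε0.trans (min_le_right _ _)
  rw [le_div_iff₀ (by positivity)] at he2
  have he3 : 68 * b * ε ≤ c1 := by linarith
  have he4 : 16 * b * ε ≤ c1 := by
    have : 0 < b * ε := by positivity
    linarith
  have hr1 : W0 < 1 / (4 * M) := hW0r.trans_le (min_le_left _ _)
  have hr2 : W0 < c1 * ρ / 16 := hW0r.trans_le (min_le_right _ _)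
  rw [lt_div_iff₀ (by positivity)] at hr1
  obtain ⟨hcos, hετ, hz0⟩ := hC b c1 ε τ W0 W1 R0 hb hc1 hε he4 hτ hW0 hW1 hR0 hu
  have hετ' : ε * τ ^ 2 ≤ ρ * Real.cos τ := by
    refine hετ.trans ?_
    apply mul_le_mul_of_nonneg_right _ hcos.le
    have : 16 / c1 * W0 ≤ 16 / c1 * (c1 * ρ / 16) :=
      mul_le_mul_of_nonneg_left hr2.le (by positivity)
    have e : 16 / c1 * (c1 * ρ / 16) = ρ := by field_simp
    linarith
  have hBB := hB M c b c1 ρ ε τ N s W1 D1 H1 R0 R1 R2 hM hc hb hc1 hρ0 hρ1 hρ2 hρ3 hρ4 hε he1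
    he3 hτ hcos hετ' hN hW1 hW1b hD1 hH1 hR0 hR1 hR2
  have hu0 : u0 ε τ W0 W1 R0 = Real.cos τ * (W0 - ε * z0 ε τ W1 R0) := by
    unfold u0 z0
    field_simp
    ring
  have hG0 : 0 < W0 - ε * z0 ε τ W1 R0 := by
    rw [hu0] at hu
    exact (mul_pos_iff_of_pos_left hcos).1 hu
  have hG0M : 4 * M * (W0 - ε * z0 ε τ W1 R0) ≤ 1 := by
    have : 0 ≤ ε * z0 ε τ W1 R0 := mul_nonneg hε.le hz0
    have h1 : W0 - ε * z0 ε τ W1 R0 ≤ W0 := by linarith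
    have h2 : 4 * M * (W0 - ε * z0 ε τ W1 R0) ≤ 4 * M * W0 :=
      mul_le_mul_of_nonneg_left h1 (by positivity)
    linarith
  have hcore := WAL.core hG0 hG0M hM hH0 hBB
  have hAA := hA ε α τ s W0 D0 H0 W1 D1 H1 R0 R1 R2 hα0 hα1 hcos
  have : 0 ≤ Real.cos τ ^ 2 * (1 / 2 * (D0 - ε * z1 ε τ s W1 D1 R0 R1) ^ 2 -
        (W0 - ε * z0 ε τ W1 R0) * (H0 - ε * z2 ε τ s W1 D1 H1 R0 R1 R2)) :=
    mul_nonneg (by positivity) hcore
  linarith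

end LQL
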