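import Pool.Agent.LQL.Stmts

/-!
# Bounds of the functions `w j` on a compact set
-/

set_option autoImplicit false

namespace LQL.WB

open Set Filter Topology Lq LQL

/-- one function -/
theorem one {f : ℝ × ℝ → ℝ} (hf : ContDiff ℝ (⊤ : ℕ∞) f) {K : Set (ℝ × ℝ)} (hK : IsCompact K) :
    ∃ B : ℝ, 0 < B ∧ ∀ x ∈ K, |f x| ≤ B ∧ (∀ v, |d1 f x v| ≤ B * ‖v‖) ∧
      ∀ v, |d2 f x v| ≤ B * ‖v‖ ^ 2 := by
  obtain ⟨B0, h0⟩ := hK.exists_bound_of_continuousOn (f := f) hf.continuous.continuousOn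
  have c1 : Continuous (fderiv ℝ f) := (sm_fderiv hf).continuous
  obtain ⟨B1, h1⟩ := hK.exists_bound_of_continuousOn (f := fderiv ℝ f) c1.continuousOn
  have c2 : Continuous (fderiv ℝ (fderiv ℝ f)) :=
    ((sm_fderiv hf).fderiv_right (m := (⊤ : ℕ∞)) (by norm_cast)).continuous
  obtain ⟨B2, h2⟩ := hK.exists_bound_of_continuousOn (f := fderiv ℝ (fderiv ℝ f)) c2.continuousOn
  refine ⟨|B0| + |B1| + |B2| + 1, by positivity, ?_⟩
  intro x hx
  have a0 := h0 x hx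
  have a1 := h1 x hx
  have a2 := h2 x hx
  have b0 := le_abs_self B0
  have b1 := le_abs_self B1
  have b2 := le_abs_self B2
  have p0 := abs_nonneg B0
  have p1 := abs_nonneg B1
  have p2 := abs_nonneg B2
  refine ⟨?_, ?_, ?_⟩
  · rw [Real.norm_eq_abs] at a0
    linarith
  · intro v
    have h3 : ‖fderiv ℝ f x v‖ ≤ ‖fderiv ℝ f x‖ * ‖v‖ := (fderiv ℝ f x).le_opNorm v
    have hn := norm_nonneg v
    calc |d1 f x v| = ‖fderiv ℝ f x v‖ := rfl
      _ ≤ ‖fderiv ℝ f x‖ * ‖v‖ := h3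
      _ ≤ (|B0| + |B1| + |B2| + 1) * ‖v‖ := mul_le_mul_of_nonneg_right (by linarith) hn
  · intro v
    have hn := norm_nonneg v
    have h3 : ‖fderiv ℝ (fderiv ℝ f) x v v‖ ≤ ‖fderiv ℝ (fderiv ℝ f) x‖ * ‖v‖ * ‖v‖ :=
      (fderiv ℝ (fderiv ℝ f) x).le_opNorm₂ v v
    rw [d2_eq hf]
    calc |fderiv ℝ (fderiv ℝ f) x v v| = ‖fderiv ℝ (fderiv ℝ f) x v v‖ := rfl
      _ ≤ ‖fderiv ℝ (fderiv ℝ f) x‖ * ‖v‖ * ‖v‖ := h3
      _ = ‖fderiv ℝ (fderiv ℝ f) x‖ * ‖v‖ ^ 2 := by ring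
      _ ≤ (|B0| + |B1| + |B2| + 1) * ‖v‖ ^ 2 :=
        mul_le_mul_of_nonneg_right (by linarith) (by positivity)

end LQL.WB

namespace LQL

open Set Filter Topology Lq

theorem t_WB : Stmt_WB := by
  intro w K hw hK J
  induction J with
  | zero =>
    obtain ⟨B, hB, h⟩ := WB.one (hw 0) hK
    refine ⟨B, hB, ?_⟩
    intro j hj x hx
    obtain rfl : j = 0 := by omega
    exact h x hx
  | succ J ih =>
    obtain ⟨B, hB, h⟩ := ih
    obtain ⟨B', hB', h'⟩ := WB.one (hw (J + 1)) hK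
    refine ⟨B + B', by positivity, ?_⟩
    intro j hj x hx
    rcases Nat.lt_or_ge j (J + 1) with hj' | hj'
    · obtain ⟨q0, q1, q2⟩ := h j (by omega) x hx
      refine ⟨by linarith, ?_, ?_⟩
      · intro v
        have := q1 v
        have hn := norm_nonneg v
        have h2 := mul_nonneg hB'.le hn
        calc |d1 (w j) x v| ≤ B * ‖v‖ := this
          _ ≤ (B + B') * ‖v‖ := by linarith [add_mul B B' ‖v‖]
      · intro v
        have := q2 v
        have h2 := mul_nonneg hB'.le (sq_nonneg ‖v‖)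
        calc |d2 (w j) x v| ≤ B * ‖v‖ ^ 2 := this
          _ ≤ (B + B') * ‖v‖ ^ 2 := by linarith [add_mul B B' (‖v‖ ^ 2)]
    · obtain rfl : j = J + 1 := by omega
      obtain ⟨q0, q1, q2⟩ := h' x hx
      refine ⟨by linarith, ?_, ?_⟩
      · intro v
        have := q1 v
        have hn := norm_nonneg v
        have h2 := mul_nonneg hB.le hn
        calc |d1 (w (J + 1)) x v| ≤ B' * ‖v‖ := this
          _ ≤ (B + B') * ‖v‖ := by linarith [add_mul B B' ‖v‖]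
      · intro v
        have := q2 v
        have h2 := mul_nonneg hB.le (sq_nonneg ‖v‖)
        calc |d2 (w (J + 1)) x v| ≤ B' * ‖v‖ ^ 2 := this
          _ ≤ (B + B') * ‖v‖ ^ 2 := by linarith [add_mul B B' (‖v‖ ^ 2)]

end LQL
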