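import Pool.Agent.LQL.Stmts

set_option autoImplicit false

namespace LQL

open Set Filter Topology Lq

namespace WLA

theorem alg (al a b s G0 G1 G2 : ℝ) (h0 : 0 ≤ al) (h1 : al ≤ 1 / 4) :
    a ^ 2 * (1 / 2 * G1 ^ 2 - G0 * G2) ≤
      (1 - al) * (a * G1 - s * b * G0) ^ 2 -
        (a * G0) * (a * G2 - 2 * s * b * G1 - s ^ 2 * a * G0) := by
  have e : (1 - al) * (a * G1 - s * b * G0) ^ 2 -
        (a * G0) * (a * G2 - 2 * s * b * G1 - s ^ 2 * a * G0) -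
        a ^ 2 * (1 / 2 * G1 ^ 2 - G0 * G2) =
      al * (a * G1 + s * b * G0) ^ 2 + (1 / 2 - 2 * al) * (a * G1) ^ 2 +
        (1 - 2 * al) * (s * b * G0) ^ 2 + (s * a * G0) ^ 2 := by ring
  have h2 : 0 ≤ al * (a * G1 + s * b * G0) ^ 2 := by positivity
  have h3 : 0 ≤ (1 / 2 - 2 * al) * (a * G1) ^ 2 :=
    mul_nonneg (by linarith) (sq_nonneg _)
  have h4 : 0 ≤ (1 - 2 * al) * (s * b * G0) ^ 2 := mul_nonneg (by linarith) (sq_nonneg _)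
  have h5 : 0 ≤ (s * a * G0) ^ 2 := sq_nonneg _
  linarith

end WLA

open WLA in
theorem t_WLA : Stmt_WLA := by
  intro ε α τ s W0 D0 H0 W1 D1 H1 R0 R1 R2 h0 h1 hc
  have hab : Real.sin τ ^ 2 = 1 - Real.cos τ ^ 2 := by
    have := Real.sin_sq_add_cos_sq τ
    linarith
  have key := alg α (Real.cos τ) (Real.sin τ) s (W0 - ε * z0 ε τ W1 R0)
    (D0 - ε * z1 ε τ s W1 D1 R0 R1) (H0 - ε * z2 ε τ s W1 D1 H1 R0 R1 R2) h0 h1
  have hz0 : Real.cos τ * z0 ε τ W1 R0 = τ * Real.sin τ / 2 * W1 - ε * R0 := by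
    unfold z0
    field_simp
  have hz1 : Real.cos τ * z1 ε τ s W1 D1 R0 R1 - s * Real.sin τ * z0 ε τ W1 R0 =
      τ * Real.sin τ / 2 * D1 + (Real.sin τ + τ * Real.cos τ) / 2 * s * W1 - ε * R1 := by
    unfold z0 z1
    field_simp
    ring_nf
    rw [hab]
    ring
  have hz2 : Real.cos τ * z2 ε τ s W1 D1 H1 R0 R1 R2 -
      2 * s * Real.sin τ * z1 ε τ s W1 D1 R0 R1 - s ^ 2 * Real.cos τ * z0 ε τ W1 R0 =
      τ * Real.sin τ / 2 * H1 + (Real.sin τ + τ * Real.cos τ) * s * D1 +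
      (2 * Real.cos τ - τ * Real.sin τ) / 2 * s ^ 2 * W1 - ε * R2 := by
    have hb3 : Real.sin τ ^ 3 = Real.sin τ * (1 - Real.cos τ ^ 2) := by
      rw [← hab]; ring
    unfold z0 z1 z2
    field_simp
    ring_nf
    rw [hab]
    ring
  have e0 : u0 ε τ W0 W1 R0 = Real.cos τ * (W0 - ε * z0 ε τ W1 R0) := by
    have : Real.cos τ * (W0 - ε * z0 ε τ W1 R0) =
      Real.cos τ * W0 - ε * (Real.cos τ * z0 ε τ W1 R0) := by ring
    rw [this, hz0]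
    unfold u0
    ring
  have e1 : u1 ε τ s W0 D0 W1 D1 R1 = Real.cos τ * (D0 - ε * z1 ε τ s W1 D1 R0 R1) -
      s * Real.sin τ * (W0 - ε * z0 ε τ W1 R0) := by
    have : Real.cos τ * (D0 - ε * z1 ε τ s W1 D1 R0 R1) -
      s * Real.sin τ * (W0 - ε * z0 ε τ W1 R0) = Real.cos τ * D0 - s * Real.sin τ * W0 -
        ε * (Real.cos τ * z1 ε τ s W1 D1 R0 R1 - s * Real.sin τ * z0 ε τ W1 R0) := by ring
    rw [this, hz1]
    unfold u1
    ring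
  have e2 : u2 ε τ s W0 D0 H0 W1 D1 H1 R2 =
      Real.cos τ * (H0 - ε * z2 ε τ s W1 D1 H1 R0 R1 R2) -
      2 * s * Real.sin τ * (D0 - ε * z1 ε τ s W1 D1 R0 R1) -
      s ^ 2 * Real.cos τ * (W0 - ε * z0 ε τ W1 R0) := by
    have : Real.cos τ * (H0 - ε * z2 ε τ s W1 D1 H1 R0 R1 R2) -
      2 * s * Real.sin τ * (D0 - ε * z1 ε τ s W1 D1 R0 R1) -
      s ^ 2 * Real.cos τ * (W0 - ε * z0 ε τ W1 R0) =
      Real.cos τ * H0 - 2 * s * Real.sin τ * D0 - s ^ 2 * Real.cos τ * W0 -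
      ε * (Real.cos τ * z2 ε τ s W1 D1 H1 R0 R1 R2 -
      2 * s * Real.sin τ * z1 ε τ s W1 D1 R0 R1 - s ^ 2 * Real.cos τ * z0 ε τ W1 R0) := by ring
    rw [this, hz2]
    unfold u2
    ring
  rw [e0, e1, e2]
  exact key

end LQL
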