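import Pool.Agent.LQL.Stmts

/-!
# WLB: the main inequality near the wall
-/

set_option autoImplicit false

namespace LQL

open Set Filter Topology Lq

namespace WLB

/-- The final combination. -/
theorem combine {M c b c1 ρ ε N X u w Y Z z2 z1 : ℝ} (hM : 0 < M) (hc : 0 < c) (hb : 0 < b)
    (hρ : 0 < ρ) (h1 : b * ρ ≤ c / 4)
    (h2 : 4 * M * b ^ 2 * ρ ^ 2 ≤ c / 4) (h3 : 9 * b ^ 2 * ρ ≤ c * c1 / 4)
    (h4 : 16 * M * b ^ 2 * ρ ≤ c1 / 4) (hε : 0 < ε) (hε5 : ε ≤ 1 / 5) (hε6 : 68 * b * ε ≤ c1)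
    (hX : 0 ≤ X) (hY : Y = u * N) (hY0 : 0 ≤ Y) (hZ0 : 0 ≤ Z)
    (hz2 : c1 * X - 2 * b * Y - b * Z / 2 - ε * (b * (Z + 5 * Y + 17 * X)) ≤ z2)
    (hz1 : z1 ^ 2 ≤ 8 * b ^ 2 * u ^ 2 + 2 * b ^ 2 * w ^ 2) (hZ : ε * Z ≤ ρ * N ^ 2)
    (hu : ε ^ 2 * u ^ 2 ≤ ρ * (ε * X)) (hw : ε ^ 2 * w ^ 2 ≤ ρ ^ 2 * N ^ 2) :
    0 ≤ c * N ^ 2 + ε * z2 - 2 * M * ε ^ 2 * z1 ^ 2 := by
  have hEX : 0 ≤ ε * X := mul_nonneg hε.le hX
  have hEY : 0 ≤ ε * Y := mul_nonneg hε.le hY0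
  have hEZ : 0 ≤ ε * Z := mul_nonneg hε.le hZ0
  have hN2 : 0 ≤ N ^ 2 := sq_nonneg N
  -- the lower bound of `ε z2`
  have e1 : ε * (c1 * X - 2 * b * Y - b * Z / 2 - ε * (b * (Z + 5 * Y + 17 * X))) ≤ ε * z2 :=
    mul_le_mul_of_nonneg_left hz2 hε.le
  have e2 : ε * b * (ε * Z) ≤ 1 / 5 * (b * (ε * Z)) := by
    have : 0 ≤ b * (ε * Z) := mul_nonneg hb.le hEZ
    nlinarith
  have e3 : ε * b * (ε * Y) ≤ 1 / 5 * (b * (ε * Y)) := by
    have : 0 ≤ b * (ε * Y) := mul_nonneg hb.le hEY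
    nlinarith
  have e4 : 17 * (ε * b) * (ε * X) ≤ c1 / 4 * (ε * X) :=
    mul_le_mul_of_nonneg_right (by linarith) hEX
  have e5 : b * (ε * Z) ≤ c / 4 * N ^ 2 := by
    calc b * (ε * Z) ≤ b * (ρ * N ^ 2) := mul_le_mul_of_nonneg_left hZ hb.le
      _ = b * ρ * N ^ 2 := by ring
      _ ≤ c / 4 * N ^ 2 := mul_le_mul_of_nonneg_right h1 hN2
  have e6 : 3 * b * (ε * Y) ≤ c / 4 * N ^ 2 + c1 / 4 * (ε * X) := by
    have f1 : c * (3 * b * (ε * Y)) ≤ c ^ 2 / 4 * N ^ 2 + 9 * b ^ 2 * (ε ^ 2 * u ^ 2) := by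
      rw [hY]
      have := sq_nonneg (c / 2 * N - 3 * b * (ε * u))
      nlinarith
    have f2 : 9 * b ^ 2 * (ε ^ 2 * u ^ 2) ≤ c * c1 / 4 * (ε * X) := by
      calc 9 * b ^ 2 * (ε ^ 2 * u ^ 2) ≤ 9 * b ^ 2 * (ρ * (ε * X)) :=
            mul_le_mul_of_nonneg_left hu (by positivity)
        _ = 9 * b ^ 2 * ρ * (ε * X) := by ring
        _ ≤ c * c1 / 4 * (ε * X) := mul_le_mul_of_nonneg_right h3 hEX
    have f3 : c * (3 * b * (ε * Y)) ≤ c * (c / 4 * N ^ 2 + c1 / 4 * (ε * X)) := by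
      calc c * (3 * b * (ε * Y)) ≤ c ^ 2 / 4 * N ^ 2 + c * c1 / 4 * (ε * X) := by linarith
        _ = c * (c / 4 * N ^ 2 + c1 / 4 * (ε * X)) := by ring
    exact le_of_mul_le_mul_left f3 hc
  have e7 : 2 * M * ε ^ 2 * z1 ^ 2 ≤ c1 / 4 * (ε * X) + c / 4 * N ^ 2 := by
    have hMe : 0 ≤ 2 * M * ε ^ 2 := by positivity
    calc 2 * M * ε ^ 2 * z1 ^ 2 ≤ 2 * M * ε ^ 2 * (8 * b ^ 2 * u ^ 2 + 2 * b ^ 2 * w ^ 2) :=
          mul_le_mul_of_nonneg_left hz1 hMe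
      _ = 16 * M * b ^ 2 * (ε ^ 2 * u ^ 2) + 4 * M * b ^ 2 * (ε ^ 2 * w ^ 2) := by ring
      _ ≤ 16 * M * b ^ 2 * (ρ * (ε * X)) + 4 * M * b ^ 2 * (ρ ^ 2 * N ^ 2) :=
          add_le_add (mul_le_mul_of_nonneg_left hu (by positivity))
            (mul_le_mul_of_nonneg_left hw (by positivity))
      _ = 16 * M * b ^ 2 * ρ * (ε * X) + 4 * M * b ^ 2 * ρ ^ 2 * N ^ 2 := by ring
      _ ≤ c1 / 4 * (ε * X) + c / 4 * N ^ 2 :=
          add_le_add (mul_le_mul_of_nonneg_right h4 hEX) (mul_le_mul_of_nonneg_right h2 hN2)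
  have e8 : ε * (c1 * X - 2 * b * Y - b * Z / 2 - ε * (b * (Z + 5 * Y + 17 * X))) =
      c1 * (ε * X) - 2 * b * (ε * Y) - 1 / 2 * (b * (ε * Z)) - ε * b * (ε * Z) -
        5 * (ε * b * (ε * Y)) - 17 * (ε * b) * (ε * X) := by ring
  rw [e8] at e1
  have e9 : 0 ≤ b * (ε * Z) := mul_nonneg hb.le hEZ
  have e10 : 0 ≤ c * N ^ 2 := by positivity
  have hc1 : 0 < c1 := lt_of_lt_of_le (by positivity) hε6
  have e11 : 0 ≤ c1 * (ε * X) := mul_nonneg hc1.le hEX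
  linarith

/-- The bound of `z2` from below. -/
theorem z2_lower {b c1 ε τ N s W1 D1 H1 R0 R1 R2 : ℝ} (hb : 0 < b) (hε : 0 < ε)
    (hτ : |τ| ≤ 2) (ha : 0 < Real.cos τ) (hN : 0 ≤ N) (hc1 : 0 < c1) (hW : c1 ≤ W1)
    (hD1 : |D1| ≤ b * N) (hH1 : |H1| ≤ b * N ^ 2) (hR0 : |R0| ≤ b * τ ^ 2)
    (hR1 : |R1| ≤ b * (τ ^ 2 * N + |τ| * |s|))
    (hR2 : |R2| ≤ b * (τ ^ 2 * N ^ 2 + |τ| * N * |s| + s ^ 2)) :
    c1 * (s ^ 2 / Real.cos τ ^ 3) - 2 * b * (|τ| * |s| / Real.cos τ ^ 2 * N) -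
      b * (τ ^ 2 * N ^ 2 / Real.cos τ) / 2 - ε * (b * (τ ^ 2 * N ^ 2 / Real.cos τ +
        5 * (|τ| * |s| / Real.cos τ ^ 2 * N) + 17 * (s ^ 2 / Real.cos τ ^ 3))) ≤
      z2 ε τ s W1 D1 H1 R0 R1 R2 := by
  have ha1 : Real.cos τ ≤ 1 := Real.cos_le_one τ
  have hsin1 : |Real.sin τ| ≤ 1 := Real.abs_sin_le_one τ
  have hsinτ : |Real.sin τ| ≤ |τ| := Real.abs_sin_le_abs
  have hone := one_le_cos_add hτ ha
  have hms0 := mul_sin_nonneg hτ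
  have hms := mul_sin_le τ
  have ht0 : 0 ≤ |τ| := abs_nonneg τ
  have hs0 : 0 ≤ |s| := abs_nonneg s
  have hτ2 : τ ^ 2 = |τ| ^ 2 := (sq_abs τ).symm
  have hs2 : s ^ 2 = |s| ^ 2 := (sq_abs s).symm
  unfold z2
  set a := Real.cos τ with hadef
  set q := Real.sin τ with hq
  have hq2 : q ^ 2 ≤ 1 := by
    have := Real.sin_sq_add_cos_sq τ
    have h2 := sq_nonneg (Real.cos τ)
    linarith
  have ha2 : 0 < a ^ 2 := by positivity
  have ha3 : 0 < a ^ 3 := by positivity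
  -- (i)
  have i1 : c1 * (s ^ 2 / a ^ 3) ≤ (a + τ * q) / a ^ 3 * s ^ 2 * W1 := by
    have g1 : (a + τ * q) / a ^ 3 * s ^ 2 * W1 = (s ^ 2 / a ^ 3) * ((a + τ * q) * W1) := by
      field_simp
    have g2 : c1 ≤ (a + τ * q) * W1 := by nlinarith
    rw [g1, mul_comm c1]
    exact mul_le_mul_of_nonneg_left g2 (by positivity)
  -- (ii)
  have i2 : -(2 * b * (|τ| * |s| / a ^ 2 * N)) ≤ (a * q + τ) / a ^ 2 * s * D1 := by
    have g1 : |a * q + τ| ≤ 2 * |τ| := by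
      calc |a * q + τ| ≤ |a * q| + |τ| := abs_add_le _ _
        _ = a * |q| + |τ| := by rw [abs_mul, abs_of_pos ha]
        _ ≤ 1 * |τ| + |τ| := by
            have : a * |q| ≤ 1 * |τ| := mul_le_mul ha1 hsinτ (abs_nonneg _) zero_le_one
            linarith
        _ = 2 * |τ| := by ring
    have g2 : |(a * q + τ) / a ^ 2 * s * D1| ≤ 2 * b * (|τ| * |s| / a ^ 2 * N) := by
      rw [abs_mul, abs_mul, abs_div, abs_of_pos ha2]
      calc |a * q + τ| / a ^ 2 * |s| * |D1| ≤ 2 * |τ| / a ^ 2 * |s| * (b * N) := by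
            gcongr
        _ = 2 * b * (|τ| * |s| / a ^ 2 * N) := by ring
    exact (abs_le.mp g2).1
  -- (iii)
  have i3 : -(b * (τ ^ 2 * N ^ 2 / a) / 2) ≤ τ * q / (2 * a) * H1 := by
    have g2 : |τ * q / (2 * a) * H1| ≤ b * (τ ^ 2 * N ^ 2 / a) / 2 := by
      rw [abs_mul, abs_div, abs_of_nonneg hms0, abs_of_pos (by positivity : (0 : ℝ) < 2 * a)]
      calc τ * q / (2 * a) * |H1| ≤ τ ^ 2 / (2 * a) * (b * N ^ 2) := by
            gcongr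
        _ = b * (τ ^ 2 * N ^ 2 / a) / 2 := by field_simp
    exact (abs_le.mp g2).1
  -- (iv)
  have i4 : R2 / a + 2 * R1 * s * q / a ^ 2 + R0 * s ^ 2 * (1 + q ^ 2) / a ^ 3 ≤
      b * (τ ^ 2 * N ^ 2 / a + 5 * (|τ| * |s| / a ^ 2 * N) + 17 * (s ^ 2 / a ^ 3)) := by
    have g1 : R2 / a ≤ b * (τ ^ 2 * N ^ 2) / a + b * (|τ| * N * |s|) / a ^ 2 +
        b * s ^ 2 / a ^ 3 := by
      have k0 : R2 ≤ b * (τ ^ 2 * N ^ 2 + |τ| * N * |s| + s ^ 2) := le_trans (le_abs_self _) hR2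
      have k1 : R2 / a ≤ b * (τ ^ 2 * N ^ 2 + |τ| * N * |s| + s ^ 2) / a :=
        div_le_div_of_nonneg_right k0 ha.le
      have k2 : b * (|τ| * N * |s|) / a ≤ b * (|τ| * N * |s|) / a ^ 2 := by
        apply div_le_div_of_nonneg_left (by positivity) ha2
        nlinarith
      have k3 : b * s ^ 2 / a ≤ b * s ^ 2 / a ^ 3 := by
        apply div_le_div_of_nonneg_left (by positivity) ha3
        have k4 : a ^ 3 = a * a ^ 2 := by ring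
        rw [k4]
        nlinarith
      have k5 : b * (τ ^ 2 * N ^ 2 + |τ| * N * |s| + s ^ 2) / a =
          b * (τ ^ 2 * N ^ 2) / a + b * (|τ| * N * |s|) / a + b * s ^ 2 / a := by ring
      rw [k5] at k1
      linarith
    have g2 : 2 * R1 * s * q / a ^ 2 ≤ 4 * b * (|τ| * |s| * N) / a ^ 2 +
        8 * b * s ^ 2 / a ^ 3 := by
      have k0 : 2 * R1 * s * q ≤ 4 * b * (|τ| * |s| * N) + 8 * b * s ^ 2 := by
        have k1 : |R1 * s * q| ≤ b * (τ ^ 2 * N + |τ| * |s|) * |s| * |q| := by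
          rw [abs_mul, abs_mul]
          gcongr
        have k2 : R1 * s * q ≤ b * (τ ^ 2 * N + |τ| * |s|) * |s| * |q| :=
          le_trans (le_abs_self _) k1
        have k3 : b * (τ ^ 2 * N * |s| * |q|) ≤ b * (2 * |τ| * N * |s| * 1) := by
          have : τ ^ 2 ≤ 2 * |τ| := by rw [hτ2]; nlinarith
          gcongr
        have k4 : b * (|τ| * |s| * |s| * |q|) ≤ b * (2 * |s| * |s| * 2) := by
          have : |q| ≤ 2 := le_trans hsinτ hτ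
          gcongr
        have k5 : b * (τ ^ 2 * N + |τ| * |s|) * |s| * |q| =
            b * (τ ^ 2 * N * |s| * |q|) + b * (|τ| * |s| * |s| * |q|) := by ring
        rw [hs2]
        nlinarith
      have k6 : 2 * R1 * s * q / a ^ 2 ≤ (4 * b * (|τ| * |s| * N) + 8 * b * s ^ 2) / a ^ 2 :=
        div_le_div_of_nonneg_right k0 ha2.le
      have k7 : 8 * b * s ^ 2 / a ^ 2 ≤ 8 * b * s ^ 2 / a ^ 3 := by
        apply div_le_div_of_nonneg_left (by positivity) ha3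
        have k4 : a ^ 3 = a * a ^ 2 := by ring
        rw [k4]
        nlinarith
      rw [add_div] at k6
      linarith
    have g3 : R0 * s ^ 2 * (1 + q ^ 2) / a ^ 3 ≤ 8 * b * s ^ 2 / a ^ 3 := by
      apply div_le_div_of_nonneg_right _ ha3.le
      have k0 : R0 ≤ b * 4 := by
        have : τ ^ 2 ≤ 4 := by rw [hτ2]; nlinarith
        calc R0 ≤ |R0| := le_abs_self _
          _ ≤ b * τ ^ 2 := hR0
          _ ≤ b * 4 := by gcongr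
      calc R0 * s ^ 2 * (1 + q ^ 2) = R0 * (s ^ 2 * (1 + q ^ 2)) := by ring
        _ ≤ b * 4 * (s ^ 2 * (1 + q ^ 2)) := mul_le_mul_of_nonneg_right k0 (by positivity)
        _ ≤ b * 4 * (s ^ 2 * (1 + 1)) := by gcongr
        _ = 8 * b * s ^ 2 := by ring
    have g4 : b * (τ ^ 2 * N ^ 2 / a + 5 * (|τ| * |s| / a ^ 2 * N) + 17 * (s ^ 2 / a ^ 3)) =
        b * (τ ^ 2 * N ^ 2) / a + b * (|τ| * N * |s|) / a ^ 2 + b * s ^ 2 / a ^ 3 +
          (4 * b * (|τ| * |s| * N) / a ^ 2 + 8 * b * s ^ 2 / a ^ 3) + 8 * b * s ^ 2 / a ^ 3 := by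
      ring
    rw [g4]
    linarith
  have i5 : ε * (R2 / a + 2 * R1 * s * q / a ^ 2 + R0 * s ^ 2 * (1 + q ^ 2) / a ^ 3) ≤
      ε * (b * (τ ^ 2 * N ^ 2 / a + 5 * (|τ| * |s| / a ^ 2 * N) + 17 * (s ^ 2 / a ^ 3))) :=
    mul_le_mul_of_nonneg_left i4 hε.le
  linarith

/-- The bound of `z1`. -/
theorem z1_upper {b ε τ N s W1 D1 R0 R1 : ℝ} (hb : 0 < b) (hε : 0 < ε) (hε5 : ε ≤ 1 / 5)
    (hτ : |τ| ≤ 2) (ha : 0 < Real.cos τ) (hN : 0 ≤ N) (hW0 : 0 ≤ W1) (hW : W1 ≤ b)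
    (hD1 : |D1| ≤ b * N) (hR0 : |R0| ≤ b * τ ^ 2)
    (hR1 : |R1| ≤ b * (τ ^ 2 * N + |τ| * |s|)) :
    |z1 ε τ s W1 D1 R0 R1| ≤ 2 * b * (|τ| * |s| / Real.cos τ ^ 2) +
      b * (τ ^ 2 * N / Real.cos τ) := by
  have ha1 : Real.cos τ ≤ 1 := Real.cos_le_one τ
  have hsin1 : |Real.sin τ| ≤ 1 := Real.abs_sin_le_one τ
  have hsinτ : |Real.sin τ| ≤ |τ| := Real.abs_sin_le_abs
  have hms0 := mul_sin_nonneg hτ
  have hms := mul_sin_le τ
  have ht0 : 0 ≤ |τ| := abs_nonneg τ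
  have hs0 : 0 ≤ |s| := abs_nonneg s
  have hτ2 : τ ^ 2 = |τ| ^ 2 := (sq_abs τ).symm
  unfold z1
  set a := Real.cos τ with hadef
  set q := Real.sin τ with hq
  have ha2 : 0 < a ^ 2 := by positivity
  have g1 : |a * q + τ| ≤ 2 * |τ| := by
    calc |a * q + τ| ≤ |a * q| + |τ| := abs_add_le _ _
      _ = a * |q| + |τ| := by rw [abs_mul, abs_of_pos ha]
      _ ≤ 1 * |τ| + |τ| := by
          have : a * |q| ≤ 1 * |τ| := mul_le_mul ha1 hsinτ (abs_nonneg _) zero_le_one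
          linarith
      _ = 2 * |τ| := by ring
  have i1 : |(a * q + τ) / (2 * a ^ 2) * s * W1| ≤ b * (|τ| * |s| / a ^ 2) := by
    rw [abs_mul, abs_mul, abs_div, abs_of_pos (by positivity : (0 : ℝ) < 2 * a ^ 2),
      abs_of_nonneg hW0]
    calc |a * q + τ| / (2 * a ^ 2) * |s| * W1 ≤ 2 * |τ| / (2 * a ^ 2) * |s| * b := by
          gcongr
      _ = b * (|τ| * |s| / a ^ 2) := by field_simp
  have i2 : |τ * q / (2 * a) * D1| ≤ b * (τ ^ 2 * N / a) / 2 := by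
    rw [abs_mul, abs_div, abs_of_nonneg hms0, abs_of_pos (by positivity : (0 : ℝ) < 2 * a)]
    calc τ * q / (2 * a) * |D1| ≤ τ ^ 2 / (2 * a) * (b * N) := by
          gcongr
      _ = b * (τ ^ 2 * N / a) / 2 := by field_simp
  have i3 : |R1 / a| ≤ b * (τ ^ 2 * N / a) + b * (|τ| * |s| / a ^ 2) := by
    rw [abs_div, abs_of_pos ha]
    have k2 : |τ| * |s| / a ≤ |τ| * |s| / a ^ 2 := by
      apply div_le_div_of_nonneg_left (by positivity) ha2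
      nlinarith
    calc |R1| / a ≤ b * (τ ^ 2 * N + |τ| * |s|) / a := div_le_div_of_nonneg_right hR1 ha.le
      _ = b * (τ ^ 2 * N / a) + b * (|τ| * |s| / a) := by ring
      _ ≤ b * (τ ^ 2 * N / a) + b * (|τ| * |s| / a ^ 2) := by
          have := mul_le_mul_of_nonneg_left k2 hb.le
          linarith
  have i4 : |R0 * s * q / a ^ 2| ≤ 2 * (b * (|τ| * |s| / a ^ 2)) := by
    rw [abs_div, abs_mul, abs_mul, abs_of_pos ha2]
    have k1 : |R0| ≤ 2 * b * |τ| := by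
      calc |R0| ≤ b * τ ^ 2 := hR0
        _ = b * (|τ| * |τ|) := by rw [hτ2]; ring
        _ ≤ b * (2 * |τ|) := by gcongr
        _ = 2 * b * |τ| := by ring
    calc |R0| * |s| * |q| / a ^ 2 ≤ 2 * b * |τ| * |s| * 1 / a ^ 2 := by
          gcongr
      _ = 2 * (b * (|τ| * |s| / a ^ 2)) := by ring
  set U := b * (|τ| * |s| / a ^ 2) with hU
  set V := b * (τ ^ 2 * N / a) with hV
  have hU0 : 0 ≤ U := by positivity
  have hV0 : 0 ≤ V := by positivity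
  have i5 : |ε * (R1 / a + R0 * s * q / a ^ 2)| ≤ 1 / 5 * (V + 3 * U) := by
    rw [abs_mul, abs_of_pos hε]
    have : |R1 / a + R0 * s * q / a ^ 2| ≤ V + 3 * U := by
      calc |R1 / a + R0 * s * q / a ^ 2| ≤ |R1 / a| + |R0 * s * q / a ^ 2| := abs_add_le _ _
        _ ≤ V + 3 * U := by linarith
    exact mul_le_mul hε5 this (abs_nonneg _) (by norm_num)
  have i6 : |(a * q + τ) / (2 * a ^ 2) * s * W1 + τ * q / (2 * a) * D1 -
      ε * (R1 / a + R0 * s * q / a ^ 2)| ≤ U + V / 2 + 1 / 5 * (V + 3 * U) := by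
    calc _ ≤ |(a * q + τ) / (2 * a ^ 2) * s * W1 + τ * q / (2 * a) * D1| +
          |ε * (R1 / a + R0 * s * q / a ^ 2)| := abs_sub _ _
      _ ≤ |(a * q + τ) / (2 * a ^ 2) * s * W1| + |τ * q / (2 * a) * D1| +
          |ε * (R1 / a + R0 * s * q / a ^ 2)| := by
          have := abs_add_le ((a * q + τ) / (2 * a ^ 2) * s * W1) (τ * q / (2 * a) * D1)
          linarith
      _ ≤ U + V / 2 + 1 / 5 * (V + 3 * U) := by linarith
  calc _ ≤ U + V / 2 + 1 / 5 * (V + 3 * U) := i6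
    _ ≤ 2 * U + V := by linarith
    _ = 2 * b * (|τ| * |s| / a ^ 2) + V := by rw [hU]; ring

end WLB

theorem t_WLB : Stmt_WLB := by
  intro M c b c1 ρ ε τ N s W1 D1 H1 R0 R1 R2 hM hc hb hc1 hρ h1 h2 h3 h4 hε hε5 hε6 hτ ha hετ hN
    hW hWb hD1 hH1 hR0 hR1 hR2
  have ha2 : 0 < Real.cos τ ^ 2 := by positivity
  have ha3 : 0 < Real.cos τ ^ 3 := by positivity
  have ht0 : 0 ≤ |τ| := abs_nonneg τ
  have hs0 : 0 ≤ |s| := abs_nonneg s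
  have hkey : ε * τ ^ 2 / Real.cos τ ≤ ρ := by
    rw [div_le_iff₀ ha]
    exact hετ
  have hkey0 : 0 ≤ ε * τ ^ 2 / Real.cos τ := by positivity
  have hz2 := WLB.z2_lower hb hε hτ ha hN hc1 hW hD1 hH1 hR0 hR1 hR2
  have hz1 := WLB.z1_upper hb hε hε5 hτ ha hN (le_trans hc1.le hW) hWb hD1 hR0 hR1
  refine WLB.combine (X := s ^ 2 / Real.cos τ ^ 3) (u := |τ| * |s| / Real.cos τ ^ 2)
    (w := τ ^ 2 * N / Real.cos τ) (Y := |τ| * |s| / Real.cos τ ^ 2 * N)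
    (Z := τ ^ 2 * N ^ 2 / Real.cos τ) hM hc hb hρ h1 h2 h3 h4 hε hε5 hε6 (by positivity) rfl
    (by positivity) (by positivity) hz2 ?_ ?_ ?_ ?_
  · have g1 : z1 ε τ s W1 D1 R0 R1 ^ 2 ≤ (2 * b * (|τ| * |s| / Real.cos τ ^ 2) +
        b * (τ ^ 2 * N / Real.cos τ)) ^ 2 := by
      rw [← sq_abs (z1 ε τ s W1 D1 R0 R1)]
      exact pow_le_pow_left₀ (abs_nonneg _) hz1 2
    have g2 := sq_nonneg (2 * b * (|τ| * |s| / Real.cos τ ^ 2) - b * (τ ^ 2 * N / Real.cos τ))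
    nlinarith
  · have g1 : ε * (τ ^ 2 * N ^ 2 / Real.cos τ) = ε * τ ^ 2 / Real.cos τ * N ^ 2 := by ring
    rw [g1]
    exact mul_le_mul_of_nonneg_right hkey (sq_nonneg _)
  · have g1 : ε ^ 2 * (|τ| * |s| / Real.cos τ ^ 2) ^ 2 =
        ε * τ ^ 2 / Real.cos τ * (ε * (s ^ 2 / Real.cos τ ^ 3)) := by
      rw [div_pow, mul_pow, sq_abs, sq_abs]
      field_simp
    rw [g1]
    exact mul_le_mul_of_nonneg_right hkey (by positivity)
  · have g1 : ε ^ 2 * (τ ^ 2 * N / Real.cos τ) ^ 2 = (ε * τ ^ 2 / Real.cos τ) ^ 2 * N ^ 2 := by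
      ring
    rw [g1]
    exact mul_le_mul_of_nonneg_right (pow_le_pow_left₀ hkey0 hkey 2) (sq_nonneg _)

end LQL
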