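import Pool.Agent.LQL.Stmts

/-!
# The thin step: consequences of `uu > 0` near the wall
-/

set_option autoImplicit false

namespace LQL

open Set Filter Topology Lq

theorem t_WLC : Stmt_WLC := by
  intro b c1 ε τ W0 W1 R0 hb hc1 hε h16 hτ hW0 hW1 hR0 hu
  have hT := mul_sin_ge hτ
  have hT0 : 0 ≤ τ * Real.sin τ := mul_sin_nonneg hτ
  have hR := abs_le.mp hR0
  have hτ2 : 0 ≤ τ ^ 2 := sq_nonneg τ
  have h1 : τ ^ 2 / 4 * c1 ≤ τ * Real.sin τ * W1 := mul_le_mul hT hW1 hc1.le hT0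
  have h2 : ε * R0 ≤ ε * (b * τ ^ 2) := mul_le_mul_of_nonneg_left hR.2 hε.le
  have h3 : b * ε * τ ^ 2 ≤ c1 / 16 * τ ^ 2 := mul_le_mul_of_nonneg_right (by linarith) hτ2
  have hnum : c1 / 16 * τ ^ 2 ≤ τ * Real.sin τ / 2 * W1 - ε * R0 := by nlinarith
  have key : ε * (c1 / 16 * τ ^ 2) < Real.cos τ * W0 := by
    have h4 : ε * (c1 / 16 * τ ^ 2) ≤ ε * (τ * Real.sin τ / 2 * W1 - ε * R0) :=
      mul_le_mul_of_nonneg_left hnum hε.le
    unfold u0 at hu
    nlinarith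
  have hcos : 0 < Real.cos τ := by
    by_contra hcon
    push Not at hcon
    have h5 : Real.cos τ * W0 ≤ 0 := mul_nonpos_of_nonpos_of_nonneg hcon hW0.le
    have h6 : 0 ≤ ε * (c1 / 16 * τ ^ 2) := by positivity
    linarith
  refine ⟨hcos, ?_, ?_⟩
  · have h7 : 16 / c1 * W0 * Real.cos τ = 16 / c1 * (Real.cos τ * W0) := by ring
    rw [h7]
    have h8 : 16 / c1 * (ε * (c1 / 16 * τ ^ 2)) ≤ 16 / c1 * (Real.cos τ * W0) :=
      mul_le_mul_of_nonneg_left key.le (by positivity)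
    have h9 : 16 / c1 * (ε * (c1 / 16 * τ ^ 2)) = ε * τ ^ 2 := by field_simp
    linarith
  · unfold z0
    apply div_nonneg _ hcos.le
    have h10 : 0 ≤ c1 / 16 * τ ^ 2 := by positivity
    linarith

end LQL
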