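import Pool.Agent.LQL.Stmts

/-!
# The thin step: WS, strict convexity of the level set at the points with `w = 0`
-/

set_option autoImplicit false

namespace LQL

open Set Filter Topology Lq

theorem t_WS : Stmt_WS := by
  intro J w K be H x hx hwx v hv hdv
  obtain ⟨⟨u, hu⟩, _⟩ := H.gr x hx hwx
  obtain ⟨c0, hc0, hB⟩ := H.hB
  obtain ⟨xs, hxs, hlim⟩ := mem_closure_iff_seq_limit.1 (H.cl hx)
  have hsm := H.sm 0
  have hc1 : ∀ a : ℝ × ℝ, Tendsto (fun n => d1 (w 0) (xs n) a) atTop (𝓝 (d1 (w 0) x a)) := by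
    intro a
    have h1 := (d1_cont hsm).tendsto (x, a)
    have h2 : Tendsto (fun n => (xs n, a)) atTop (𝓝 (x, a)) :=
      hlim.prodMk_nhds tendsto_const_nhds
    exact h1.comp h2
  set vs : ℕ → ℝ × ℝ := fun n => v - (d1 (w 0) (xs n) v / d1 (w 0) (xs n) u) • u with hvs
  have hvl : Tendsto vs atTop (𝓝 v) := by
    have h1 : Tendsto (fun n => d1 (w 0) (xs n) v / d1 (w 0) (xs n) u) atTop
        (𝓝 (d1 (w 0) x v / d1 (w 0) x u)) := (hc1 v).div (hc1 u) hu
    rw [hdv, zero_div] at h1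
    have h2 := (tendsto_const_nhds (x := v)).sub (h1.smul_const u)
    rw [zero_smul, sub_zero] at h2
    exact h2
  have hne : ∀ᶠ n in atTop, d1 (w 0) (xs n) u ≠ 0 := (hc1 u).eventually_ne hu
  have hz : ∀ᶠ n in atTop, d1 (w 0) (xs n) (vs n) = 0 := by
    filter_upwards [hne] with n hn
    have h1 : d1 (w 0) (xs n) (vs n) = d1 (w 0) (xs n) v
        - (d1 (w 0) (xs n) v / d1 (w 0) (xs n) u) * d1 (w 0) (xs n) u := by
      simp only [hvs, d1, map_sub, map_smul, smul_eq_mul]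
    rw [h1, div_mul_cancel₀ _ hn, sub_self]
  have hin : ∀ᶠ n in atTop, c0 * ((vs n).1 ^ 2 + (vs n).2 ^ 2) ≤ -d2 (w 0) (xs n) (vs n) := by
    filter_upwards [hz] with n hn
    have h1 := hB (xs n) (hxs n).1 (vs n)
    rw [hn] at h1
    have h2 : 0 < w 0 (xs n) := (hxs n).2
    have h3 : w 0 (xs n) * (c0 * ((vs n).1 ^ 2 + (vs n).2 ^ 2)) ≤
        w 0 (xs n) * (-d2 (w 0) (xs n) (vs n)) := by
      calc w 0 (xs n) * (c0 * ((vs n).1 ^ 2 + (vs n).2 ^ 2))
          = c0 * w 0 (xs n) * ((vs n).1 ^ 2 + (vs n).2 ^ 2) := by ring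
        _ ≤ _ := h1
        _ = w 0 (xs n) * (-d2 (w 0) (xs n) (vs n)) := by ring
    exact le_of_mul_le_mul_left h3 h2
  have hl1 : Tendsto (fun n => c0 * ((vs n).1 ^ 2 + (vs n).2 ^ 2)) atTop
      (𝓝 (c0 * (v.1 ^ 2 + v.2 ^ 2))) := by
    have h1 : Continuous (fun p : ℝ × ℝ => c0 * (p.1 ^ 2 + p.2 ^ 2)) := by fun_prop
    exact (h1.tendsto v).comp hvl
  have hl2 : Tendsto (fun n => -d2 (w 0) (xs n) (vs n)) atTop (𝓝 (-d2 (w 0) x v)) := by
    have h1 := (d2_cont hsm).tendsto (x, v)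
    have h2 : Tendsto (fun n => (xs n, vs n)) atTop (𝓝 (x, v)) := hlim.prodMk_nhds hvl
    exact (h1.comp h2).neg
  have hle := le_of_tendsto_of_tendsto hl1 hl2 hin
  have hpos : 0 < v.1 ^ 2 + v.2 ^ 2 := by
    have hne2 : v.1 ≠ 0 ∨ v.2 ≠ 0 := by
      by_contra hcon
      push Not at hcon
      exact hv (Prod.ext hcon.1 hcon.2)
    rcases hne2 with h | h
    · have := sq_pos_of_ne_zero h
      have := sq_nonneg v.2
      linarith
    · have := sq_pos_of_ne_zero h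
      have := sq_nonneg v.1
      linarith
  have := mul_pos hc0 hpos
  linarith

end LQL
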