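import Pool.Agent.LQL.CZ
import Pool.Agent.LQL.CB
import Pool.Agent.LQL.JP
import Pool.Agent.LQL.JS
import Pool.Agent.LQL.UJ
import Pool.Agent.LQL.UF
import Pool.Agent.LQL.WB
import Pool.Agent.LQL.RB
import Pool.Agent.LQL.WS
import Pool.Agent.LQL.FL
import Pool.Agent.LQL.KW
import Pool.Agent.LQL.WLA
import Pool.Agent.LQL.WLB
import Pool.Agent.LQL.WLC
import Pool.Agent.LQL.WAL
import Pool.Agent.LQL.RSA
import Pool.Agent.LQL.RSB
import Pool.Agent.LQL.RES
import Pool.Agent.LQL.ALG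
import Pool.Agent.LQL.QT
import Pool.Agent.LQL.QW
import Pool.Agent.LQL.QR
import Pool.Agent.LQL.BA
import Pool.Agent.LQL.FI

/-!
# The thin step: assembly
-/

set_option autoImplicit false

namespace LQL

theorem h_CB : P_CB := t_CB t_CZ

theorem h_UJ : P_UJ := t_UJ t_CZ t_JP t_JS

theorem h_UF : P_UF := t_UF t_CZ h_UJ

theorem h_RB : P_RB := t_RB h_CB h_UJ t_WB

theorem h_KW : P_KW := t_KW t_WS t_FL

theorem h_WAL : P_WAL := t_WAL t_WLA t_WLB t_WLC

theorem h_RES : P_RES := t_RES t_RSA t_RSB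

theorem h_QW : P_QW := t_QW h_UF h_RB t_WB h_KW h_WAL

theorem h_QR : P_QR := t_QR h_UF h_RB t_WB t_ALG t_QT h_RES

theorem h_BA : P_BA := t_BA h_UF h_RB t_WB h_KW

/-- Theorem L. -/
theorem thin2 : StmtThin2 := t_FI h_QW h_QR h_BA

end LQL
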