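import Mathlib
import Pool.Agent.Lq.Base

/-!
# The thin step (section 7 of MP_61eda3_an): definitions and elementary estimates
-/

set_option autoImplicit false

namespace LQL

open Set Filter Topology Lq

/-- The hypotheses of the thin step. -/
structure Hy (J : ℕ) (w : ℕ → ℝ × ℝ → ℝ) (K : Set (ℝ × ℝ)) (be : ℝ) : Prop where
  J1 : 1 ≤ J
  sm : ∀ j, ContDiff ℝ (⊤ : ℕ∞) (w j)
  cp : IsCompact K
  b0 : 0 < be
  b1 : be ≤ 1 / 7
  nn : ∀ x ∈ K, 0 ≤ w 0 x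
  cl : K ⊆ closure {x | x ∈ K ∧ 0 < w 0 x}
  hB : ∃ c0 : ℝ, 0 < c0 ∧ ∀ x ∈ K, IneqB (w 0) be c0 x
  hC : ∃ c0 : ℝ, 0 < c0 ∧ ∀ x ∈ K, IneqC (w 0) (w 1) c0 x
  gr : ∀ x ∈ K, w 0 x = 0 → (∃ v, d1 (w 0) x v ≠ 0) ∧ 0 < w 1 x

/-- Properties of the coefficient functions. -/
structure Co (c : ℕ → ℝ → ℝ) : Prop where
  sm : ∀ j, ContDiff ℝ (⊤ : ℕ∞) (c j)
  c0 : ∀ τ, c 0 τ = Real.cos τ
  c1 : ∀ τ, c 1 τ = -(τ * Real.sin τ / 2)
  ode : ∀ j τ, deriv (deriv (c (j + 1))) τ = -c (j + 1) τ - c j τ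
  z0 : ∀ j, c (j + 1) 0 = 0
  z1 : ∀ j, deriv (c (j + 1)) 0 = 0

/-- The remainder after the terms of order zero and one, divided by `ε²`. -/
noncomputable def RR (m : ℕ) (w : ℕ → ℝ × ℝ → ℝ) (ε : ℝ) (p : (ℝ × ℝ) × ℝ) : ℝ :=
  ∑ j ∈ Finset.range m, ε ^ j * cz (j + 2) p.2 * w (j + 2) p.1

/-! ### the formulas for the value and the directional derivatives

`W0, D0, H0` are the value and the first and second derivatives of `w 0` in the direction `v`,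
`W1, D1, H1` those of `w 1`, `R0, R1, R2` those of the remainder in the direction `(v, s)`. -/

/-- The value. -/
noncomputable def u0 (ε τ W0 W1 R0 : ℝ) : ℝ :=
  Real.cos τ * W0 - ε * (τ * Real.sin τ / 2 * W1) + ε ^ 2 * R0

/-- The first derivative. -/
noncomputable def u1 (ε τ s W0 D0 W1 D1 R1 : ℝ) : ℝ :=
  Real.cos τ * D0 - Real.sin τ * s * W0 -
    ε * (τ * Real.sin τ / 2 * D1 + (Real.sin τ + τ * Real.cos τ) / 2 * s * W1) + ε ^ 2 * R1

/-- The second derivative. -/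
noncomputable def u2 (ε τ s W0 D0 H0 W1 D1 H1 R2 : ℝ) : ℝ :=
  Real.cos τ * H0 - 2 * Real.sin τ * s * D0 - Real.cos τ * s ^ 2 * W0 -
    ε * (τ * Real.sin τ / 2 * H1 + (Real.sin τ + τ * Real.cos τ) * s * D1 +
      (2 * Real.cos τ - τ * Real.sin τ) / 2 * s ^ 2 * W1) + ε ^ 2 * R2

/-! ### the quotient by `w 0` -/

theorem u0_mul (ε τ W0 V0 S0 : ℝ) :
    u0 ε τ W0 (W0 * V0) (W0 * S0) = W0 * u0 ε τ 1 V0 S0 := by
  unfold u0
  ring

theorem u1_mul (ε τ s W0 D0 V0 V1 S0 S1 : ℝ) :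
    u1 ε τ s W0 D0 (W0 * V0) (D0 * V0 + W0 * V1) (D0 * S0 + W0 * S1) =
      D0 * u0 ε τ 1 V0 S0 + W0 * u1 ε τ s 1 0 V0 V1 S1 := by
  unfold u0 u1
  ring

theorem u2_mul (ε τ s W0 D0 H0 V0 V1 V2 S0 S1 S2 : ℝ) :
    u2 ε τ s W0 D0 H0 (W0 * V0) (D0 * V0 + W0 * V1) (H0 * V0 + 2 * D0 * V1 + W0 * V2)
        (H0 * S0 + 2 * D0 * S1 + W0 * S2) =
      H0 * u0 ε τ 1 V0 S0 + 2 * D0 * u1 ε τ s 1 0 V0 V1 S1 +
        W0 * u2 ε τ s 1 0 0 V0 V1 V2 S2 := by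
  unfold u0 u1 u2
  ring

/-! ### the factor `cos τ` near the wall -/

/-- `u0 = cos τ (W0 - ε z0)`. -/
noncomputable def z0 (ε τ W1 R0 : ℝ) : ℝ := (τ * Real.sin τ / 2 * W1 - ε * R0) / Real.cos τ

/-- The first derivative of `z0`. -/
noncomputable def z1 (ε τ s W1 D1 R0 R1 : ℝ) : ℝ :=
  (Real.cos τ * Real.sin τ + τ) / (2 * Real.cos τ ^ 2) * s * W1 +
    τ * Real.sin τ / (2 * Real.cos τ) * D1 -
    ε * (R1 / Real.cos τ + R0 * s * Real.sin τ / Real.cos τ ^ 2)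

/-- The second derivative of `z0`. -/
noncomputable def z2 (ε τ s W1 D1 H1 R0 R1 R2 : ℝ) : ℝ :=
  (Real.cos τ + τ * Real.sin τ) / Real.cos τ ^ 3 * s ^ 2 * W1 +
    (Real.cos τ * Real.sin τ + τ) / Real.cos τ ^ 2 * s * D1 +
    τ * Real.sin τ / (2 * Real.cos τ) * H1 -
    ε * (R2 / Real.cos τ + 2 * R1 * s * Real.sin τ / Real.cos τ ^ 2 +
      R0 * s ^ 2 * (1 + Real.sin τ ^ 2) / Real.cos τ ^ 3)

/-! ### trigonometric estimates -/

theorem sin_ge_aux {τ : ℝ} (h0 : 0 ≤ τ) (h2 : τ ≤ 2) : τ / 4 ≤ Real.sin τ := by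
  have hpi := Real.pi_gt_three
  have hpi4 := Real.pi_le_four
  by_cases h : τ ≤ Real.pi / 2
  · have h1 := Real.mul_le_sin h0 h
    have h3 : (1 : ℝ) / 4 ≤ 2 / Real.pi := by
      rw [div_le_div_iff₀ (by norm_num) (by linarith)]
      linarith
    calc τ / 4 = 1 / 4 * τ := by ring
      _ ≤ 2 / Real.pi * τ := mul_le_mul_of_nonneg_right h3 h0
      _ ≤ Real.sin τ := h1
  · push Not at h
    have h1 : Real.sin τ = Real.sin (Real.pi - τ) := (Real.sin_pi_sub τ).symm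
    have h3 : 0 ≤ Real.pi - τ := by linarith
    have h4 : Real.pi - τ ≤ Real.pi / 2 := by linarith
    have h5 := Real.mul_le_sin h3 h4
    rw [h1]
    have h6 : τ / 4 ≤ 2 / Real.pi * (Real.pi - τ) := by
      have h7 : 2 / Real.pi * (Real.pi - τ) = 2 - 2 * τ / Real.pi := by
        field_simp
      rw [h7]
      have h8 : 2 * τ / Real.pi ≤ 4 / 3 := by
        rw [div_le_div_iff₀ (by linarith) (by norm_num)]
        nlinarith
      linarith
    linarith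

/-- `τ² / 4 ≤ τ sin τ` for `|τ| ≤ 2`. -/
theorem mul_sin_ge {τ : ℝ} (h : |τ| ≤ 2) : τ ^ 2 / 4 ≤ τ * Real.sin τ := by
  have h2 := abs_le.mp h
  rcases le_total 0 τ with h0 | h0
  · have h1 := sin_ge_aux h0 h2.2
    nlinarith
  · have h1 := sin_ge_aux (τ := -τ) (by linarith) (by linarith)
    rw [Real.sin_neg] at h1
    nlinarith

/-- `τ sin τ ≤ τ²`. -/
theorem mul_sin_le (τ : ℝ) : τ * Real.sin τ ≤ τ ^ 2 := by
  have h1 : |Real.sin τ| ≤ |τ| := Real.abs_sin_le_abs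
  calc τ * Real.sin τ ≤ |τ * Real.sin τ| := le_abs_self _
    _ = |τ| * |Real.sin τ| := abs_mul _ _
    _ ≤ |τ| * |τ| := mul_le_mul_of_nonneg_left h1 (abs_nonneg _)
    _ = τ ^ 2 := by rw [← sq, sq_abs]

theorem mul_sin_nonneg {τ : ℝ} (h : |τ| ≤ 2) : 0 ≤ τ * Real.sin τ :=
  le_trans (by positivity) (mul_sin_ge h)

/-- `1/2 ≤ cos τ` for `|τ| ≤ 1`. -/
theorem cos_ge_half {τ : ℝ} (h : |τ| ≤ 1) : 1 / 2 ≤ Real.cos τ := by
  have h1 := Real.one_sub_sq_div_two_le_cos (x := τ)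
  have h2 : τ ^ 2 ≤ 1 := by
    rw [← sq_abs]
    have := abs_nonneg τ
    nlinarith
  linarith

/-- `1/2 ≤ |sin τ|` for `1 ≤ |τ| ≤ 2`. -/
theorem abs_sin_ge_half {τ : ℝ} (h1 : 1 ≤ |τ|) (h2 : |τ| ≤ 2) : 1 / 2 ≤ |Real.sin τ| := by
  have h3 : |Real.sin τ| = Real.sin |τ| := by
    rcases le_total 0 τ with h | h
    · rw [abs_of_nonneg h] at h2 ⊢
      exact abs_of_nonneg (le_trans (by linarith) (sin_ge_aux h h2))
    · rw [abs_of_nonpos h] at h2 ⊢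
      have h4 := sin_ge_aux (τ := -τ) (by linarith) h2
      rw [Real.sin_neg] at h4 ⊢
      exact abs_of_nonpos (by linarith)
  rw [h3]
  set t := |τ| with ht
  have hpi := Real.pi_gt_three
  have hpi4 : Real.pi < 3.15 := Real.pi_lt_d2
  have h4 : Real.sin (Real.pi / 6) = 1 / 2 := Real.sin_pi_div_six
  rcases le_total t (Real.pi / 2) with h | h
  · rw [← h4]
    exact Real.sin_le_sin_of_le_of_le_pi_div_two (by linarith) h (by linarith)
  · rw [← Real.sin_pi_sub t, ← h4]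
    exact Real.sin_le_sin_of_le_of_le_pi_div_two (by linarith) (by linarith) (by linarith)

theorem cos_two_le : Real.cos 2 ≤ -(1 / 4) := by
  have h1 : Real.cos 2 = 2 * Real.cos 1 ^ 2 - 1 := by
    rw [← Real.cos_two_mul]
    norm_num
  have h2 := Real.cos_one_le
  have h3 := Real.cos_one_pos
  rw [h1]
  nlinarith

/-- `cos τ ≤ -1/4` for `|τ| = 2`. -/
theorem cos_of_abs_two {τ : ℝ} (h : |τ| = 2) : Real.cos τ ≤ -(1 / 4) := by
  rw [← Real.cos_abs, h]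
  exact cos_two_le

/-- `1 ≤ cos τ + τ sin τ` if `|τ| ≤ 2` and `0 < cos τ`. -/
theorem one_le_cos_add {τ : ℝ} (h : |τ| ≤ 2) (hc : 0 < Real.cos τ) :
    1 ≤ Real.cos τ + τ * Real.sin τ := by
  have h1 : Real.sin τ ^ 2 ≤ τ * Real.sin τ := by
    have h3 := mul_sin_nonneg h
    have h4 : |Real.sin τ| ≤ |τ| := Real.abs_sin_le_abs
    have h5 : |Real.sin τ| * |Real.sin τ| ≤ |τ| * |Real.sin τ| :=
      mul_le_mul_of_nonneg_right h4 (abs_nonneg _)
    rw [← abs_mul τ, abs_of_nonneg h3, ← sq, sq_abs] at h5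
    exact h5
  have h2 : Real.cos τ ^ 2 ≤ Real.cos τ := by
    have := Real.cos_le_one τ
    nlinarith
  have h3 := Real.sin_sq_add_cos_sq τ
  linarith

/-- If `|τ'| ≤ |τ| ≤ 2` and `0 < cos τ` then `0 < cos τ'`. -/
theorem cos_pos_mono {τ τ' : ℝ} (h : |τ| ≤ 2) (hc : 0 < Real.cos τ) (h' : |τ'| ≤ |τ|) :
    0 < Real.cos τ' := by
  have hpi := Real.pi_gt_three
  rw [← Real.cos_abs] at hc ⊢
  have h1 : Real.cos |τ| ≤ Real.cos |τ'| :=
    Real.cos_le_cos_of_nonneg_of_le_pi (abs_nonneg _) (by linarith) h'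
  linarith

/-! ### directional derivatives -/

section Dir

variable {E : Type*} [NormedAddCommGroup E] [NormedSpace ℝ E]

theorem sm_fderiv {f : E → ℝ} (hf : ContDiff ℝ (⊤ : ℕ∞) f) :
    ContDiff ℝ (⊤ : ℕ∞) (fderiv ℝ f) :=
  hf.fderiv_right (m := (⊤ : ℕ∞)) (by norm_cast)

theorem sm_diff {F : Type*} [NormedAddCommGroup F] [NormedSpace ℝ F] {f : E → F}
    (hf : ContDiff ℝ (⊤ : ℕ∞) f) : Differentiable ℝ f :=
  hf.differentiable (by simp)

theorem d2_eq {f : E → ℝ} (hf : ContDiff ℝ (⊤ : ℕ∞) f) (x v : E) :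
    d2 f x v = fderiv ℝ (fderiv ℝ f) x v v := by
  unfold d2
  have h1 : DifferentiableAt ℝ (fderiv ℝ f) x := sm_diff (sm_fderiv hf) x
  have h2 : HasFDerivAt (fun z => fderiv ℝ f z v)
      ((ContinuousLinearMap.apply ℝ ℝ v).comp (fderiv ℝ (fderiv ℝ f) x)) x :=
    (ContinuousLinearMap.apply ℝ ℝ v).hasFDerivAt.comp x h1.hasFDerivAt
  rw [h2.fderiv]
  rfl

theorem d1_cont {f : E → ℝ} (hf : ContDiff ℝ (⊤ : ℕ∞) f) :
    Continuous (fun q : E × E => d1 f q.1 q.2) := by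
  unfold d1
  have h1 : Continuous (fderiv ℝ f) := (sm_fderiv hf).continuous
  exact (h1.comp continuous_fst).clm_apply continuous_snd

theorem d2_cont {f : E → ℝ} (hf : ContDiff ℝ (⊤ : ℕ∞) f) :
    Continuous (fun q : E × E => d2 f q.1 q.2) := by
  have h0 : (fun q : E × E => d2 f q.1 q.2) =
      fun q : E × E => fderiv ℝ (fderiv ℝ f) q.1 q.2 q.2 := by
    funext q
    exact d2_eq hf q.1 q.2
  rw [h0]
  have h1 : Continuous (fderiv ℝ (fderiv ℝ f)) :=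
    ((sm_fderiv hf).fderiv_right (m := (⊤ : ℕ∞)) (by norm_cast)).continuous
  exact ((h1.comp continuous_fst).clm_apply continuous_snd).clm_apply continuous_snd

theorem d1_smul (f : E → ℝ) (x v : E) (t : ℝ) : d1 f x (t • v) = t * d1 f x v := by
  unfold d1
  rw [map_smul, smul_eq_mul]

theorem d2_smul {f : E → ℝ} (hf : ContDiff ℝ (⊤ : ℕ∞) f) (x v : E) (t : ℝ) :
    d2 f x (t • v) = t ^ 2 * d2 f x v := by
  rw [d2_eq hf, d2_eq hf, map_smul, map_smul]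
  simp only [smul_apply, smul_eq_mul]
  ring

theorem line_d1 {f : E → ℝ} (hf : ContDiff ℝ (⊤ : ℕ∞) f) (p V : E) (t : ℝ) :
    HasDerivAt (fun t : ℝ => f (p + t • V)) (d1 f (p + t • V) V) t := by
  have h1 : HasDerivAt (fun t : ℝ => p + t • V) V t := by
    have h2 := ((hasDerivAt_id t).smul_const V).const_add p
    simpa using h2
  exact (sm_diff hf (p + t • V)).hasFDerivAt.comp_hasDerivAt t h1

theorem line_d2 {f : E → ℝ} (hf : ContDiff ℝ (⊤ : ℕ∞) f) (p V : E) (t : ℝ) :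
    HasDerivAt (fun t : ℝ => d1 f (p + t • V) V) (d2 f (p + t • V) V) t := by
  have h1 : HasDerivAt (fun t : ℝ => p + t • V) V t := by
    have h2 := ((hasDerivAt_id t).smul_const V).const_add p
    simpa using h2
  have h3 : DifferentiableAt ℝ (fun z => fderiv ℝ f z V) (p + t • V) :=
    (sm_diff (sm_fderiv hf) (p + t • V)).clm_apply (differentiableAt_const V)
  exact h3.hasFDerivAt.comp_hasDerivAt t h1

/-- Recognition of `d1` and `d2` from the derivatives along the line. -/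
theorem d12_of_line {f : E → ℝ} (hf : ContDiff ℝ (⊤ : ℕ∞) f) {p V : E} {g' : ℝ → ℝ} {g'' : ℝ}
    (h1 : ∀ t, HasDerivAt (fun t : ℝ => f (p + t • V)) (g' t) t) (h2 : HasDerivAt g' g'' 0) :
    d1 f p V = g' 0 ∧ d2 f p V = g'' := by
  have h3 : ∀ t, d1 f (p + t • V) V = g' t := fun t => (line_d1 hf p V t).unique (h1 t)
  constructor
  · have h4 := h3 0
    rwa [zero_smul, add_zero] at h4
  · have h4 := line_d2 hf p V 0
    rw [zero_smul, add_zero] at h4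
    have h5 : (fun t : ℝ => d1 f (p + t • V) V) = g' := funext h3
    rw [h5] at h4
    exact h4.unique h2

end Dir

end LQL
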