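import Pool.Agent.LQL.Stmts

/-!
# CZ: properties of the coefficient functions
-/

set_option autoImplicit false

namespace LQL

open Set Filter Topology Lq

namespace CZ

/-- the primitive of `g` -/
theorem prim_deriv {g : ℝ → ℝ} (hg : Continuous g) (z : ℝ) :
    HasDerivAt (fun z => ∫ s in (0 : ℝ)..z, g s) (g z) z :=
  intervalIntegral.integral_hasDerivAt_right (hg.intervalIntegrable _ _)
    (hg.stronglyMeasurableAtFilter _ _) hg.continuousAt

theorem prim_smooth {g : ℝ → ℝ} (hg : ContDiff ℝ (⊤ : ℕ∞) g) :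
    ContDiff ℝ (⊤ : ℕ∞) (fun z => ∫ s in (0 : ℝ)..z, g s) := by
  rw [contDiff_infty_iff_deriv]
  refine ⟨fun z => (prim_deriv hg.continuous z).differentiableAt, ?_⟩
  have h : deriv (fun z => ∫ s in (0 : ℝ)..z, g s) = g := by
    funext z
    exact (prim_deriv hg.continuous z).deriv
  rw [h]
  exact hg

/-- the Duhamel integral -/
noncomputable def du (g : ℝ → ℝ) (z : ℝ) : ℝ := -∫ s in (0 : ℝ)..z, Real.sin (z - s) * g s

theorem du_eq {g : ℝ → ℝ} (hg : Continuous g) (z : ℝ) :
    du g z = -(Real.sin z * ∫ s in (0 : ℝ)..z, Real.cos s * g s) +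
      Real.cos z * ∫ s in (0 : ℝ)..z, Real.sin s * g s := by
  unfold du
  have h1 : (fun s => Real.sin (z - s) * g s) =
      fun s => Real.sin z * (Real.cos s * g s) - Real.cos z * (Real.sin s * g s) := by
    funext s
    rw [Real.sin_sub]
    ring
  rw [h1]
  have hc : Continuous fun s => Real.cos s * g s := Real.continuous_cos.mul hg
  have hs : Continuous fun s => Real.sin s * g s := Real.continuous_sin.mul hg
  have i1 : IntervalIntegrable (fun s => Real.sin z * (Real.cos s * g s))
      MeasureTheory.volume 0 z := Continuous.intervalIntegrable (by fun_prop) _ _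
  have i2 : IntervalIntegrable (fun s => Real.cos z * (Real.sin s * g s))
      MeasureTheory.volume 0 z := Continuous.intervalIntegrable (by fun_prop) _ _
  rw [intervalIntegral.integral_sub i1 i2,
    intervalIntegral.integral_const_mul, intervalIntegral.integral_const_mul]
  ring

theorem du_fun {g : ℝ → ℝ} (hg : Continuous g) :
    du g = fun z => -(Real.sin z * ∫ s in (0 : ℝ)..z, Real.cos s * g s) +
      Real.cos z * ∫ s in (0 : ℝ)..z, Real.sin s * g s := funext (du_eq hg)

theorem du_smooth {g : ℝ → ℝ} (hg : ContDiff ℝ (⊤ : ℕ∞) g) : ContDiff ℝ (⊤ : ℕ∞) (du g) := by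
  rw [du_fun hg.continuous]
  have hc : ContDiff ℝ (⊤ : ℕ∞) fun s => Real.cos s * g s := Real.contDiff_cos.mul hg
  have hs : ContDiff ℝ (⊤ : ℕ∞) fun s => Real.sin s * g s := Real.contDiff_sin.mul hg
  exact ((Real.contDiff_sin.mul (prim_smooth hc)).neg).add (Real.contDiff_cos.mul (prim_smooth hs))

/-- the first derivative -/
theorem du_d1 {g : ℝ → ℝ} (hg : Continuous g) (z : ℝ) :
    HasDerivAt (du g) (-(Real.cos z * ∫ s in (0 : ℝ)..z, Real.cos s * g s) -
      Real.sin z * ∫ s in (0 : ℝ)..z, Real.sin s * g s) z := by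
  rw [du_fun hg]
  have hc : Continuous fun s => Real.cos s * g s := Real.continuous_cos.mul hg
  have hs : Continuous fun s => Real.sin s * g s := Real.continuous_sin.mul hg
  have h1 := (Real.hasDerivAt_sin z).mul (prim_deriv hc z)
  have h2 := (Real.hasDerivAt_cos z).mul (prim_deriv hs z)
  have h3 := h1.neg.add h2
  refine h3.congr_deriv ?_
  ring

/-- the second derivative -/
theorem du_d2 {g : ℝ → ℝ} (hg : Continuous g) (z : ℝ) :
    HasDerivAt (deriv (du g)) (-du g z - g z) z := by
  have hd : deriv (du g) = fun z => -(Real.cos z * ∫ s in (0 : ℝ)..z, Real.cos s * g s) -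
      Real.sin z * ∫ s in (0 : ℝ)..z, Real.sin s * g s := by
    funext z
    exact (du_d1 hg z).deriv
  rw [hd, du_eq hg z]
  have hc : Continuous fun s => Real.cos s * g s := Real.continuous_cos.mul hg
  have hs : Continuous fun s => Real.sin s * g s := Real.continuous_sin.mul hg
  have h1 := (Real.hasDerivAt_cos z).mul (prim_deriv hc z)
  have h2 := (Real.hasDerivAt_sin z).mul (prim_deriv hs z)
  have h3 := h1.neg.sub h2
  refine h3.congr_deriv ?_
  have h4 := Real.sin_sq_add_cos_sq z
  linear_combination -(g z) * h4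

theorem cz_succ (j : ℕ) : cz (j + 1) = du (cz j) := rfl

theorem cz_zero : cz 0 = Real.cos := rfl

theorem cz_smooth (j : ℕ) : ContDiff ℝ (⊤ : ℕ∞) (cz j) := by
  induction j with
  | zero => exact Real.contDiff_cos
  | succ j ih =>
    rw [cz_succ]
    exact du_smooth ih

theorem du_zero (g : ℝ → ℝ) : du g 0 = 0 := by
  unfold du
  simp

theorem cz_one (τ : ℝ) : cz 1 τ = -(τ * Real.sin τ / 2) := by
  have h1 : cz 1 = du Real.cos := rfl
  rw [h1, du_eq Real.continuous_cos]
  have h2 : (∫ s in (0 : ℝ)..τ, Real.cos s * Real.cos s) =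
      (τ + Real.sin τ * Real.cos τ) / 2 := by
    have h3 : (fun s => Real.cos s * Real.cos s) = fun s => Real.cos s ^ 2 := by
      funext s
      ring
    rw [h3, integral_cos_sq]
    simp only [Real.cos_zero, Real.sin_zero]
    ring
  have h4 : (∫ s in (0 : ℝ)..τ, Real.sin s * Real.cos s) = Real.sin τ ^ 2 / 2 := by
    rw [integral_sin_mul_cos₁]
    simp only [Real.sin_zero]
    ring
  rw [h2, h4]
  ring

end CZ

theorem t_CZ : Stmt_CZ where
  sm := CZ.cz_smooth
  c0 := fun _ => rfl
  c1 := CZ.cz_one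
  ode := by
    intro j τ
    rw [CZ.cz_succ]
    exact (CZ.du_d2 (CZ.cz_smooth j).continuous τ).deriv
  z0 := by
    intro j
    rw [CZ.cz_succ]
    exact CZ.du_zero _
  z1 := by
    intro j
    rw [CZ.cz_succ, (CZ.du_d1 (CZ.cz_smooth j).continuous 0).deriv]
    simp

end LQL
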