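import Pool.Agent.LQL.Base

/-!
# The thin step (section 7 of MP_61eda3_an): statements

`Stmt_X` is the statement of the module X; `P_X` is the conclusion of the module X when X has
hypotheses. Proofs: `PAPER.md`.
-/

set_option autoImplicit false

namespace LQL

open Set Filter Topology Lq

/-! ### the coefficient functions -/

/-- CZ: properties of `cz`. -/
def Stmt_CZ : Prop := Co cz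

/-- The bounds of the coefficient functions. -/
def P_CB : Prop :=
  ∀ J : ℕ, ∃ B : ℝ, 0 < B ∧ ∀ j ≤ J, ∀ τ : ℝ, |τ| ≤ 2 →
    |cz (j + 1) τ| ≤ B * τ ^ 2 ∧ |deriv (cz (j + 1)) τ| ≤ B * |τ| ∧
      |deriv (deriv (cz (j + 1))) τ| ≤ B

/-- CB -/
def Stmt_CB : Prop := Stmt_CZ → P_CB

/-! ### the formulas -/

/-- JP: directional derivatives of a product `a(τ) g(x)`. -/
def Stmt_JP : Prop :=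
  ∀ (a : ℝ → ℝ) (g : ℝ × ℝ → ℝ), ContDiff ℝ (⊤ : ℕ∞) a → ContDiff ℝ (⊤ : ℕ∞) g →
    ∀ (p : (ℝ × ℝ) × ℝ) (V : (ℝ × ℝ) × ℝ),
      d1 (fun q : (ℝ × ℝ) × ℝ => a q.2 * g q.1) p V =
        deriv a p.2 * V.2 * g p.1 + a p.2 * d1 g p.1 V.1 ∧
      d2 (fun q : (ℝ × ℝ) × ℝ => a q.2 * g q.1) p V =
        deriv (deriv a) p.2 * V.2 ^ 2 * g p.1 + 2 * (deriv a p.2 * V.2 * d1 g p.1 V.1) +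
          a p.2 * d2 g p.1 V.1

/-- JS: directional derivatives of a finite linear combination. -/
def Stmt_JS : Prop :=
  ∀ (s : Finset ℕ) (e : ℕ → ℝ) (f : ℕ → (ℝ × ℝ) × ℝ → ℝ),
    (∀ j, ContDiff ℝ (⊤ : ℕ∞) (f j)) → ∀ p V : (ℝ × ℝ) × ℝ,
      d1 (fun q => ∑ j ∈ s, e j * f j q) p V = ∑ j ∈ s, e j * d1 (f j) p V ∧
      d2 (fun q => ∑ j ∈ s, e j * f j q) p V = ∑ j ∈ s, e j * d2 (f j) p V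

/-- The derivatives of `uu` and of the remainder. -/
def P_UJ : Prop :=
  ∀ (m : ℕ) (w : ℕ → ℝ × ℝ → ℝ), (∀ j, ContDiff ℝ (⊤ : ℕ∞) (w j)) →
    ∀ (ε : ℝ) (p V : (ℝ × ℝ) × ℝ),
      (d1 (uu m w ε) p V = ∑ j ∈ Finset.range (m + 1),
        ε ^ j * (deriv (cz j) p.2 * V.2 * w j p.1 + cz j p.2 * d1 (w j) p.1 V.1)) ∧
      (d2 (uu m w ε) p V = ∑ j ∈ Finset.range (m + 1),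
        ε ^ j * (deriv (deriv (cz j)) p.2 * V.2 ^ 2 * w j p.1 +
          2 * (deriv (cz j) p.2 * V.2 * d1 (w j) p.1 V.1) + cz j p.2 * d2 (w j) p.1 V.1)) ∧
      (d1 (RR m w ε) p V = ∑ j ∈ Finset.range m,
        ε ^ j * (deriv (cz (j + 2)) p.2 * V.2 * w (j + 2) p.1 +
          cz (j + 2) p.2 * d1 (w (j + 2)) p.1 V.1)) ∧
      (d2 (RR m w ε) p V = ∑ j ∈ Finset.range m,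
        ε ^ j * (deriv (deriv (cz (j + 2))) p.2 * V.2 ^ 2 * w (j + 2) p.1 +
          2 * (deriv (cz (j + 2)) p.2 * V.2 * d1 (w (j + 2)) p.1 V.1) +
          cz (j + 2) p.2 * d2 (w (j + 2)) p.1 V.1))

/-- UJ -/
def Stmt_UJ : Prop := Stmt_CZ → Stmt_JP → Stmt_JS → P_UJ

/-- `uu` and its derivatives in terms of `w 0`, `w 1` and the remainder. -/
def P_UF : Prop :=
  ∀ (m : ℕ) (w : ℕ → ℝ × ℝ → ℝ), (∀ j, ContDiff ℝ (⊤ : ℕ∞) (w j)) →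
    ∀ (ε : ℝ) (p V : (ℝ × ℝ) × ℝ),
      uu (m + 1) w ε p = u0 ε p.2 (w 0 p.1) (w 1 p.1) (RR m w ε p) ∧
      d1 (uu (m + 1) w ε) p V = u1 ε p.2 V.2 (w 0 p.1) (d1 (w 0) p.1 V.1) (w 1 p.1)
        (d1 (w 1) p.1 V.1) (d1 (RR m w ε) p V) ∧
      d2 (uu (m + 1) w ε) p V = u2 ε p.2 V.2 (w 0 p.1) (d1 (w 0) p.1 V.1) (d2 (w 0) p.1 V.1)
        (w 1 p.1) (d1 (w 1) p.1 V.1) (d2 (w 1) p.1 V.1) (d2 (RR m w ε) p V)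

/-- UF -/
def Stmt_UF : Prop := Stmt_CZ → P_UJ → P_UF

/-! ### bounds -/

/-- WB: bounds of the functions `w j` on a compact set. -/
def Stmt_WB : Prop :=
  ∀ (w : ℕ → ℝ × ℝ → ℝ) (K : Set (ℝ × ℝ)), (∀ j, ContDiff ℝ (⊤ : ℕ∞) (w j)) → IsCompact K →
    ∀ J : ℕ, ∃ B : ℝ, 0 < B ∧ ∀ j ≤ J, ∀ x ∈ K, |w j x| ≤ B ∧
      (∀ v, |d1 (w j) x v| ≤ B * ‖v‖) ∧ ∀ v, |d2 (w j) x v| ≤ B * ‖v‖ ^ 2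

/-- The bounds of the remainder. -/
def P_RB : Prop :=
  ∀ (m : ℕ) (w : ℕ → ℝ × ℝ → ℝ) (K : Set (ℝ × ℝ)), (∀ j, ContDiff ℝ (⊤ : ℕ∞) (w j)) →
    IsCompact K → ∃ B : ℝ, 0 < B ∧ ∀ ε : ℝ, 0 ≤ ε → ε ≤ 1 → ∀ x ∈ K, ∀ τ : ℝ, |τ| ≤ 2 →
      ∀ V : (ℝ × ℝ) × ℝ, |RR m w ε (x, τ)| ≤ B * τ ^ 2 ∧
        |d1 (RR m w ε) (x, τ) V| ≤ B * (τ ^ 2 * ‖V.1‖ + |τ| * |V.2|) ∧
        |d2 (RR m w ε) (x, τ) V| ≤ B * (τ ^ 2 * ‖V.1‖ ^ 2 + |τ| * ‖V.1‖ * |V.2| + V.2 ^ 2)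

/-- RB -/
def Stmt_RB : Prop := P_CB → P_UJ → Stmt_WB → P_RB

/-- WS: at the points of `K` with `w = 0` the level set is strictly convex. -/
def Stmt_WS : Prop :=
  ∀ (J : ℕ) (w : ℕ → ℝ × ℝ → ℝ) (K : Set (ℝ × ℝ)) (be : ℝ), Hy J w K be →
    ∀ x ∈ K, w 0 x = 0 → ∀ v : ℝ × ℝ, v ≠ 0 → d1 (w 0) x v = 0 → d2 (w 0) x v < 0

/-- FL: Finsler's lemma near a compact zero set. -/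
def Stmt_FL : Prop :=
  ∀ (w : ℝ × ℝ → ℝ) (K : Set (ℝ × ℝ)) (A b : ℝ × ℝ → ℝ × ℝ → ℝ), IsCompact K →
    Continuous w → (∀ x ∈ K, 0 ≤ w x) →
    Continuous (fun q : (ℝ × ℝ) × (ℝ × ℝ) => A q.1 q.2) →
    Continuous (fun q : (ℝ × ℝ) × (ℝ × ℝ) => b q.1 q.2) →
    (∀ x v (t : ℝ), A x (t • v) = t ^ 2 * A x v) → (∀ x v (t : ℝ), b x (t • v) = t * b x v) →
    (∀ x ∈ K, w x = 0 → ∀ v, v ≠ 0 → b x v = 0 → 0 < A x v) →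
    ∃ r c M : ℝ, 0 < r ∧ 0 < c ∧ 0 < M ∧ ∀ x ∈ K, w x < r → ∀ v,
      c * ‖v‖ ^ 2 - M * b x v ^ 2 ≤ A x v

/-- The constants near the wall. -/
def P_KW : Prop :=
  ∀ (J : ℕ) (w : ℕ → ℝ × ℝ → ℝ) (K : Set (ℝ × ℝ)) (be : ℝ), Hy J w K be →
    ∃ r c M c1 : ℝ, 0 < r ∧ 0 < c ∧ 0 < M ∧ 0 < c1 ∧ ∀ x ∈ K, w 0 x < r →
      c1 ≤ w 1 x ∧ ∀ v, c * ‖v‖ ^ 2 - M * d1 (w 0) x v ^ 2 ≤ -d2 (w 0) x v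

/-- KW -/
def Stmt_KW : Prop := Stmt_WS → Stmt_FL → P_KW

/-! ### inequalities for real numbers: the wall -/

/-- WLA: the reduction to `z1`, `z2`. -/
def Stmt_WLA : Prop :=
  ∀ ε α τ s W0 D0 H0 W1 D1 H1 R0 R1 R2 : ℝ, 0 ≤ α → α ≤ 1 / 4 → 0 < Real.cos τ →
    Real.cos τ ^ 2 * (1 / 2 * (D0 - ε * z1 ε τ s W1 D1 R0 R1) ^ 2 -
        (W0 - ε * z0 ε τ W1 R0) * (H0 - ε * z2 ε τ s W1 D1 H1 R0 R1 R2)) ≤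
      (1 - α) * u1 ε τ s W0 D0 W1 D1 R1 ^ 2 - u0 ε τ W0 W1 R0 *
        u2 ε τ s W0 D0 H0 W1 D1 H1 R2

/-- WLB: the main inequality near the wall. -/
def Stmt_WLB : Prop :=
  ∀ M c b c1 ρ ε τ N s W1 D1 H1 R0 R1 R2 : ℝ, 0 < M → 0 < c → 0 < b → 0 < c1 → 0 < ρ →
    b * ρ ≤ c / 4 → 4 * M * b ^ 2 * ρ ^ 2 ≤ c / 4 → 9 * b ^ 2 * ρ ≤ c * c1 / 4 →
    16 * M * b ^ 2 * ρ ≤ c1 / 4 → 0 < ε → ε ≤ 1 / 5 → 68 * b * ε ≤ c1 →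
    |τ| ≤ 2 → 0 < Real.cos τ → ε * τ ^ 2 ≤ ρ * Real.cos τ → 0 ≤ N → c1 ≤ W1 → W1 ≤ b →
    |D1| ≤ b * N → |H1| ≤ b * N ^ 2 → |R0| ≤ b * τ ^ 2 → |R1| ≤ b * (τ ^ 2 * N + |τ| * |s|) →
    |R2| ≤ b * (τ ^ 2 * N ^ 2 + |τ| * N * |s| + s ^ 2) →
    0 ≤ c * N ^ 2 + ε * z2 ε τ s W1 D1 H1 R0 R1 R2 - 2 * M * ε ^ 2 * z1 ε τ s W1 D1 R0 R1 ^ 2

/-- WLC: `uu > 0` near the wall. -/
def Stmt_WLC : Prop :=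
  ∀ b c1 ε τ W0 W1 R0 : ℝ, 0 < b → 0 < c1 → 0 < ε → 16 * b * ε ≤ c1 → |τ| ≤ 2 → 0 < W0 →
    c1 ≤ W1 → |R0| ≤ b * τ ^ 2 → 0 < u0 ε τ W0 W1 R0 →
    0 < Real.cos τ ∧ ε * τ ^ 2 ≤ 16 / c1 * W0 * Real.cos τ ∧ 0 ≤ z0 ε τ W1 R0

/-- The inequality near the wall. -/
def P_WAL : Prop :=
  ∀ M c b c1 : ℝ, 0 < M → 0 < c → 0 < b → 0 < c1 → ∃ r ε0 : ℝ, 0 < r ∧ 0 < ε0 ∧
    ∀ ε α τ N s W0 D0 H0 W1 D1 H1 R0 R1 R2 : ℝ, 0 < ε → ε ≤ ε0 → 0 ≤ α → α ≤ 1 / 4 →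
      |τ| ≤ 2 → 0 ≤ N → 0 < W0 → W0 < r → c1 ≤ W1 → W1 ≤ b → |D1| ≤ b * N → |H1| ≤ b * N ^ 2 →
      c * N ^ 2 - M * D0 ^ 2 ≤ -H0 → |R0| ≤ b * τ ^ 2 → |R1| ≤ b * (τ ^ 2 * N + |τ| * |s|) →
      |R2| ≤ b * (τ ^ 2 * N ^ 2 + |τ| * N * |s| + s ^ 2) → 0 < u0 ε τ W0 W1 R0 →
      0 ≤ (1 - α) * u1 ε τ s W0 D0 W1 D1 R1 ^ 2 - u0 ε τ W0 W1 R0 *
        u2 ε τ s W0 D0 H0 W1 D1 H1 R2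

/-- WAL -/
def Stmt_WAL : Prop := Stmt_WLA → Stmt_WLB → Stmt_WLC → P_WAL

/-! ### inequalities for real numbers: away from the wall -/

/-- RSA: the case `|τ| ≤ 1`. -/
def Stmt_RSA : Prop :=
  ∀ κ η c b ε τ N s V0 V1 V2 S0 S1 S2 : ℝ, 0 ≤ κ → 0 < η → 0 < c → 0 < b → 0 < ε → ε ≤ 1 →
    12 * b * ε ≤ 1 → 16 * b * ε ≤ η → |τ| ≤ 1 → 0 ≤ N → |V0| ≤ b → |V1| ≤ b * N →
    c * N ^ 2 ≤ V2 → |S0| ≤ b → |S1| ≤ b * (N + |s|) → |S2| ≤ b * (N + |s|) ^ 2 →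
    0 ≤ κ * u1 ε τ s 1 0 V0 V1 S1 ^ 2 - u0 ε τ 1 V0 S0 * u2 ε τ s 1 0 0 V0 V1 V2 S2 +
      η * u0 ε τ 1 V0 S0 ^ 2 * N ^ 2

/-- RSB: the case `1 ≤ |τ| ≤ 2`. -/
def Stmt_RSB : Prop :=
  ∀ κ c b ε τ N s V0 V1 V2 S0 S1 S2 : ℝ, 0 < κ → 0 < c → 0 < b → 0 < ε → ε ≤ 1 →
    12 * b * ε ≤ 1 → 96 * (36 * b ^ 2 / c + 6 * b) * ε ≤ κ →
    2 * ε * b + 128 * ε ^ 2 * b ^ 2 * (36 * b ^ 2 / c + 6 * b) ≤ c / 16 →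
    1 ≤ |τ| → |τ| ≤ 2 → 0 ≤ N → |V0| ≤ b → |V1| ≤ b * N →
    c * N ^ 2 ≤ V2 → |S0| ≤ b → |S1| ≤ b * (N + |s|) → |S2| ≤ b * (N + |s|) ^ 2 →
    0 < u0 ε τ 1 V0 S0 →
    0 ≤ κ * u1 ε τ s 1 0 V0 V1 S1 ^ 2 - u0 ε τ 1 V0 S0 * u2 ε τ s 1 0 0 V0 V1 V2 S2

/-- The inequality away from the wall. -/
def P_RES : Prop :=
  ∀ κ η c b : ℝ, 0 < κ → 0 < η → 0 < c → 0 < b → ∃ ε0 : ℝ, 0 < ε0 ∧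
    ∀ ε τ N s V0 V1 V2 S0 S1 S2 : ℝ, 0 < ε → ε ≤ ε0 → |τ| ≤ 2 → 0 ≤ N → |V0| ≤ b →
      |V1| ≤ b * N → c * N ^ 2 ≤ V2 → |S0| ≤ b → |S1| ≤ b * (N + |s|) →
      |S2| ≤ b * (N + |s|) ^ 2 → 0 < u0 ε τ 1 V0 S0 →
      0 ≤ κ * u1 ε τ s 1 0 V0 V1 S1 ^ 2 - u0 ε τ 1 V0 S0 * u2 ε τ s 1 0 0 V0 V1 V2 S2 +
        η * u0 ε τ 1 V0 S0 ^ 2 * N ^ 2

/-- RES -/
def Stmt_RES : Prop := Stmt_RSA → Stmt_RSB → P_RES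

/-- ALG: separation of the factor `w 0`. -/
def Stmt_ALG : Prop :=
  ∀ be η : ℝ, 0 < be → 0 < η → ∃ κ : ℝ, 0 < κ ∧ ∀ W0 D0 H0 C0 C1 C2 N : ℝ,
    η * W0 * N ^ 2 ≤ (1 - be - η) * D0 ^ 2 - W0 * H0 →
    W0 ^ 2 * (κ * C1 ^ 2 - C0 * C2) + η * W0 * C0 ^ 2 * N ^ 2 ≤
      1 / (1 + be) * (D0 * C0 + W0 * C1) ^ 2 -
        W0 * C0 * (H0 * C0 + 2 * D0 * C1 + W0 * C2)

/-- QT: bounds of a quotient `f = W g`. -/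
def Stmt_QT : Prop :=
  ∀ r B : ℝ, 0 < r → 0 < B → ∃ b : ℝ, 0 < b ∧ ∀ W0 D0 H0 N : ℝ, r ≤ W0 → W0 ≤ B → 0 ≤ N →
    |D0| ≤ B * N → |H0| ≤ B * N ^ 2 → ∀ s F0 F1 F2 : ℝ, |F0| ≤ B → |F1| ≤ B * (N + |s|) →
      |F2| ≤ B * (N + |s|) ^ 2 → ∃ G0 G1 G2 : ℝ, F0 = W0 * G0 ∧ F1 = D0 * G0 + W0 * G1 ∧
        F2 = H0 * G0 + 2 * D0 * G1 + W0 * G2 ∧ |G0| ≤ b ∧ |G1| ≤ b * (N + |s|) ∧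
        |G2| ≤ b * (N + |s|) ^ 2 ∧
        W0 ^ 3 * G2 = W0 ^ 2 * F2 - 2 * W0 * D0 * F1 - W0 * F0 * H0 + 2 * F0 * D0 ^ 2

/-! ### the inequality for `uu` -/

/-- The local inequality near the wall. -/
def P_QW : Prop :=
  ∀ (J : ℕ) (w : ℕ → ℝ × ℝ → ℝ) (K : Set (ℝ × ℝ)) (be : ℝ), Hy J w K be →
    ∃ r ε0 : ℝ, 0 < r ∧ 0 < ε0 ∧ ∀ ε : ℝ, 0 < ε → ε < ε0 → ∀ x ∈ K, ∀ z : ℝ, |z| ≤ 2 →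
      0 < w 0 x → w 0 x < r → 0 < uu J w ε (x, z) → ∀ V : (ℝ × ℝ) × ℝ,
        uu J w ε (x, z) * d2 (uu J w ε) (x, z) V ≤ 1 / (1 + be) * (d1 (uu J w ε) (x, z) V) ^ 2

/-- QW -/
def Stmt_QW : Prop := P_UF → P_RB → Stmt_WB → P_KW → P_WAL → P_QW

/-- The local inequality away from the wall. -/
def P_QR : Prop :=
  ∀ (J : ℕ) (w : ℕ → ℝ × ℝ → ℝ) (K : Set (ℝ × ℝ)) (be : ℝ), Hy J w K be →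
    ∀ r : ℝ, 0 < r → ∃ ε0 : ℝ, 0 < ε0 ∧ ∀ ε : ℝ, 0 < ε → ε < ε0 → ∀ x ∈ K, ∀ z : ℝ, |z| ≤ 2 →
      r ≤ w 0 x → 0 < uu J w ε (x, z) → ∀ V : (ℝ × ℝ) × ℝ,
        uu J w ε (x, z) * d2 (uu J w ε) (x, z) V ≤ 1 / (1 + be) * (d1 (uu J w ε) (x, z) V) ^ 2

/-- QR -/
def Stmt_QR : Prop := P_UF → P_RB → Stmt_WB → Stmt_ALG → Stmt_QT → P_RES → P_QR

/-- The barriers. -/
def P_BA : Prop :=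
  ∀ (J : ℕ) (w : ℕ → ℝ × ℝ → ℝ) (K : Set (ℝ × ℝ)) (be : ℝ), Hy J w K be →
    ∃ ε0 : ℝ, 0 < ε0 ∧ ∀ ε : ℝ, 0 < ε → ε < ε0 →
      (∀ x ∈ K, ∀ z : ℝ, |z| = 2 → uu J w ε (x, z) < 0) ∧
      (∀ x ∈ K, w 0 x = 0 → ∀ z : ℝ, |z| ≤ 2 → uu J w ε (x, z) ≤ 0)

/-- BA -/
def Stmt_BA : Prop := P_UF → P_RB → Stmt_WB → P_KW → P_BA

/-- Theorem L. -/
def StmtThin2 : Prop :=
  ∀ (J : ℕ) (w : ℕ → ℝ × ℝ → ℝ) (K : Set (ℝ × ℝ)) (be : ℝ),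
    1 ≤ J → (∀ j, ContDiff ℝ (⊤ : ℕ∞) (w j)) → IsCompact K → 0 < be → be ≤ 1 / 7 →
    (∀ x ∈ K, 0 ≤ w 0 x) → K ⊆ closure {x | x ∈ K ∧ 0 < w 0 x} →
    (∃ c0 : ℝ, 0 < c0 ∧ ∀ x ∈ K, IneqB (w 0) be c0 x) →
    (∃ c0 : ℝ, 0 < c0 ∧ ∀ x ∈ K, IneqC (w 0) (w 1) c0 x) →
    (∀ x ∈ K, w 0 x = 0 → (∃ v, d1 (w 0) x v ≠ 0) ∧ 0 < w 1 x) →
    ∃ ε0 : ℝ, 0 < ε0 ∧ ∀ ε : ℝ, 0 < ε → ε < ε0 →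
      (∀ x ∈ K, ∀ z : ℝ, |z| ≤ 2 → 0 < w 0 x → 0 < uu J w ε (x, z) → ∀ V : (ℝ × ℝ) × ℝ,
        uu J w ε (x, z) * d2 (uu J w ε) (x, z) V ≤
          1 / (1 + be) * (d1 (uu J w ε) (x, z) V) ^ 2) ∧
      (∀ x ∈ K, uu J w ε (x, 2) < 0 ∧ uu J w ε (x, -2) < 0) ∧
      (∀ x ∈ K, w 0 x = 0 → ∀ z : ℝ, |z| ≤ 2 → uu J w ε (x, z) ≤ 0)

/-- FI: the theorem from the parts. -/
def Stmt_FI : Prop := P_QW → P_QR → P_BA → StmtThin2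

end LQL
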